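import Mathlib

/-!
# Koszul filtrations give linear resolutions
-/

set_option autoImplicit false

namespace Pool.Agent.R139.KoszulFilt

open Matrix

variable {A : Type*} [CommRing A]

/-- The two degree projections needed. -/
structure Gr (A : Type*) [CommRing A] where
  g1 : Set A
  p1 : A →+ A
  p2 : A →+ A
  p1_mem : ∀ a, p1 a ∈ g1
  p1_id : ∀ a ∈ g1, p1 a = a
  p2_mul : ∀ l ∈ g1, ∀ a, p2 (l * a) = l * p1 a

/-- A Koszul filtration. -/
def IsKF (g1 : Set A) (𝓕 : Set (Ideal A)) : Prop :=
  ∀ J ∈ 𝓕, ∃ (r : ℕ) (l : Fin r → A), (∀ s, l s ∈ g1) ∧ J = Ideal.span (Set.range l) ∧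
    ∀ s, ∃ C ∈ 𝓕, ∀ a, a ∈ C ↔ a * l s ∈ Ideal.span (l '' Set.Iio s)

/-- The colon property of the columns of a matrix. -/
def Good (𝓕 : Set (Ideal A)) {m n : ℕ} (D : Matrix (Fin m) (Fin n) A) : Prop :=
  ∀ t : Fin n, ∃ C ∈ 𝓕, ∀ a, a ∈ C ↔
    a • (fun i => D i t) ∈ Submodule.span A ((fun u : Fin n => fun i => D i u) '' Set.Iio t)

theorem mem_span_Iio {m n : ℕ} (k : Fin n → Fin m → A) (t : Fin n) (v : Fin m → A) :
    v ∈ Submodule.span A (k '' Set.Iio t) ↔
      ∃ c : Fin n → A, (∀ u, t ≤ u → c u = 0) ∧ v = ∑ u, c u • k u := by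
  constructor
  · intro h
    induction h using Submodule.span_induction with
    | mem x hx =>
      obtain ⟨u, hu, rfl⟩ := hx
      refine ⟨Pi.single u 1, ?_, ?_⟩
      · intro w hw
        rw [Pi.single_eq_of_ne]
        rintro rfl
        exact absurd hu (not_lt.2 hw)
      · simp [Pi.single_apply, Finset.sum_ite_eq']
    | zero => exact ⟨0, fun _ _ => rfl, by simp⟩
    | add x y _ _ hx hy =>
      obtain ⟨c, hc, rfl⟩ := hx
      obtain ⟨d, hd, rfl⟩ := hy
      refine ⟨c + d, fun u hu => by simp [hc u hu, hd u hu], ?_⟩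
      simp [add_smul, Finset.sum_add_distrib]
    | smul a x _ hx =>
      obtain ⟨c, hc, rfl⟩ := hx
      refine ⟨a • c, fun u hu => by simp [hc u hu], ?_⟩
      simp [Finset.smul_sum, mul_smul]
  · rintro ⟨c, hc, rfl⟩
    refine Submodule.sum_mem _ fun u _ => ?_
    by_cases hu : t ≤ u
    · rw [hc u hu, zero_smul]
      exact Submodule.zero_mem _
    · exact Submodule.smul_mem _ _ (Submodule.subset_span ⟨u, not_le.1 hu, rfl⟩)

theorem step (G : Gr A) {𝓕 : Set (Ideal A)} (hF : IsKF G.g1 𝓕) {m n : ℕ}
    (D : Matrix (Fin m) (Fin n) A) (hlin : ∀ i j, D i j ∈ G.g1) (hD : Good 𝓕 D) :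
    ∃ (n' : ℕ) (D' : Matrix (Fin n) (Fin n') A), (∀ i j, D' i j ∈ G.g1) ∧ Good 𝓕 D' ∧
      ∀ x, D.mulVec x = 0 ↔ ∃ y, D'.mulVec y = x := by
  classical
  choose C hC hCmem using hD
  choose r l hl hspan hcol using fun t => hF (C t) (hC t)
  -- the lifts
  have hlift : ∀ t (s : Fin (r t)), ∃ v : Fin n → A, (∀ u, v u ∈ G.g1) ∧ v t = l t s ∧
      (∀ u, t < u → v u = 0) ∧ D.mulVec v = 0 := by
    intro t s
    have h1 : l t s ∈ C t := by
      rw [hspan]
      exact Ideal.subset_span ⟨s, rfl⟩
    obtain ⟨c, hc, hsum⟩ := (mem_span_Iio _ _ _).1 ((hCmem t _).1 h1)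
    have h0 : D.mulVec (Function.update (-c) t (l t s)) = 0 := by
      funext i
      have h2 := congrFun hsum i
      simp only [Pi.smul_apply, smul_eq_mul, Finset.sum_apply] at h2
      rw [Matrix.mulVec, dotProduct, Pi.zero_apply]
      rw [← Finset.add_sum_erase _ _ (Finset.mem_univ t)]
      rw [Function.update_self]
      rw [← Finset.add_sum_erase _ _ (Finset.mem_univ t), hc t le_rfl, zero_mul, zero_add] at h2
      rw [mul_comm (D i t), h2, ← Finset.sum_add_distrib]
      apply Finset.sum_eq_zero
      intro u hu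
      rw [Function.update_of_ne (Finset.ne_of_mem_erase hu), Pi.neg_apply]
      ring
    refine ⟨fun u => G.p1 (Function.update (-c) t (l t s) u), fun u => G.p1_mem _, ?_, ?_, ?_⟩
    · change G.p1 _ = _
      rw [Function.update_self]
      exact G.p1_id _ (hl t s)
    · intro u hu
      change G.p1 _ = _
      rw [Function.update_of_ne hu.ne', Pi.neg_apply, hc u hu.le, neg_zero, map_zero]
    · funext i
      have h3 := congrFun h0 i
      rw [Matrix.mulVec, dotProduct, Pi.zero_apply] at h3 ⊢
      have h4 := congrArg G.p2 h3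
      rw [map_sum, map_zero] at h4
      rw [← h4]
      exact Finset.sum_congr rfl fun u _ => (G.p2_mul _ (hlin i u) _).symm
  choose k hk1 hkt hk0 hkD using hlift
  -- spanning
  have hA : ∀ T : ℕ, ∀ v : Fin n → A, D.mulVec v = 0 → (∀ u : Fin n, T ≤ u → v u = 0) →
      v ∈ Submodule.span A {w | ∃ (t : Fin n) (s : Fin (r t)), (t : ℕ) < T ∧ w = k t s} := by
    intro T
    induction T with
    | zero =>
      intro v _ hv
      have : v = 0 := funext fun u => hv u (Nat.zero_le _)
      rw [this]
      exact Submodule.zero_mem _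
    | succ T ih =>
      intro v hDv hv
      by_cases hT : T < n
      · let t : Fin n := ⟨T, hT⟩
        have h1 : v t ∈ C t := by
          rw [hCmem]
          rw [mem_span_Iio]
          refine ⟨fun u => if u < t then - v u else 0, ?_, ?_⟩
          · intro u hu
            exact if_neg (not_lt.2 hu)
          · funext i
            have h2 := congrFun hDv i
            rw [Matrix.mulVec, dotProduct, Pi.zero_apply,
              ← Finset.add_sum_erase _ _ (Finset.mem_univ t)] at h2
            simp only [Pi.smul_apply, smul_eq_mul, Finset.sum_apply]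
            rw [← Finset.add_sum_erase (a := t) _ _ (Finset.mem_univ t), if_neg (lt_irrefl t),
              zero_mul, zero_add]
            rw [mul_comm, eq_neg_of_add_eq_zero_left h2, ← Finset.sum_neg_distrib]
            refine Finset.sum_congr rfl fun u hu => ?_
            by_cases hut : u < t
            · rw [if_pos hut]
              ring
            · have : t < u := lt_of_le_of_ne (not_lt.1 hut) (Finset.ne_of_mem_erase hu).symm
              have h3 : v u = 0 := hv u this
              rw [if_neg hut, h3]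
              ring
        rw [hspan, Ideal.span, Submodule.mem_span_range_iff_exists_fun] at h1
        obtain ⟨c, hc⟩ := h1
        have h2 : v - ∑ s, c s • k t s ∈
            Submodule.span A {w | ∃ (t : Fin n) (s : Fin (r t)), (t : ℕ) < T ∧ w = k t s} := by
          apply ih
          · rw [Matrix.mulVec_sub, hDv, Matrix.mulVec_sum, zero_sub, neg_eq_zero]
            refine Finset.sum_eq_zero fun s _ => ?_
            rw [Matrix.mulVec_smul, hkD, smul_zero]
          · intro u hu
            rw [Pi.sub_apply, Finset.sum_apply]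
            rcases eq_or_lt_of_le hu with h | h
            · have hut : u = t := Fin.ext h.symm
              subst hut
              rw [← hc, sub_eq_zero]
              refine Finset.sum_congr rfl fun s _ => ?_
              rw [Pi.smul_apply, hkt]
            · rw [hv u h, zero_sub, neg_eq_zero]
              refine Finset.sum_eq_zero fun s _ => ?_
              rw [Pi.smul_apply, hk0 t s u h, smul_zero]
        have h3 : v = (v - ∑ s, c s • k t s) + ∑ s, c s • k t s := by abel
        rw [h3]
        refine Submodule.add_mem _ (Submodule.span_mono ?_ h2) ?_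
        · rintro w ⟨t', s', ht', rfl⟩
          exact ⟨t', s', Nat.lt_succ_of_lt ht', rfl⟩
        · refine Submodule.sum_mem _ fun s _ => Submodule.smul_mem _ _ (Submodule.subset_span ?_)
          exact ⟨t, s, Nat.lt_succ_self T, rfl⟩
      · refine Submodule.span_mono ?_ (ih v hDv ?_)
        · rintro w ⟨t', s', ht', rfl⟩
          exact ⟨t', s', Nat.lt_succ_of_lt ht', rfl⟩
        · intro u hu
          exact absurd (lt_of_le_of_lt hu u.2) hT
  -- the new index type
  let N := Fintype.card (Σₗ t : Fin n, Fin (r t))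
  let e : Fin N ≃o (Σₗ t : Fin n, Fin (r t)) := Fintype.orderIsoFinOfCardEq _ rfl
  let K : Fin N → Fin n → A := fun j => k (ofLex (e j)).1 (ofLex (e j)).2
  have hKrange : ∀ t s, k t s = K (e.symm (toLex ⟨t, s⟩)) := by
    intro t s
    have h1 : e (e.symm (toLex ⟨t, s⟩)) = toLex ⟨t, s⟩ := e.apply_symm_apply _
    change k t s = (fun q : Σₗ t : Fin n, Fin (r t) => k (ofLex q).1 (ofLex q).2)
      (e (e.symm (toLex ⟨t, s⟩)))
    rw [h1]
    rfl
  refine ⟨N, Matrix.of fun i j => K j i, fun i j => hk1 _ _ _, ?_, ?_⟩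
  · intro j
    obtain ⟨q, rfl⟩ := e.symm.surjective j
    obtain ⟨⟨t, s⟩, rfl⟩ := toLex.surjective q
    obtain ⟨C', hC', hmem⟩ := hcol t s
    refine ⟨C', hC', fun a => ?_⟩
    rw [hmem]
    have hKj : (fun i => (Matrix.of fun i j => K j i) i (e.symm (toLex ⟨t, s⟩))) = k t s := by
      funext i
      exact congrFun (hKrange t s).symm i
    rw [hKj]
    have hKK : (fun u : Fin N => fun i => (Matrix.of fun i j => K j i) i u) = K := rfl
    rw [hKK]
    constructor
    · intro h
      -- a * l t s = sum
      have h1 : ∃ c : Fin (r t) → A, (∀ s', s ≤ s' → c s' = 0) ∧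
          a * l t s = ∑ s', c s' * l t s' := by
        have := (mem_span_Iio (m := 1) (fun s' => fun _ => l t s') s
          (fun _ => a * l t s)).1 ?_
        · obtain ⟨c, hc, hsum⟩ := this
          refine ⟨c, hc, ?_⟩
          have := congrFun hsum 0
          simpa [Finset.sum_apply] using this
        · have h2 := Submodule.mem_map_of_mem (f := LinearMap.pi (fun _ : Fin 1 => LinearMap.id))
            h
          rw [Ideal.span, Submodule.map_span] at h2
          have h3 : (LinearMap.pi (fun _ : Fin 1 => (LinearMap.id : A →ₗ[A] A))) '' (l t '' Set.Iio s)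
              = (fun s' => fun _ : Fin 1 => l t s') '' Set.Iio s := by
            rw [Set.image_image]
            rfl
          rw [h3] at h2
          exact h2
      obtain ⟨c, hc, hsum⟩ := h1
      have h2 : a • k t s - ∑ s', c s' • k t s' ∈
          Submodule.span A {w | ∃ (t' : Fin n) (s' : Fin (r t')), (t' : ℕ) < t ∧ w = k t' s'} := by
        apply hA t
        · rw [Matrix.mulVec_sub, Matrix.mulVec_smul, hkD, smul_zero, Matrix.mulVec_sum, zero_sub,
            neg_eq_zero]
          refine Finset.sum_eq_zero fun s' _ => ?_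
          rw [Matrix.mulVec_smul, hkD, smul_zero]
        · intro u hu
          rw [Pi.sub_apply, Finset.sum_apply, Pi.smul_apply]
          rcases eq_or_lt_of_le hu with h | h
          · have hut : u = t := Fin.ext h.symm
            subst hut
            rw [hkt, smul_eq_mul, hsum, sub_eq_zero]
            refine Finset.sum_congr rfl fun s' _ => ?_
            rw [Pi.smul_apply, hkt, smul_eq_mul]
          · rw [hk0 t s u h, smul_zero, zero_sub, neg_eq_zero]
            refine Finset.sum_eq_zero fun s' _ => ?_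
            rw [Pi.smul_apply, hk0 t s' u h, smul_zero]
      have h3 : a • k t s = (a • k t s - ∑ s', c s' • k t s') + ∑ s', c s' • k t s' := by abel
      rw [h3]
      refine Submodule.add_mem _ (Submodule.span_mono ?_ h2) ?_
      · rintro w ⟨t', s', ht', rfl⟩
        refine ⟨e.symm (toLex ⟨t', s'⟩), ?_, (hKrange t' s').symm⟩
        rw [Set.mem_Iio, OrderIso.lt_iff_lt]
        exact Sigma.Lex.left _ _ ht'
      · refine Submodule.sum_mem _ fun s' _ => ?_
        by_cases hs : s ≤ s'
        · rw [hc s' hs, zero_smul]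
          exact Submodule.zero_mem _
        · refine Submodule.smul_mem _ _ (Submodule.subset_span ?_)
          refine ⟨e.symm (toLex ⟨t, s'⟩), ?_, (hKrange t s').symm⟩
          rw [Set.mem_Iio, OrderIso.lt_iff_lt]
          exact Sigma.Lex.right _ _ (not_le.1 hs)
    · intro h
      have h2 := Submodule.mem_map_of_mem (f := LinearMap.proj t) h
      rw [Submodule.map_span] at h2
      have h3 : (LinearMap.proj t : (Fin n → A) →ₗ[A] A) (a • k t s) = a * l t s := by
        rw [LinearMap.proj_apply, Pi.smul_apply, hkt, smul_eq_mul]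
      rw [h3] at h2
      refine (Submodule.span_le.2 ?_) h2
      rintro _ ⟨_, ⟨j, hj, rfl⟩, rfl⟩
      obtain ⟨q, rfl⟩ := e.symm.surjective j
      obtain ⟨⟨t', s'⟩, rfl⟩ := toLex.surjective q
      rw [Set.mem_Iio, OrderIso.lt_iff_lt] at hj
      have h4 : K (e.symm (toLex ⟨t', s'⟩)) = k t' s' := (hKrange t' s').symm
      rw [LinearMap.proj_apply, h4]
      cases hj with
      | left _ _ h5 =>
        rw [hk0 t' s' t h5]
        exact Submodule.zero_mem _
      | right _ _ h5 =>
        rw [hkt]
        exact Ideal.subset_span ⟨s', h5, rfl⟩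
  · intro x
    constructor
    · intro hx
      have h1 := hA n x hx (fun u hu => absurd u.2 (not_lt.2 hu))
      have h2 : Submodule.span A {w | ∃ (t : Fin n) (s : Fin (r t)), (t : ℕ) < n ∧ w = k t s} ≤
          LinearMap.range (Matrix.mulVecLin (Matrix.of fun i j => K j i)) := by
        rw [Submodule.span_le]
        rintro w ⟨t, s, -, rfl⟩
        refine ⟨Pi.single (e.symm (toLex ⟨t, s⟩)) 1, ?_⟩
        rw [Matrix.mulVecLin_apply, Matrix.mulVec_single_one]
        rw [hKrange]
        rfl
      obtain ⟨y, hy⟩ := h2 h1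
      exact ⟨y, hy⟩
    · rintro ⟨y, rfl⟩
      have h1 : (Matrix.of fun i j => K j i).mulVec y = ∑ j, y j • K j := by
        funext i
        rw [Matrix.mulVec, dotProduct, Finset.sum_apply]
        refine Finset.sum_congr rfl fun j _ => ?_
        rw [Pi.smul_apply, smul_eq_mul, mul_comm]
        rfl
      rw [h1, Matrix.mulVec_sum]
      refine Finset.sum_eq_zero fun j _ => ?_
      rw [Matrix.mulVec_smul, hkD, smul_zero]

/-- the states of the recursion -/
structure State (g1 : Set A) (𝓕 : Set (Ideal A)) where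
  m : ℕ
  n : ℕ
  D : Matrix (Fin m) (Fin n) A
  lin : ∀ i j, D i j ∈ g1
  good : Good 𝓕 D

/-- A ring with a Koszul filtration containing `𝔪` has a linear resolution. -/
theorem exists_resolution (G : Gr A) {𝓕 : Set (Ideal A)} (hF : IsKF G.g1 𝓕) {𝔪 : Ideal A}
    (hm : 𝔪 ∈ 𝓕) :
    ∃ (β : ℕ → ℕ) (d : ∀ i, Matrix (Fin (β i)) (Fin (β (i + 1))) A), β 0 = 1 ∧
      (∀ i a b, d i a b ∈ G.g1) ∧
      (∀ x : Fin (β 0) → A, (∃ y, (d 0).mulVec y = x) ↔ ∀ a, x a ∈ 𝔪) ∧
      ∀ i x, (d i).mulVec x = 0 ↔ ∃ y, (d (i + 1)).mulVec y = x := by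
  classical
  obtain ⟨r, l, hl, hspan, hcol⟩ := hF 𝔪 hm
  let s0 : State G.g1 𝓕 := {
    m := 1
    n := r
    D := Matrix.of fun _ j => l j
    lin := fun _ j => hl j
    good := by
      intro t
      obtain ⟨C, hC, hmem⟩ := hcol t
      refine ⟨C, hC, fun a => ?_⟩
      rw [hmem]
      constructor
      · intro h
        have h2 := Submodule.mem_map_of_mem (f := LinearMap.pi (fun _ : Fin 1 => LinearMap.id)) h
        rw [Ideal.span, Submodule.map_span, Set.image_image] at h2
        exact h2
      · intro h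
        have h2 := Submodule.mem_map_of_mem (f := LinearMap.proj (0 : Fin 1)) h
        rw [Submodule.map_span, Set.image_image] at h2
        exact h2 }
  have hstep : ∀ s : State G.g1 𝓕, ∃ (n' : ℕ) (D' : Matrix (Fin s.n) (Fin n') A),
      (∀ i j, D' i j ∈ G.g1) ∧ Good 𝓕 D' ∧ ∀ x, s.D.mulVec x = 0 ↔ ∃ y, D'.mulVec y = x :=
    fun s => step G hF s.D s.lin s.good
  choose n' D' hlin hgood hex using hstep
  let next : State G.g1 𝓕 → State G.g1 𝓕 := fun s => ⟨s.n, n' s, D' s, hlin s, hgood s⟩
  let St : ℕ → State G.g1 𝓕 := fun i => Nat.rec s0 (fun _ s => next s) i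
  refine ⟨fun i => (St i).m, fun i => (St i).D, rfl, fun i a b => (St i).lin a b, ?_, ?_⟩
  · intro x
    constructor
    · rintro ⟨y, rfl⟩ a
      change (Matrix.mulVec (Matrix.of fun (_ : Fin 1) j => l j) y) a ∈ 𝔪
      rw [Matrix.mulVec, dotProduct, hspan]
      refine Ideal.sum_mem _ fun j _ => ?_
      exact Ideal.mul_mem_right _ _ (Ideal.subset_span ⟨j, rfl⟩)
    · intro h
      have h1 : x (0 : Fin 1) ∈ 𝔪 := h (0 : Fin 1)
      rw [hspan, Ideal.span, Submodule.mem_span_range_iff_exists_fun] at h1
      obtain ⟨c, hc⟩ := h1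
      refine ⟨c, ?_⟩
      change Matrix.mulVec (Matrix.of fun (_ : Fin 1) j => l j) c = x
      funext a
      obtain rfl : a = (0 : Fin 1) := Subsingleton.elim (α := Fin 1) _ _
      rw [← hc, Matrix.mulVec, dotProduct]
      exact Finset.sum_congr rfl fun j _ => mul_comm _ _
  · intro i x
    exact hex (St i) x

end Pool.Agent.R139.KoszulFilt
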