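import Mathlib
import Pool.Agent.R139.KoszulFilt

/-!
# Quotients of polynomial rings by homogeneous ideals
-/

set_option autoImplicit false

namespace Pool.Agent.R139.GrQuot

open MvPolynomial Pool.Agent.R139.KoszulFilt

variable {V : Type*} 

theorem comp_mul {f g : MvPolynomial V ℚ} {i : ℕ} (hf : f.IsHomogeneous i) (n : ℕ) :
    homogeneousComponent n (f * g) = if i ≤ n then f * homogeneousComponent (n - i) g else 0 := by
  conv_lhs => rw [← sum_homogeneousComponent g, Finset.mul_sum, map_sum]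
  have h1 : ∀ k, homogeneousComponent n (f * homogeneousComponent k g) =
      if n = i + k then f * homogeneousComponent k g else 0 := fun k =>
    homogeneousComponent_of_mem (hf.mul (homogeneousComponent_isHomogeneous k g))
  simp only [h1]
  split_ifs with h
  · rw [Finset.sum_eq_single (n - i)]
    · rw [if_pos (by omega)]
    · intro b _ hb
      rw [if_neg (by omega)]
    · intro hb
      rw [if_pos (by omega), homogeneousComponent_eq_zero, mul_zero]
      rw [Finset.mem_range] at hb
      omega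
  · refine Finset.sum_eq_zero fun k _ => ?_
    rw [if_neg (by omega)]

/-- closed under homogeneous components -/
def IsHom (I : Ideal (MvPolynomial V ℚ)) : Prop :=
  ∀ f ∈ I, ∀ n, homogeneousComponent n f ∈ I

theorem isHom_span {s : Set (MvPolynomial V ℚ)} (hs : ∀ g ∈ s, ∃ n, g.IsHomogeneous n) :
    IsHom (Ideal.span s) := by
  intro f hf
  rw [Ideal.span] at hf
  induction hf using Submodule.span_induction with
  | mem x hx =>
    intro n
    obtain ⟨m, hm⟩ := hs x hx
    rw [homogeneousComponent_of_mem hm]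
    split_ifs
    · exact Ideal.subset_span hx
    · exact Ideal.zero_mem _
  | zero =>
    intro n
    rw [map_zero]
    exact Ideal.zero_mem _
  | add x y _ _ hx hy =>
    intro n
    rw [map_add]
    exact Ideal.add_mem _ (hx n) (hy n)
  | smul a x _ hx =>
    intro n
    rw [smul_eq_mul, ← sum_homogeneousComponent a, Finset.sum_mul, map_sum]
    refine Ideal.sum_mem _ fun k _ => ?_
    rw [comp_mul (homogeneousComponent_isHomogeneous k a)]
    split_ifs
    · exact Ideal.mul_mem_left _ _ (hx _)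
    · exact Ideal.zero_mem _

variable (I : Ideal (MvPolynomial V ℚ))

/-- the graded pieces of the quotient -/
noncomputable def gr (n : ℕ) : Submodule ℚ (MvPolynomial V ℚ ⧸ I) :=
  (homogeneousSubmodule V ℚ n).map (Ideal.Quotient.mkₐ ℚ I).toLinearMap

variable {I}

theorem mem_gr {n : ℕ} {a : MvPolynomial V ℚ ⧸ I} :
    a ∈ gr I n ↔ ∃ f : MvPolynomial V ℚ, f.IsHomogeneous n ∧ Ideal.Quotient.mk I f = a :=
  Iff.rfl

/-- the projection to the degree `n` part -/
noncomputable def pr (hI : IsHom I) (n : ℕ) :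
    (MvPolynomial V ℚ ⧸ I) →+ (MvPolynomial V ℚ ⧸ I) :=
  QuotientAddGroup.lift I.toAddSubgroup
    ((Ideal.Quotient.mk I).toAddMonoidHom.comp
      (homogeneousComponent n : MvPolynomial V ℚ →ₗ[ℚ] MvPolynomial V ℚ).toAddMonoidHom)
    (fun f hf => by
      change Ideal.Quotient.mk I (homogeneousComponent n f) = 0
      rw [Ideal.Quotient.eq_zero_iff_mem]
      exact hI f hf n)

theorem pr_mk (hI : IsHom I) (n : ℕ) (f : MvPolynomial V ℚ) :
    pr hI n (Ideal.Quotient.mk I f) = Ideal.Quotient.mk I (homogeneousComponent n f) := rfl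

theorem pr_mem (hI : IsHom I) (n : ℕ) (a : MvPolynomial V ℚ ⧸ I) : pr hI n a ∈ gr I n := by
  obtain ⟨f, rfl⟩ := Ideal.Quotient.mk_surjective a
  rw [pr_mk, mem_gr]
  exact ⟨_, homogeneousComponent_isHomogeneous n f, rfl⟩

theorem pr_of_mem (hI : IsHom I) {m n : ℕ} {a : MvPolynomial V ℚ ⧸ I} (ha : a ∈ gr I n) :
    pr hI m a = if m = n then a else 0 := by
  obtain ⟨f, hf, rfl⟩ := mem_gr.1 ha
  rw [pr_mk, homogeneousComponent_of_mem hf]
  split_ifs
  · rfl
  · exact map_zero _

theorem pr_self (hI : IsHom I) {n : ℕ} {a : MvPolynomial V ℚ ⧸ I} (ha : a ∈ gr I n) :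
    pr hI n a = a := by
  rw [pr_of_mem hI ha, if_pos rfl]

theorem pr_mul (hI : IsHom I) {l a : MvPolynomial V ℚ ⧸ I} (hl : l ∈ gr I 1) (n : ℕ) :
    pr hI (n + 1) (l * a) = l * pr hI n a := by
  obtain ⟨g, hg, rfl⟩ := mem_gr.1 hl
  obtain ⟨f, rfl⟩ := Ideal.Quotient.mk_surjective a
  rw [← map_mul, pr_mk, comp_mul hg, if_pos (by omega), pr_mk, ← map_mul]
  rfl

theorem pr_zero_mul (hI : IsHom I) {l a : MvPolynomial V ℚ ⧸ I} (hl : l ∈ gr I 1) :
    pr hI 0 (l * a) = 0 := by
  obtain ⟨g, hg, rfl⟩ := mem_gr.1 hl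
  obtain ⟨f, rfl⟩ := Ideal.Quotient.mk_surjective a
  rw [← map_mul, pr_mk, comp_mul hg, if_neg (by omega), map_zero]

/-- the data needed for Koszul filtrations -/
noncomputable def theGr (hI : IsHom I) : Gr (MvPolynomial V ℚ ⧸ I) where
  g1 := gr I 1
  p1 := pr hI 1
  p2 := pr hI 2
  p1_mem := pr_mem hI 1
  p1_id := fun _ ha => pr_self hI ha
  p2_mul := fun _ hl _ => pr_mul hI hl 1

theorem X_mem_gr (v : V) : Ideal.Quotient.mk I (X v) ∈ gr I 1 :=
  mem_gr.2 ⟨X v, isHomogeneous_X ℚ v, rfl⟩

theorem mk_C (c : ℚ) : Ideal.Quotient.mk I (C c) = c • 1 := by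
  rw [← Algebra.algebraMap_eq_smul_one]
  rfl

theorem gr_zero {a : MvPolynomial V ℚ ⧸ I} (ha : a ∈ gr I 0) : ∃ c : ℚ, a = c • 1 := by
  obtain ⟨f, hf, rfl⟩ := mem_gr.1 ha
  refine ⟨coeff 0 f, ?_⟩
  rw [← mk_C, ← homogeneousComponent_zero, homogeneousComponent_eq_self hf]

theorem one_mem_gr : (1 : MvPolynomial V ℚ ⧸ I) ∈ gr I 0 :=
  mem_gr.2 ⟨1, isHomogeneous_one V ℚ, map_one _⟩

/-- the irrelevant ideal -/
noncomputable def irr (I : Ideal (MvPolynomial V ℚ)) : Ideal (MvPolynomial V ℚ ⧸ I) :=
  Ideal.span (Set.range fun v => Ideal.Quotient.mk I (X v))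

theorem sub_const (f : MvPolynomial V ℚ) :
    Ideal.Quotient.mk I f - Ideal.Quotient.mk I (C (constantCoeff f)) ∈ irr I := by
  induction f using MvPolynomial.induction_on with
  | C a => simp
  | add p q hp hq =>
    have h := Ideal.add_mem _ hp hq
    rw [map_add, map_add, map_add, map_add]
    convert h using 1
    ring
  | mul_X p v _ =>
    rw [map_mul, map_mul, constantCoeff_X, mul_zero, map_zero, map_zero, sub_zero]
    exact Ideal.mul_mem_left _ _ (Ideal.subset_span ⟨v, rfl⟩)

theorem exists_const (a : MvPolynomial V ℚ ⧸ I) : ∃ c : ℚ, a - c • 1 ∈ irr I := by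
  obtain ⟨f, rfl⟩ := Ideal.Quotient.mk_surjective a
  exact ⟨constantCoeff f, by rw [← mk_C]; exact sub_const f⟩

theorem gr_succ {a : MvPolynomial V ℚ ⧸ I} {n : ℕ} (ha : a ∈ gr I (n + 1)) : a ∈ irr I := by
  obtain ⟨f, hf, rfl⟩ := mem_gr.1 ha
  have h := sub_const (I := I) f
  have h0 : constantCoeff f = 0 := by
    rw [constantCoeff_eq]
    apply hf.coeff_eq_zero
    simp
  rwa [h0, map_zero, map_zero, sub_zero] at h

/-- The ring is the sum of its graded pieces. -/
theorem sum_pr (hI : IsHom I) (a : MvPolynomial V ℚ ⧸ I) :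
    ∃ N, ∀ M, N ≤ M → a = ∑ n ∈ Finset.range M, pr hI n a := by
  obtain ⟨f, rfl⟩ := Ideal.Quotient.mk_surjective a
  refine ⟨f.totalDegree + 1, fun M hM => ?_⟩
  simp only [pr_mk]
  rw [← map_sum]
  congr 1
  have h1 : ∑ n ∈ Finset.range M, homogeneousComponent n f =
      ∑ n ∈ Finset.range (f.totalDegree + 1), homogeneousComponent n f := by
    symm
    apply Finset.sum_subset (Finset.range_mono hM)
    intro n _ hn
    apply homogeneousComponent_eq_zero
    rw [Finset.mem_range] at hn
    omega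
  rw [h1, sum_homogeneousComponent]

/-! ### The lower bound -/

section Lower

variable {P : Type*} (pt : P → V → ℚ)

/-- evaluation at the points -/
noncomputable def ev : MvPolynomial V ℚ →ₐ[ℚ] (P → ℚ) :=
  AlgHom.pi fun p => aeval (pt p)

theorem ev_apply (f : MvPolynomial V ℚ) (p : P) : ev pt f p = eval (pt p) f := by
  rw [ev, AlgHom.pi_apply, aeval_eq_eval]

/-- values of polynomials of degree less than `e` -/
noncomputable def UU : ℕ → Submodule ℚ (P → ℚ)
  | 0 => ⊥
  | e + 1 => UU e ⊔ (homogeneousSubmodule V ℚ e).map (ev pt).toLinearMap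

variable {pt}

theorem UU_mono {e e' : ℕ} (h : e ≤ e') : UU pt e ≤ UU pt e' := by
  induction h with
  | refl => exact le_rfl
  | step _ ih => exact ih.trans le_sup_left

theorem ev_mem_UU {f : MvPolynomial V ℚ} {e : ℕ} (hf : f.IsHomogeneous e) :
    ev pt f ∈ UU pt (e + 1) :=
  Submodule.mem_sup_right ⟨f, hf, rfl⟩

theorem mul_mem_UU {f : MvPolynomial V ℚ} {i : ℕ} (hf : f.IsHomogeneous i) (e : ℕ) :
    ∀ u ∈ UU pt e, ev pt f * u ∈ UU pt (i + e) := by
  induction e with
  | zero =>
    intro u hu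
    rw [UU, Submodule.mem_bot] at hu
    rw [hu, mul_zero]
    exact Submodule.zero_mem _
  | succ e ih =>
    intro u hu
    rw [UU, Submodule.mem_sup] at hu
    obtain ⟨u1, hu1, u2, ⟨g, hg, rfl⟩, rfl⟩ := hu
    rw [mul_add]
    refine Submodule.add_mem _ (UU_mono (by omega) (ih u1 hu1)) ?_
    have h1 : ev pt f * (ev pt).toLinearMap g = ev pt (f * g) := (map_mul _ _ _).symm
    rw [h1]
    exact ev_mem_UU (hf.mul hg)

/-- hypotheses on the points and the generators of the ideal -/
def GenOK (pt : P → V → ℚ) (s : Set (MvPolynomial V ℚ)) : Prop :=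
  ∀ g ∈ s, ∃ n, g.IsHomogeneous n ∧
    (ev pt g = 0 ∨ (1 ≤ n ∧ ∃ c : ℚ, ev pt g = c • 1))

theorem GenOK.isHom {s : Set (MvPolynomial V ℚ)} (h : GenOK pt s) : IsHom (Ideal.span s) :=
  isHom_span fun g hg => by
    obtain ⟨n, hn, -⟩ := h g hg
    exact ⟨n, hn⟩

theorem ev_ideal {s : Set (MvPolynomial V ℚ)} (hs : GenOK pt s) {g : MvPolynomial V ℚ}
    (hg : g ∈ Ideal.span s) : ∀ e, ev pt (homogeneousComponent e g) ∈ UU pt e := by
  rw [Ideal.span] at hg
  induction hg using Submodule.span_induction with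
  | mem x hx =>
    intro e
    obtain ⟨n, hn, h⟩ := hs x hx
    rw [homogeneousComponent_of_mem hn]
    split_ifs with hen
    · subst hen
      rcases h with h | ⟨h1, c, hc⟩
      · rw [h]
        exact Submodule.zero_mem _
      · rw [hc]
        apply Submodule.smul_mem
        have : (1 : P → ℚ) = ev pt 1 := (map_one _).symm
        rw [this]
        exact UU_mono h1 (ev_mem_UU (isHomogeneous_one V ℚ))
    · rw [map_zero]
      exact Submodule.zero_mem _
  | zero =>
    intro e
    rw [map_zero, map_zero]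
    exact Submodule.zero_mem _
  | add x y _ _ hx hy =>
    intro e
    rw [map_add, map_add]
    exact Submodule.add_mem _ (hx e) (hy e)
  | smul a x _ hx =>
    intro e
    rw [smul_eq_mul]
    conv => rw [← sum_homogeneousComponent a, Finset.sum_mul, map_sum, map_sum]
    refine Submodule.sum_mem _ fun k _ => ?_
    rw [comp_mul (homogeneousComponent_isHomogeneous k a)]
    split_ifs with hk
    · rw [map_mul]
      have h1 := mul_mem_UU (homogeneousComponent_isHomogeneous k a) (e - k) _ (hx (e - k))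
      rwa [Nat.add_sub_cancel' hk] at h1
    · rw [map_zero]
      exact Submodule.zero_mem _

theorem finrank_UU_succ [Finite P] {s : Set (MvPolynomial V ℚ)} (hs : GenOK pt s) (e : ℕ)
    [Module.Finite ℚ (gr (Ideal.span s) e)] :
    Module.finrank ℚ (UU pt (e + 1)) ≤
      Module.finrank ℚ (UU pt e) + Module.finrank ℚ (gr (Ideal.span s) e) := by
  classical
  let b := Module.finBasis ℚ (gr (Ideal.span s) e)
  have hb : ∀ i, ∃ f : MvPolynomial V ℚ, f.IsHomogeneous e ∧
      Ideal.Quotient.mk (Ideal.span s) f = (b i : MvPolynomial V ℚ ⧸ Ideal.span s) :=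
    fun i => mem_gr.1 (b i).2
  choose F hF hF' using hb
  have hle : UU pt (e + 1) ≤ UU pt e ⊔ Submodule.span ℚ (Set.range fun i => ev pt (F i)) := by
    rw [UU]
    apply sup_le le_sup_left
    rintro _ ⟨f, hf, rfl⟩
    have hf' : f.IsHomogeneous e := hf
    let a : gr (Ideal.span s) e := ⟨Ideal.Quotient.mk _ f, mem_gr.2 ⟨f, hf', rfl⟩⟩
    have h1 : a = ∑ i, b.repr a i • b i := (b.sum_repr a).symm
    have h2 : f - ∑ i, b.repr a i • F i ∈ Ideal.span s := by
      rw [← Ideal.Quotient.eq_zero_iff_mem, map_sub, map_sum, sub_eq_zero]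
      have h3 := congrArg (Subtype.val) h1
      have h4 : (a : MvPolynomial V ℚ ⧸ Ideal.span s) = Ideal.Quotient.mk _ f := rfl
      rw [h4] at h3
      rw [h3]
      rw [AddSubmonoidClass.coe_finsetSum]
      refine Finset.sum_congr rfl fun i _ => ?_
      rw [Submodule.coe_smul, ← hF']
      rfl
    have h3 : (f - ∑ i, b.repr a i • F i).IsHomogeneous e := by
      refine Submodule.sub_mem (homogeneousSubmodule V ℚ e) hf ?_
      exact Submodule.sum_mem _ fun i _ => Submodule.smul_mem _ _ (hF i)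
    have h4 := ev_ideal hs h2 e
    rw [homogeneousComponent_eq_self h3, map_sub, map_sum] at h4
    have h5 : (ev pt).toLinearMap f =
        (ev pt f - ∑ i, ev pt (b.repr a i • F i)) + ∑ i, b.repr a i • ev pt (F i) := by
      simp only [map_smul, sub_add_cancel]
      rfl
    rw [h5]
    refine Submodule.add_mem _ (Submodule.mem_sup_left h4) (Submodule.mem_sup_right ?_)
    exact Submodule.sum_mem _ fun i _ => Submodule.smul_mem _ _ (Submodule.subset_span ⟨i, rfl⟩)
  calc Module.finrank ℚ (UU pt (e + 1))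
      ≤ Module.finrank ℚ ↥(UU pt e ⊔ Submodule.span ℚ (Set.range fun i => ev pt (F i))) :=
        Submodule.finrank_mono hle
    _ ≤ Module.finrank ℚ (UU pt e) +
        Module.finrank ℚ (Submodule.span ℚ (Set.range fun i => ev pt (F i))) :=
        Submodule.finrank_add_le_finrank_add_finrank _ _
    _ ≤ _ := by
        gcongr
        refine (finrank_range_le_card _).trans ?_
        rw [Fintype.card_fin]

theorem finrank_UU_le [Finite P] {s : Set (MvPolynomial V ℚ)} (hs : GenOK pt s)
    [∀ n, Module.Finite ℚ (gr (Ideal.span s) n)] (e : ℕ) :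
    Module.finrank ℚ (UU pt e) ≤
      ∑ n ∈ Finset.range e, Module.finrank ℚ (gr (Ideal.span s) n) := by
  induction e with
  | zero =>
    rw [UU, finrank_bot]
    exact Nat.zero_le _
  | succ e ih =>
    rw [Finset.sum_range_succ]
    exact (finrank_UU_succ hs e).trans (Nat.add_le_add_right ih _)

/-- interpolation -/
theorem ev_surjective [Finite P] (hinj : Function.Injective pt) :
    Function.Surjective (ev pt) := by
  classical
  have := Fintype.ofFinite P
  have hsep : ∀ p q : P, ∃ g : MvPolynomial V ℚ, p ≠ q → eval (pt p) g = 1 ∧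
      eval (pt q) g = 0 := by
    intro p q
    by_cases hpq : p = q
    · exact ⟨0, fun h => absurd hpq h⟩
    · have hv : ∃ v, pt p v ≠ pt q v := by
        by_contra hcon
        push Not at hcon
        exact hpq (hinj (funext hcon))
      obtain ⟨v, hv⟩ := hv
      refine ⟨C ((pt p v - pt q v)⁻¹) * (X v - C (pt q v)), fun _ => ⟨?_, ?_⟩⟩
      · rw [map_mul, map_sub, eval_C, eval_C, eval_X]
        exact inv_mul_cancel₀ (sub_ne_zero.2 hv)
      · rw [map_mul, map_sub, eval_C, eval_C, eval_X, sub_self, mul_zero]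
  choose g hg using hsep
  let δ : P → MvPolynomial V ℚ := fun p => ∏ q ∈ Finset.univ.erase p, g p q
  have hδ : ∀ p r, eval (pt r) (δ p) = if r = p then 1 else 0 := by
    intro p r
    rw [map_prod]
    split_ifs with h
    · subst h
      exact Finset.prod_eq_one fun q hq => (hg r q (Finset.ne_of_mem_erase hq).symm).1
    · refine Finset.prod_eq_zero (Finset.mem_erase.2 ⟨h, Finset.mem_univ r⟩) ?_
      exact (hg p r fun h' => h h'.symm).2
  intro f
  refine ⟨∑ p, C (f p) * δ p, ?_⟩
  funext r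
  rw [ev_apply, map_sum]
  simp only [map_mul, eval_C, hδ]
  simp

theorem exists_UU_top [Finite P] (hinj : Function.Injective pt) :
    ∃ e, ∀ e', e ≤ e' → UU pt e' = ⊤ := by
  classical
  have := Fintype.ofFinite P
  choose g hg using ev_surjective hinj
  refine ⟨Finset.univ.sup (fun p : P => (g (Pi.single p 1)).totalDegree + 1), fun e' he' => ?_⟩
  rw [eq_top_iff]
  intro f _
  have h1 : f = ∑ p, f p • ev pt (g (Pi.single p 1)) := by
    simp only [hg]
    funext q
    rw [Finset.sum_apply, Finset.sum_eq_single q]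
    · rw [Pi.smul_apply, Pi.single_eq_same, smul_eq_mul, mul_one]
    · intro p _ hpq
      rw [Pi.smul_apply, Pi.single_eq_of_ne hpq.symm, smul_zero]
    · intro h
      exact absurd (Finset.mem_univ q) h
  rw [h1]
  refine Submodule.sum_mem _ fun p _ => Submodule.smul_mem _ _ ?_
  conv => rw [← sum_homogeneousComponent (g (Pi.single p 1)), map_sum]
  refine Submodule.sum_mem _ fun k hk => ?_
  rw [Finset.mem_range] at hk
  have h2 : (g (Pi.single p 1)).totalDegree + 1 ≤
      Finset.univ.sup (fun p : P => (g (Pi.single p 1)).totalDegree + 1) :=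
    Finset.le_sup (f := fun p : P => (g (Pi.single p 1)).totalDegree + 1) (Finset.mem_univ p)
  exact UU_mono (by omega) (ev_mem_UU (homogeneousComponent_isHomogeneous k _))

theorem card_le [Fintype P] (hinj : Function.Injective pt)
    {s : Set (MvPolynomial V ℚ)} (hs : GenOK pt s)
    [∀ n, Module.Finite ℚ (gr (Ideal.span s) n)] :
    ∃ e, ∀ e', e ≤ e' → Fintype.card P ≤
      ∑ n ∈ Finset.range e', Module.finrank ℚ (gr (Ideal.span s) n) := by
  obtain ⟨e, he⟩ := exists_UU_top hinj
  refine ⟨e, fun e' he' => ?_⟩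
  have h1 := finrank_UU_le hs e'
  rw [he e' he', finrank_top, Module.finrank_fintype_fun_eq_card] at h1
  exact h1

end Lower

/-- The graded pieces are independent. -/
theorem sum_finrank_le (hI : IsHom I) [Module.Finite ℚ (MvPolynomial V ℚ ⧸ I)] (N : ℕ) :
    ∑ n ∈ Finset.range N, Module.finrank ℚ (gr I n) ≤
      Module.finrank ℚ (MvPolynomial V ℚ ⧸ I) := by
  have hfin : ∀ n, Module.Finite ℚ (gr I n) := fun n => inferInstance
  let Φ : (∀ n : Fin N, gr I n) →ₗ[ℚ] (MvPolynomial V ℚ ⧸ I) :=
    ∑ n : Fin N, (gr I n).subtype ∘ₗ LinearMap.proj n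
  have hΦ : ∀ g, Φ g = ∑ n : Fin N, (g n : MvPolynomial V ℚ ⧸ I) := by
    intro g
    rw [LinearMap.sum_apply]
    rfl
  have hinj : Function.Injective Φ := by
    rw [← LinearMap.ker_eq_bot, LinearMap.ker_eq_bot']
    intro g hg
    funext m
    have h1 := congrArg (pr hI m) hg
    rw [hΦ, map_sum, map_zero, Finset.sum_eq_single m] at h1
    · rw [pr_self hI (g m).2] at h1
      exact Subtype.ext h1
    · intro n _ hnm
      rw [pr_of_mem hI (g n).2, if_neg]
      intro h
      exact hnm (Fin.ext h.symm)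
    · intro h
      exact absurd (Finset.mem_univ m) h
  have h2 := LinearMap.finrank_le_finrank_of_injective hinj
  rw [Module.finrank_pi_fintype] at h2
  rwa [Finset.sum_range]

end Pool.Agent.R139.GrQuot
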