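import Mathlib

/-!
# The Jacobian matrix of the pair `(C_n, C_m)` of odd cycles
-/

set_option autoImplicit false

namespace Pool.Agent.R139.JacCycle

open Finset

/-- cyclic successor -/
def sc (n i : ℕ) : ℕ := if i + 1 = n then 0 else i + 1

theorem sc_lt {n i : ℕ} (h : i < n) : sc n i < n := by
  unfold sc
  split_ifs <;> omega

theorem sc_last (n : ℕ) : sc (n + 1) n = 0 := by simp [sc]

theorem sc_of_lt {n i : ℕ} (h : i < n) : sc (n + 1) i = i + 1 := by
  unfold sc
  rw [if_neg (by omega)]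

section Ring

variable {R : Type*} [CommRing R]

/-- The derivative, in the direction `Y`, of the minor of `X` belonging to the cell `(i, k)`. -/
def Eq4 (n m : ℕ) (X Y : ℕ → ℕ → R) (i k : ℕ) : R :=
  Y i k * X (sc n i) (sc m k) + X i k * Y (sc n i) (sc m k) - Y i (sc m k) * X (sc n i) k -
    X i (sc m k) * Y (sc n i) k

/-- The kernel is trivial. -/
def TK (n m : ℕ) (X : ℕ → ℕ → R) : Prop :=
  ∀ Y : ℕ → ℕ → R, (∀ i < n, ∀ k < m, Eq4 n m X Y i k = 0) → ∀ i < n, ∀ k < m, Y i k = 0

theorem TK.transpose {n m : ℕ} {X : ℕ → ℕ → R} (h : TK n m X) : TK m n (fun i k => X k i) := by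
  intro Y hY i hi k hk
  refine h (fun i k => Y k i) ?_ k hk i hi
  intro i hi k hk
  have := hY k hk i hi
  unfold Eq4 at this ⊢
  linear_combination this

/-- successor on `Fin n` -/
def sf {n : ℕ} (i : Fin n) : Fin n := ⟨sc n i, sc_lt i.2⟩

/-- The Jacobian matrix. -/
def JM (n m : ℕ) (X : ℕ → ℕ → R) : Matrix (Fin n × Fin m) (Fin n × Fin m) R :=
  Matrix.of fun p q =>
    (if q = p then X (sc n p.1) (sc m p.2) else 0) +
    (if q = (sf p.1, sf p.2) then X p.1 p.2 else 0) -
    (if q = (p.1, sf p.2) then X (sc n p.1) p.2 else 0) -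
    (if q = (sf p.1, p.2) then X p.1 (sc m p.2) else 0)

/-- extension by zero -/
def ext {n m : ℕ} (y : Fin n × Fin m → R) : ℕ → ℕ → R := fun i k =>
  if h : i < n ∧ k < m then y (⟨i, h.1⟩, ⟨k, h.2⟩) else 0

theorem ext_apply {n m : ℕ} (y : Fin n × Fin m → R) (i : Fin n) (k : Fin m) :
    ext y i k = y (i, k) := by
  unfold ext
  rw [dif_pos ⟨i.2, k.2⟩]

theorem mulVec_JM {n m : ℕ} (X : ℕ → ℕ → R) (y : Fin n × Fin m → R) (p : Fin n × Fin m) :
    (JM n m X).mulVec y p = Eq4 n m X (ext y) p.1 p.2 := by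
  have e1 : ext y p.1 p.2 = y p := ext_apply y p.1 p.2
  have e2 : ext y (sc n p.1) (sc m p.2) = y (sf p.1, sf p.2) := ext_apply y (sf p.1) (sf p.2)
  have e3 : ext y p.1 (sc m p.2) = y (p.1, sf p.2) := ext_apply y p.1 (sf p.2)
  have e4 : ext y (sc n p.1) p.2 = y (sf p.1, p.2) := ext_apply y (sf p.1) p.2
  unfold Eq4
  rw [e1, e2, e3, e4]
  simp only [Matrix.mulVec, dotProduct, JM, Matrix.of_apply, add_mul, sub_mul, ite_mul, zero_mul,
    Finset.sum_add_distrib, Finset.sum_sub_distrib, Finset.sum_ite_eq', Finset.mem_univ, if_true]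
  ring

theorem map_JM {n m : ℕ} {S : Type*} [CommRing S] (f : R →+* S) (X : ℕ → ℕ → R) :
    f (JM n m X).det = (JM n m (fun i k => f (X i k))).det := by
  rw [RingHom.map_det]
  congr 1
  ext p q
  simp only [RingHom.mapMatrix_apply, Matrix.map_apply, JM, Matrix.of_apply, map_sub, map_add]
  congr 1
  · congr 1
    · congr 1
      · split_ifs <;> simp
      · split_ifs <;> simp
    · split_ifs <;> simp
  · split_ifs <;> simp

end Ring

section Field

variable {K : Type*} [Field K]

theorem tk_iff {n m : ℕ} {X : ℕ → ℕ → K} : TK n m X ↔ (JM n m X).det ≠ 0 := by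
  rw [Ne, ← Matrix.exists_mulVec_eq_zero_iff]
  constructor
  · rintro h ⟨v, hv, h0⟩
    apply hv
    funext p
    have := h (ext v) (fun i hi k hk => by
      have h1 := congrFun h0 (⟨i, hi⟩, ⟨k, hk⟩)
      rwa [mulVec_JM] at h1) p.1 p.1.2 p.2 p.2.2
    rwa [ext_apply] at this
  · intro h Y hY i hi k hk
    by_contra hne
    apply h
    refine ⟨fun p => Y p.1 p.2, ?_, ?_⟩
    · intro h0
      exact hne (congrFun h0 (⟨i, hi⟩, ⟨k, hk⟩))
    · funext p
      rw [mulVec_JM, Pi.zero_apply, ← hY p.1 p.1.2 p.2 p.2.2]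
      unfold Eq4 ext
      rw [dif_pos ⟨p.1.2, p.2.2⟩, dif_pos ⟨sc_lt p.1.2, sc_lt p.2.2⟩, dif_pos ⟨p.1.2, sc_lt p.2.2⟩,
        dif_pos ⟨sc_lt p.1.2, p.2.2⟩]

theorem sum_sc {m : ℕ} (f : ℕ → K) : ∑ k ∈ range m, f (sc m k) = ∑ k ∈ range m, f k := by
  rcases m with _ | M
  · simp
  · rw [Finset.sum_range_succ, sc_last, Finset.sum_range_succ' f]
    congr 1
    exact Finset.sum_congr rfl fun k hk => by rw [sc_of_lt (Finset.mem_range.1 hk)]

/-- The functional which vanishes on the image of `u ↦ a_k u_{k+1} - a_{k+1} u_k`. -/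
def phi (m : ℕ) (a r : ℕ → K) : K := ∑ k ∈ range m, r k / (a k * a (sc m k))

theorem phi_br {m : ℕ} {a : ℕ → K} (ha : ∀ k < m, a k ≠ 0) {r z : ℕ → K}
    (h : ∀ k < m, r k = a k * z (sc m k) - a (sc m k) * z k) : phi m a r = 0 := by
  unfold phi
  have h1 : ∀ k ∈ range m, r k / (a k * a (sc m k)) = z (sc m k) / a (sc m k) - z k / a k := by
    intro k hk
    have hk := Finset.mem_range.1 hk
    rw [h k hk]
    have h1 := ha k hk
    have h2 := ha _ (sc_lt hk)
    field_simp
  rw [Finset.sum_congr rfl h1, Finset.sum_sub_distrib, sum_sc (fun k => z k / a k), sub_self]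

theorem ker_br {m : ℕ} {a u : ℕ → K} (ha : ∀ k < m, a k ≠ 0)
    (h : ∀ k < m, a k * u (sc m k) = a (sc m k) * u k) : ∃ c, ∀ k < m, u k = c * a k := by
  refine ⟨u 0 / a 0, ?_⟩
  intro k
  induction k with
  | zero =>
    intro hk
    rw [div_mul_cancel₀ _ (ha 0 hk)]
  | succ k ih =>
    intro hk
    have hk' : k < m := by omega
    have h1 := h k hk'
    have h2 : sc m k = k + 1 := by unfold sc; rw [if_neg (by omega)]
    rw [h2, ih hk'] at h1
    have h3 := ha k hk'
    have h4 : a k * (u (k + 1) - u 0 / a 0 * a (k + 1)) = 0 := by linear_combination h1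
    rcases mul_eq_zero.1 h4 with h5 | h5
    · exact absurd h5 h3
    · exact sub_eq_zero.1 h5

/-- The first order analysis of the insertion of two rows. -/
theorem first_order {N m : ℕ} {X : ℕ → ℕ → K} (hX : TK (N + 1) m X)
    (ha : ∀ k < m, X N k ≠ 0) (hb : ∀ k < m, X 0 k ≠ 0) {δ η : ℕ → K}
    (hδ : phi m (X N) (fun k => δ k * X 0 (sc m k) - δ (sc m k) * X 0 k) ≠ 0)
    (hη : phi m (X 0) (fun k => X N k * η (sc m k) - X N (sc m k) * η k) ≠ 0)
    {X0 X1 Y0 Y1 : ℕ → ℕ → K} (hX0 : ∀ i < N + 1, X0 i = X i) (hX0p : X0 (N + 1) = X 0)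
    (hX0q : X0 (N + 2) = X N) (hX1 : ∀ i < N + 1, X1 i = 0) (hX1p : X1 (N + 1) = δ)
    (hX1q : X1 (N + 2) = η)
    (E0 : ∀ i < N + 3, ∀ k < m, Eq4 (N + 3) m X0 Y0 i k = 0)
    (E1 : ∀ i < N + 3, ∀ k < m, Eq4 (N + 3) m X0 Y1 i k + Eq4 (N + 3) m X1 Y0 i k = 0) :
    ∀ i < N + 3, ∀ k < m, Y0 i k = 0 := by
  have s1 : sc (N + 3) N = N + 1 := by unfold sc; rw [if_neg (by omega)]
  have s2 : sc (N + 3) (N + 1) = N + 2 := by unfold sc; rw [if_neg (by omega)]
  have s3 : sc (N + 3) (N + 2) = 0 := by unfold sc; rw [if_pos (by omega)]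
  have x0 : X0 0 = X 0 := hX0 0 (by omega)
  have xN : X0 N = X N := hX0 N (by omega)
  have z0 : X1 0 = 0 := hX1 0 (by omega)
  have zN : X1 N = 0 := hX1 N (by omega)
  have A0 := fun k hk => E0 N (by omega) k hk
  have B0 := fun k hk => E0 (N + 1) (by omega) k hk
  have C0 := fun k hk => E0 (N + 2) (by omega) k hk
  have A1 := fun k hk => E1 N (by omega) k hk
  have B1 := fun k hk => E1 (N + 1) (by omega) k hk
  have C1 := fun k hk => E1 (N + 2) (by omega) k hk
  simp only [Eq4, s1, s2, s3, x0, xN, z0, zN, hX0p, hX0q, hX1p, hX1q, Pi.zero_apply, mul_zero,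
    zero_mul, add_zero, sub_zero, zero_add, zero_sub] at A0 B0 C0 A1 B1 C1
  -- the old rows vanish
  have hold : ∀ i < N + 1, ∀ k < m, Y0 i k = 0 := by
    apply hX
    intro i hi k hk
    by_cases hiN : i = N
    · subst hiN
      unfold Eq4
      rw [sc_last]
      linear_combination A0 k hk + B0 k hk + C0 k hk
    · have h1 := E0 i (by omega) k hk
      unfold Eq4 at h1 ⊢
      have e1 : sc (N + 3) i = i + 1 := by unfold sc; rw [if_neg (by omega)]
      have e2 : sc (N + 1) i = i + 1 := sc_of_lt (by omega)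
      rw [e1, hX0 i hi, hX0 (i + 1) (by omega)] at h1
      rw [e2]
      exact h1
  have y0 : ∀ k < m, Y0 0 k = 0 := hold 0 (by omega)
  have yN : ∀ k < m, Y0 N k = 0 := hold N (by omega)
  -- `u = c' a`, `v = c b`
  obtain ⟨c', hc'⟩ := ker_br (u := Y0 (N + 1)) ha (fun k hk => by
    have := A0 k hk
    rw [yN k hk, yN _ (sc_lt hk)] at this
    linear_combination this)
  obtain ⟨c, hc⟩ := ker_br (u := Y0 (N + 2)) hb (fun k hk => by
    have := C0 k hk
    rw [y0 k hk, y0 _ (sc_lt hk)] at this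
    linear_combination -this)
  -- `c = 0`
  have hc0 : c = 0 := by
    have h1 : phi m (X N) (fun k => c * (δ k * X 0 (sc m k) - δ (sc m k) * X 0 k)) = 0 := by
      apply phi_br ha (z := fun k => Y1 (N + 1) k - c' * η k - Y1 0 k)
      intro k hk
      have h2 := B1 k hk
      have h3 := C1 k hk
      rw [y0 k hk, y0 _ (sc_lt hk)] at h3
      rw [hc' k hk, hc' _ (sc_lt hk), hc k hk, hc _ (sc_lt hk)] at h2
      linear_combination h2 + h3
    have h4 : phi m (X N) (fun k => c * (δ k * X 0 (sc m k) - δ (sc m k) * X 0 k)) =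
        c * phi m (X N) (fun k => δ k * X 0 (sc m k) - δ (sc m k) * X 0 k) := by
      unfold phi
      rw [Finset.mul_sum]
      exact Finset.sum_congr rfl fun k _ => by ring
    rw [h4] at h1
    exact (mul_eq_zero.1 h1).resolve_right hδ
  have hc'0 : c' = 0 := by
    have h1 : phi m (X 0) (fun k => c' * (X N k * η (sc m k) - X N (sc m k) * η k)) = 0 := by
      apply phi_br hb (z := fun k => Y1 N k - Y1 (N + 2) k + c * δ k)
      intro k hk
      have h2 := B1 k hk
      have h3 := A1 k hk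
      rw [yN k hk, yN _ (sc_lt hk)] at h3
      rw [hc' k hk, hc' _ (sc_lt hk), hc k hk, hc _ (sc_lt hk)] at h2
      linear_combination h2 + h3
    have h4 : phi m (X 0) (fun k => c' * (X N k * η (sc m k) - X N (sc m k) * η k)) =
        c' * phi m (X 0) (fun k => X N k * η (sc m k) - X N (sc m k) * η k) := by
      unfold phi
      rw [Finset.mul_sum]
      exact Finset.sum_congr rfl fun k _ => by ring
    rw [h4] at h1
    exact (mul_eq_zero.1 h1).resolve_right hη
  intro i hi k hk
  by_cases h1 : i < N + 1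
  · exact hold i h1 k hk
  · have h2 : i = N + 1 ∨ i = N + 2 := by omega
    rcases h2 with rfl | rfl
    · rw [hc' k hk, hc'0, zero_mul]
    · rw [hc k hk, hc0, zero_mul]

open Polynomial in
theorem exists_eval_ne [Infinite K] {p : K[X]} (hp : p ≠ 0) : ∃ t, p.eval t ≠ 0 := by
  by_contra h
  push Not at h
  exact hp (Polynomial.funext fun t => by rw [h t, Polynomial.eval_zero])

section Poly

open Polynomial

/-- the line through `X` in the direction `Z` -/
noncomputable def line (X Z : ℕ → ℕ → K) : ℕ → ℕ → K[X] := fun i k =>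
  C (X i k) + Polynomial.X * C (Z i k)

theorem eval_line (X Z : ℕ → ℕ → K) (t : K) (n m : ℕ) :
    (JM n m (line X Z)).det.eval t = (JM n m (fun i k => X i k + t * Z i k)).det := by
  rw [← Polynomial.coe_evalRingHom, map_JM]
  congr 2
  funext i k
  simp [line]
  ring

theorem coeff_zero_mul_line (W : K[X]) (x z : K) :
    (W * (C x + Polynomial.X * C z)).coeff 0 = W.coeff 0 * x := by
  simp [mul_add]

theorem coeff_one_mul_line (W : K[X]) (x z : K) :
    (W * (C x + Polynomial.X * C z)).coeff 1 = W.coeff 1 * x + W.coeff 0 * z := by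
  rw [mul_add, Polynomial.coeff_add, Polynomial.coeff_mul_C,
    show W * (Polynomial.X * C z) = Polynomial.X * (W * C z) by ring, Polynomial.coeff_X_mul,
    Polynomial.coeff_mul_C]

theorem exists_reduced {ι : Type*} [Fintype ι] [DecidableEq ι] (M : Matrix ι ι K[X])
    (h : M.det = 0) : ∃ w : ι → K[X], M.mulVec w = 0 ∧ ∃ p, (w p).coeff 0 ≠ 0 := by
  classical
  obtain ⟨v, hv, h0⟩ := Matrix.exists_mulVec_eq_zero_iff.2 h
  have hne : (Finset.univ.filter fun p => v p ≠ 0).Nonempty := by
    by_contra hno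
    rw [Finset.not_nonempty_iff_eq_empty, Finset.filter_eq_empty_iff] at hno
    apply hv
    funext p
    have := hno (Finset.mem_univ p)
    rwa [not_not] at this
  obtain ⟨p, hp, hmin⟩ := Finset.exists_min_image _ (fun p => (v p).natTrailingDegree) hne
  rw [Finset.mem_filter] at hp
  set d := (v p).natTrailingDegree with hd
  have hdvd : ∀ q, Polynomial.X ^ d ∣ v q := by
    intro q
    by_cases hq : v q = 0
    · rw [hq]; exact dvd_zero _
    · rw [Polynomial.X_pow_dvd_iff]
      intro e he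
      apply Polynomial.coeff_eq_zero_of_lt_natTrailingDegree
      exact he.trans_le (hmin q (by simp [hq]))
  choose w hw using hdvd
  refine ⟨w, ?_, p, ?_⟩
  · have h1 : v = (Polynomial.X ^ d : K[X]) • w := by
      funext q
      rw [Pi.smul_apply, smul_eq_mul, ← hw]
    rw [h1, Matrix.mulVec_smul] at h0
    rcases smul_eq_zero.1 h0 with h2 | h2
    · exact absurd h2 (pow_ne_zero _ Polynomial.X_ne_zero)
    · exact h2
  · have h1 : (v p).coeff d ≠ 0 := by
      rw [hd]
      exact Polynomial.trailingCoeff_nonzero_iff_nonzero.2 hp.2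
    rw [hw p] at h1
    have h2 := Polynomial.coeff_X_pow_mul (w p) d 0
    rw [zero_add] at h2
    rwa [h2] at h1

/-- Matrices over which the kernel is trivial may be taken with some further generic
properties. -/
theorem generic [Infinite K] {N m : ℕ} (hN : 1 ≤ N) {X : ℕ → ℕ → K}
    (hX : TK (N + 1) m X) : ∃ X : ℕ → ℕ → K, TK (N + 1) m X ∧ (∀ k < m, X N k ≠ 0) ∧
      (∀ k < m, X 0 k ≠ 0) ∧ X 0 2 * X N 0 - X 0 0 * X N 2 ≠ 0 := by
  classical
  obtain ⟨c, hc⟩ := Infinite.exists_notMem_finset ({0, 1} : Finset K)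
  simp only [Finset.mem_insert, Finset.mem_singleton, not_or] at hc
  set Z : ℕ → ℕ → K := fun i k => if i = 0 ∧ k = 2 then c else 1 with hZ
  have hZne : ∀ i k, Z i k ≠ 0 := by
    intro i k
    rw [hZ]
    simp only
    split_ifs
    · exact hc.1
    · exact one_ne_zero
  have hfac : ∀ i k, line X Z i k ≠ 0 := by
    intro i k h
    have h1 := congrArg (fun p => Polynomial.coeff p 1) h
    simp [line, Polynomial.coeff_C] at h1
    exact hZne i k h1
  have h1 : (JM (N + 1) m (line X Z)).det ≠ 0 := by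
    intro h
    have h2 := eval_line X Z 0 (N + 1) m
    rw [h, Polynomial.eval_zero] at h2
    simp only [zero_mul, add_zero] at h2
    exact tk_iff.1 hX h2.symm
  have h2 : (∏ k ∈ range m, line X Z N k) ≠ 0 := Finset.prod_ne_zero_iff.2 fun k _ => hfac N k
  have h3 : (∏ k ∈ range m, line X Z 0 k) ≠ 0 := Finset.prod_ne_zero_iff.2 fun k _ => hfac 0 k
  have h4 : line X Z 0 2 * line X Z N 0 - line X Z 0 0 * line X Z N 2 ≠ 0 := by
    intro h
    have h7 : Z 0 2 = c := by simp [hZ]
    have h8 : Z N 0 = 1 := by simp [hZ]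
    have h9 : Z 0 0 = 1 := by simp [hZ]
    have h10 : Z N 2 = 1 := by
      simp only [hZ]
      rw [if_neg (by omega)]
    have h6 : ∃ A B D : K, D = c - 1 ∧ line X Z 0 2 * line X Z N 0 - line X Z 0 0 * line X Z N 2 =
        C A + C B * Polynomial.X + C D * Polynomial.X ^ 2 := by
      refine ⟨X 0 2 * X N 0 - X 0 0 * X N 2, X 0 2 + c * X N 0 - X 0 0 - X N 2, c - 1, rfl, ?_⟩
      simp only [line, h7, h8, h9, h10, map_sub, map_add, map_mul, map_one]
      ring
    obtain ⟨A, B, D, hD, h6⟩ := h6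
    rw [h6] at h
    have h5 := congrArg (fun p => Polynomial.coeff p 2) h
    simp [Polynomial.coeff_C, Polynomial.coeff_X] at h5
    rw [h5] at hD
    exact hc.2 (sub_eq_zero.1 hD.symm)
  obtain ⟨t, ht⟩ := exists_eval_ne (mul_ne_zero (mul_ne_zero (mul_ne_zero h1 h2) h3) h4)
  rw [Polynomial.eval_mul, Polynomial.eval_mul, Polynomial.eval_mul] at ht
  have hev : ∀ i k, (line X Z i k).eval t = X i k + t * Z i k := by
    intro i k
    simp [line]
    ring
  refine ⟨fun i k => X i k + t * Z i k, ?_, ?_, ?_, ?_⟩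
  · rw [tk_iff, ← eval_line]
    exact left_ne_zero_of_mul (left_ne_zero_of_mul (left_ne_zero_of_mul ht))
  · intro k hk
    have h5 := right_ne_zero_of_mul (left_ne_zero_of_mul (left_ne_zero_of_mul ht))
    rw [Polynomial.eval_prod, Finset.prod_ne_zero_iff] at h5
    have := h5 k (Finset.mem_range.2 hk)
    rwa [hev] at this
  · intro k hk
    have h5 := right_ne_zero_of_mul (left_ne_zero_of_mul ht)
    rw [Polynomial.eval_prod, Finset.prod_ne_zero_iff] at h5
    have := h5 k (Finset.mem_range.2 hk)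
    rwa [hev] at this
  · have h5 := right_ne_zero_of_mul ht
    rw [Polynomial.eval_sub, Polynomial.eval_mul, Polynomial.eval_mul, hev, hev, hev, hev] at h5
    exact h5

theorem phi_delta {m : ℕ} (hm : 3 ≤ m) (a b : ℕ → K) (ha : ∀ k < m, a k ≠ 0) :
    phi m a (fun k => (if k = 1 then 1 else 0) * b (sc m k) -
      (if sc m k = 1 then 1 else 0) * b k) = (b 2 * a 0 - b 0 * a 2) / (a 0 * a 1 * a 2) := by
  have s0 : sc m 0 = 1 := by unfold sc; rw [if_neg (by omega)]
  have s1 : sc m 1 = 2 := by unfold sc; rw [if_neg (by omega)]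
  have key : ∀ k, sc m k = 1 ↔ k = 0 := by
    intro k
    unfold sc
    split_ifs with h
    · exact ⟨fun h' => h'.elim, fun h' => by omega⟩
    · constructor <;> intro h' <;> omega
  unfold phi
  have h1 : ∀ k ∈ range m, ((if k = 1 then (1 : K) else 0) * b (sc m k) -
      (if sc m k = 1 then 1 else 0) * b k) / (a k * a (sc m k)) =
      (if k = 1 then b 2 / (a 1 * a 2) else 0) - (if k = 0 then b 0 / (a 0 * a 1) else 0) := by
    intro k _
    by_cases h1 : k = 1
    · subst h1
      rw [if_pos rfl, if_neg (by rw [s1]; omega), if_pos rfl, if_neg (by omega), s1]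
      ring
    · by_cases h0 : k = 0
      · subst h0
        rw [if_neg (by omega), if_pos s0, if_neg (by omega), if_pos rfl, s0]
        ring
      · rw [if_neg h1, if_neg (fun h => h0 ((key k).1 h)), if_neg h1, if_neg h0]
        ring
  rw [Finset.sum_congr rfl h1, Finset.sum_sub_distrib, Finset.sum_ite_eq', Finset.sum_ite_eq',
    if_pos (Finset.mem_range.2 (by omega)), if_pos (Finset.mem_range.2 (by omega))]
  have h2 := ha 0 (by omega)
  have h3 := ha 1 (by omega)
  have h4 := ha 2 (by omega)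
  field_simp

theorem step [Infinite K] {N m : ℕ} (hN : 1 ≤ N) (hm : 3 ≤ m)
    (h : ∃ X : ℕ → ℕ → K, TK (N + 1) m X) : ∃ X : ℕ → ℕ → K, TK (N + 3) m X := by
  obtain ⟨X, hX⟩ := h
  obtain ⟨X, hX, ha, hb, hq⟩ := generic hN hX
  set δ : ℕ → K := fun k => if k = 1 then 1 else 0 with hδ
  set X0 : ℕ → ℕ → K := fun i => if i = N + 1 then X 0 else if i = N + 2 then X N else X i with hX0
  set X1 : ℕ → ℕ → K := fun i => if i = N + 1 then δ else if i = N + 2 then δ else 0 with hX1
  have h3 := ha 0 (by omega)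
  have h4 := ha 1 (by omega)
  have h5 := ha 2 (by omega)
  have h6 := hb 0 (by omega)
  have h7 := hb 1 (by omega)
  have h8 := hb 2 (by omega)
  have p1 : phi m (X N) (fun k => δ k * X 0 (sc m k) - δ (sc m k) * X 0 k) ≠ 0 := by
    rw [hδ, phi_delta hm (X N) (X 0) ha]
    exact div_ne_zero (by rwa [sub_ne_zero] at hq ⊢) (mul_ne_zero (mul_ne_zero h3 h4) h5)
  have p2 : phi m (X 0) (fun k => X N k * δ (sc m k) - X N (sc m k) * δ k) ≠ 0 := by
    have e1 : phi m (X 0) (fun k => X N k * δ (sc m k) - X N (sc m k) * δ k) =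
        - phi m (X 0) (fun k => δ k * X N (sc m k) - δ (sc m k) * X N k) := by
      unfold phi
      rw [← Finset.sum_neg_distrib]
      exact Finset.sum_congr rfl fun k _ => by ring
    rw [e1, neg_ne_zero, hδ, phi_delta hm (X 0) (X N) hb]
    refine div_ne_zero ?_ (mul_ne_zero (mul_ne_zero h6 h7) h8)
    intro h9
    apply hq
    linear_combination -h9
  have hdet : (JM (N + 3) m (line X0 X1)).det ≠ 0 := by
    intro h0
    obtain ⟨w, hw, p, hp⟩ := exists_reduced _ h0
    apply hp
    have hE : ∀ i < N + 3, ∀ k < m, Eq4 (N + 3) m (line X0 X1) (ext w) i k = 0 := by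
      intro i hi k hk
      have h1 := congrFun hw (⟨i, hi⟩, ⟨k, hk⟩)
      rwa [mulVec_JM] at h1
    have := first_order (X := X) hX ha hb p1 p2 (X0 := X0) (X1 := X1)
      (Y0 := fun i k => (ext w i k).coeff 0) (Y1 := fun i k => (ext w i k).coeff 1)
      (fun i hi => by
        simp only [hX0]
        rw [if_neg (by omega), if_neg (by omega)])
      (by simp [hX0]) (by simp [hX0])
      (fun i hi => by
        simp only [hX1]
        rw [if_neg (by omega), if_neg (by omega)])
      (by simp [hX1]) (by simp [hX1])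
      (fun i hi k hk => by
        have h1 := congrArg (fun q => Polynomial.coeff q 0) (hE i hi k hk)
        simp only [Eq4, line, Polynomial.coeff_sub, Polynomial.coeff_add,
          mul_comm (C _ + Polynomial.X * C _) (ext w _ _), coeff_zero_mul_line,
          Polynomial.coeff_zero] at h1
        unfold Eq4
        linear_combination h1)
      (fun i hi k hk => by
        have h1 := congrArg (fun q => Polynomial.coeff q 1) (hE i hi k hk)
        simp only [Eq4, line, Polynomial.coeff_sub, Polynomial.coeff_add,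
          mul_comm (C _ + Polynomial.X * C _) (ext w _ _), coeff_one_mul_line,
          Polynomial.coeff_zero] at h1
        unfold Eq4
        linear_combination h1)
      p.1 p.1.2 p.2 p.2.2
    simpa only [ext_apply] using this
  obtain ⟨t, ht⟩ := exists_eval_ne hdet
  rw [eval_line] at ht
  exact ⟨_, tk_iff.2 ht⟩

end Poly

/-- The base case: the identity matrix. -/
theorem base (h2 : (2 : K) ≠ 0) : TK 3 3 (fun i k : ℕ => if i = k then (1 : K) else 0) := by
  intro Y hY
  have a00 := hY 0 (by norm_num) 0 (by norm_num)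
  have a01 := hY 0 (by norm_num) 1 (by norm_num)
  have a02 := hY 0 (by norm_num) 2 (by norm_num)
  have a10 := hY 1 (by norm_num) 0 (by norm_num)
  have a11 := hY 1 (by norm_num) 1 (by norm_num)
  have a12 := hY 1 (by norm_num) 2 (by norm_num)
  have a20 := hY 2 (by norm_num) 0 (by norm_num)
  have a21 := hY 2 (by norm_num) 1 (by norm_num)
  have a22 := hY 2 (by norm_num) 2 (by norm_num)
  simp [Eq4, sc] at a00 a01 a02 a10 a11 a12 a20 a21 a22
  have d0 : Y 0 0 = 0 := by
    have : 2 * Y 0 0 = 0 := by linear_combination a00 + a22 - a11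
    exact (mul_eq_zero.1 this).resolve_left h2
  have d1 : Y 1 1 = 0 := by linear_combination a00 - d0
  have d2 : Y 2 2 = 0 := by linear_combination a11 - d1
  intro i hi k hk
  have hi' : i = 0 ∨ i = 1 ∨ i = 2 := by omega
  have hk' : k = 0 ∨ k = 1 ∨ k = 2 := by omega
  rcases hi' with rfl | rfl | rfl <;> rcases hk' with rfl | rfl | rfl <;> assumption

theorem exists_TK [Infinite K] (h2 : (2 : K) ≠ 0) (j l : ℕ) :
    ∃ X : ℕ → ℕ → K, TK (3 + 2 * j) (3 + 2 * l) X := by
  have h1 : ∀ l : ℕ, ∃ X : ℕ → ℕ → K, TK (3 + 2 * l) 3 X := by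
    intro l
    induction l with
    | zero => exact ⟨_, base h2⟩
    | succ l ih =>
      have := step (K := K) (N := 2 + 2 * l) (m := 3) (by omega) (by omega)
        (by rwa [show 2 + 2 * l + 1 = 3 + 2 * l by omega])
      rwa [show 2 + 2 * l + 3 = 3 + 2 * (l + 1) by omega] at this
  induction j with
  | zero =>
    obtain ⟨X, hX⟩ := h1 l
    exact ⟨_, hX.transpose⟩
  | succ j ih =>
    have := step (K := K) (N := 2 + 2 * j) (m := 3 + 2 * l) (by omega) (by omega)
      (by rwa [show 2 + 2 * j + 1 = 3 + 2 * j by omega])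
    rwa [show 2 + 2 * j + 3 = 3 + 2 * (j + 1) by omega] at this

end Field

end Pool.Agent.R139.JacCycle
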