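import Mathlib

/-!
# Lattice paths
-/

set_option autoImplicit false

namespace Pool.Agent.R139.Lpm

/-- The height of a path after `k` steps: the number of North steps (`true`) among its first `k`
steps. -/
def height {n : ℕ} (w : Fin n → Bool) (k : ℕ) : ℕ :=
  (Finset.univ.filter fun i : Fin n => (i : ℕ) < k ∧ w i = true).card

/-- The word `w` of length `n` in the letters North (`true`) and East (`false`) is a lattice path
from `(0, 0)` to `(m, r)`. -/
def IsPath (m r : ℕ) {n : ℕ} (w : Fin n → Bool) : Prop :=
  (Finset.univ.filter fun i => w i = true).card = r ∧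
    (Finset.univ.filter fun i => w i = false).card = m

/-- The path `v` never goes above the path `w`. -/
def NeverAbove {n : ℕ} (v w : Fin n → Bool) : Prop := ∀ k, height v k ≤ height w k

/-- `M` is a lattice path matroid. -/
def IsLatticePathMatroid {α : Type*} (M : Matroid α) : Prop :=
  ∃ (m r n : ℕ) (P Q : Fin n → Bool), IsPath m r P ∧ IsPath m r Q ∧ NeverAbove P Q ∧
    ∃ e : Fin n ≃ M.E, ∀ B : Set α, M.IsBase B ↔
      ∃ R : Fin n → Bool, IsPath m r R ∧ NeverAbove P R ∧ NeverAbove R Q ∧
        B = {x | ∃ i, R i = true ∧ (e i : α) = x}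

theorem height_zero {n : ℕ} (w : Fin n → Bool) : height w 0 = 0 := by
  simp [height]

theorem height_succ {n : ℕ} (w : Fin n → Bool) (k : ℕ) :
    height w (k + 1) = height w k + if h : k < n then (if w ⟨k, h⟩ = true then 1 else 0) else 0 := by
  classical
  split_ifs with h1 h2
  · have h3 : (Finset.univ.filter fun i : Fin n => (i : ℕ) < k + 1 ∧ w i = true) =
        insert ⟨k, h1⟩ (Finset.univ.filter fun i : Fin n => (i : ℕ) < k ∧ w i = true) := by
      ext i
      simp only [Finset.mem_filter, Finset.mem_univ, true_and, Finset.mem_insert]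
      constructor
      · rintro ⟨h4, h5⟩
        by_cases h6 : (i : ℕ) = k
        · exact Or.inl (Fin.ext h6)
        · exact Or.inr ⟨by omega, h5⟩
      · rintro (rfl | ⟨h4, h5⟩)
        · exact ⟨Nat.lt_succ_self _, h2⟩
        · exact ⟨by omega, h5⟩
    rw [height, h3, Finset.card_insert_of_notMem (by simp), height]
  · have h3 : (Finset.univ.filter fun i : Fin n => (i : ℕ) < k + 1 ∧ w i = true) =
        (Finset.univ.filter fun i : Fin n => (i : ℕ) < k ∧ w i = true) := by
      ext i
      simp only [Finset.mem_filter, Finset.mem_univ, true_and]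
      constructor
      · rintro ⟨h4, h5⟩
        refine ⟨?_, h5⟩
        by_contra hcon
        have h6 : i = ⟨k, h1⟩ := Fin.ext (by change (i : ℕ) = k; omega)
        rw [h6] at h5
        exact h2 h5
      · rintro ⟨h4, h5⟩
        exact ⟨by omega, h5⟩
    rw [height, h3, height, add_zero]
  · have h3 : (Finset.univ.filter fun i : Fin n => (i : ℕ) < k + 1 ∧ w i = true) =
        (Finset.univ.filter fun i : Fin n => (i : ℕ) < k ∧ w i = true) := by
      ext i
      simp only [Finset.mem_filter, Finset.mem_univ, true_and]
      have := i.2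
      constructor
      · rintro ⟨h4, h5⟩
        exact ⟨by omega, h5⟩
      · rintro ⟨h4, h5⟩
        exact ⟨by omega, h5⟩
    rw [height, h3, height, add_zero]

/-- the word with given heights -/
def word (n : ℕ) (f : ℕ → ℕ) : Fin n → Bool := fun i => decide (f (i + 1) = f i + 1)

theorem height_word {n : ℕ} {f : ℕ → ℕ} (h0 : f 0 = 0)
    (hs : ∀ k, f (k + 1) = f k ∨ (k < n ∧ f (k + 1) = f k + 1)) (k : ℕ) :
    height (word n f) k = f k := by
  induction k with
  | zero => rw [height_zero, h0]
  | succ k ih =>
    rw [height_succ, ih]
    rcases hs k with h | ⟨h, h'⟩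
    · rw [h]
      split_ifs with h1 h2
      · rw [word, decide_eq_true_iff] at h2
        change f (k + 1) = f k + 1 at h2
        omega
      · rfl
      · rfl
    · rw [dif_pos h, if_pos, h']
      rw [word, decide_eq_true_iff]
      exact h'

theorem card_true {n : ℕ} (w : Fin n → Bool) :
    (Finset.univ.filter fun i => w i = true).card = height w n := by
  rw [height]
  congr 1
  ext i
  simp only [Finset.mem_filter, Finset.mem_univ, true_and]
  exact ⟨fun h => ⟨i.2, h⟩, fun h => h.2⟩

theorem card_false {n : ℕ} (w : Fin n → Bool) :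
    (Finset.univ.filter fun i => w i = false).card + height w n = n := by
  rw [← card_true]
  have h := Finset.card_filter_add_card_filter_not (s := (Finset.univ : Finset (Fin n)))
    (fun i => w i = true)
  rw [Finset.card_univ, Fintype.card_fin] at h
  have h2 : (Finset.univ.filter fun i : Fin n => w i = false) =
      (Finset.univ.filter fun i : Fin n => ¬ w i = true) := by
    congr 1
    ext i
    simp
  rw [h2]
  omega

theorem isPath_iff {n m r : ℕ} (hn : m + r = n) (w : Fin n → Bool) :
    IsPath m r w ↔ height w n = r := by
  rw [IsPath, card_true]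
  have := card_false w
  constructor
  · exact fun h => h.1
  · exact fun h => ⟨h, by omega⟩

theorem isPath_add {n m r : ℕ} {w : Fin n → Bool} (h : IsPath m r w) : m + r = n := by
  have := card_false w
  rw [h.2] at this
  have h1 := h.1
  rw [card_true] at h1
  omega

end Pool.Agent.R139.Lpm
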