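import Mathlib

/-!
# Lattice path matroids and monadic logic: structural lemmas
-/

set_option autoImplicit false

namespace Pool.Agent.R139.Lpm

open Set

variable {α : Type*} (M : Matroid α)

/-- separators -/
def Sep (K : Set α) : Prop := ∀ C, M.IsCircuit C → C ⊆ K ∨ Disjoint C K

/-- minimal nonempty separators -/
def Atom (K : Set α) : Prop :=
  Sep M K ∧ K.Nonempty ∧ ∀ K', K' ⊆ K → Sep M K' → K'.Nonempty → K ⊆ K'

/-- the definable family of sets attached to `Q` in the component `K` -/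
def DD (K Q A : Set α) : Prop :=
  A ⊆ K ∧ M.IsBasis (Q ∩ A) A ∧ (∀ z ∈ K, z ∉ A → M.Indep (insert z (Q ∩ A))) ∧
    ∃ C, M.IsCircuit C ∧ Q ∩ A ⊆ C ∧ C ⊆ A

/-- the property expressed by the sentence -/
def Phi : Prop :=
  ∀ K, Atom M K → ∃ Q P : Set α,
    (∀ A A', DD M K Q A → DD M K Q A' → A ⊆ A' ∨ A' ⊆ A) ∧
    (∀ A A', DD M K P A → DD M K P A' → A ⊆ A' ∨ A' ⊆ A) ∧
    (∀ A G, DD M K Q A → DD M K P G → Disjoint A G ∨ K ⊆ A ∪ G) ∧
    ∀ B, M.IsBase B → ∀ x, x ∈ B → x ∈ K → ∀ y, y ∉ B → y ∈ K →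
      ¬ M.IsBase (insert y (B \ {x})) →
      ∃ A, (DD M K Q A ∨ DD M K P A) ∧ y ∈ A ∧ x ∉ A ∧ M.IsBasis (B ∩ A) A

variable {M}

theorem Sep.compl {K : Set α} (h : Sep M K) : Sep M Kᶜ := by
  intro C hC
  rcases h C hC with h | h
  · right
    rw [Set.disjoint_compl_right_iff_subset]
    exact h
  · left
    exact Set.subset_compl_iff_disjoint_right.2 h

theorem Sep.inter {K L : Set α} (hK : Sep M K) (hL : Sep M L) : Sep M (K ∩ L) := by
  intro C hC
  rcases hK C hC with h | h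
  · rcases hL C hC with h' | h'
    · exact Or.inl (Set.subset_inter h h')
    · exact Or.inr (h'.mono_right Set.inter_subset_right)
  · exact Or.inr (h.mono_right Set.inter_subset_left)

theorem Sep.mem {K C : Set α} (h : Sep M K) (hC : M.IsCircuit C) {z : α} (hz : z ∈ C)
    (hzK : z ∈ K) : C ⊆ K := by
  rcases h C hC with h | h
  · exact h
  · exact absurd hzK (Set.disjoint_left.1 h hz)

/-- A base meets a separator in a basis. -/
theorem Sep.isBasis {K B : Set α} (h : Sep M K) (hE : M.E = univ) (hB : M.IsBase B) :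
    M.IsBasis (B ∩ K) K := by
  rw [(hB.indep.subset Set.inter_subset_left).isBasis_iff_forall_insert_dep
    Set.inter_subset_right]
  rintro z ⟨hzK, hz⟩
  have hzB : z ∉ B := fun h' => hz ⟨h', hzK⟩
  have hC := hB.fundCircuit_isCircuit (by rw [hE]; trivial) hzB
  have h1 := h.mem hC (M.mem_fundCircuit z B) hzK
  have h2 := M.fundCircuit_subset_insert z B
  refine hC.dep.superset ?_ (by rw [hE]; exact Set.subset_univ _)
  intro w hw
  rcases h2 hw with h3 | h3
  · exact Or.inl h3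
  · exact Or.inr ⟨h3, h1 hw⟩

/-- Bases can be mixed along separators. -/
theorem Sep.mix {K B Q : Set α} (h : Sep M K) (hE : M.E = univ) (hB : M.IsBase B)
    (hQ : M.IsBase Q) : M.IsBase ((B ∩ K) ∪ (Q ∩ Kᶜ)) := by
  have h1 := h.isBasis hE hB
  have h2 := h.compl.isBasis hE hQ
  have hind : M.Indep ((B ∩ K) ∪ (Q ∩ Kᶜ)) := by
    rw [Matroid.indep_iff_forall_subset_not_isCircuit (by rw [hE]; exact Set.subset_univ _)]
    intro C hCs hC
    rcases h C hC with h3 | h3
    · refine hC.not_indep (hB.indep.subset ?_)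
      intro w hw
      rcases hCs hw with h4 | h4
      · exact h4.1
      · exact absurd (h3 hw) h4.2
    · refine hC.not_indep (hQ.indep.subset ?_)
      intro w hw
      rcases hCs hw with h4 | h4
      · exact absurd h4.2 (Set.disjoint_left.1 h3 hw)
      · exact h4.1
  have h3 := h1.union_isBasis_union h2 hind
  rw [Set.union_compl_self, ← hE, Matroid.isBasis_ground_iff] at h3
  exact h3

section Half

variable [Finite α] (hE : M.E = univ) {K Q : Set α} (hK : Sep M K) (hQ : M.IsBase Q)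
  {p : α → ℕ} (hp : Function.Injective p)
  (hU : ∀ B, M.IsBase B → ∀ k, (B ∩ {z | p z < k}).ncard ≤ (Q ∩ {z | p z < k}).ncard)
  (hF : ∀ y, y ∈ K → y ∉ Q → ∀ q, q ∈ K → q ∈ Q → p q < p y →
    M.IsBase (insert y (Q \ {q})))

include hE hK hQ hp hU hF

theorem mem_fund {y q : α} (hy : y ∈ K) (hyQ : y ∉ Q) (hqQ : q ∈ Q) :
    q ∈ M.fundCircuit y Q ↔ q ∈ K ∧ p q < p y := by
  have hcl : y ∈ M.closure Q := by
    rw [hQ.closure_eq, hE]
    trivial
  have hC := hQ.fundCircuit_isCircuit (by rw [hE]; trivial) hyQ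
  have hqy : q ≠ y := by
    rintro rfl
    exact hyQ hqQ
  constructor
  · intro h
    refine ⟨hK.mem hC (M.mem_fundCircuit y Q) hy h, ?_⟩
    rw [hQ.indep.mem_fundCircuit_iff hcl hyQ,
      ← Set.insert_sdiff_singleton_comm hqy.symm] at h
    have hb : M.IsBase (insert y (Q \ {q})) := by
      exact hQ.exchange_isBase_of_indep hyQ h
    by_contra hcon
    have hlt : p y < p q := lt_of_le_of_ne (not_lt.1 hcon) fun h' => hqy (hp h').symm
    have h1 := hU _ hb (p y + 1)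
    have h2 : insert y (Q \ {q}) ∩ {z | p z < p y + 1} =
        insert y (Q ∩ {z | p z < p y + 1}) := by
      ext w
      simp only [Set.mem_inter_iff, Set.mem_insert_iff, Set.mem_sdiff, Set.mem_singleton_iff,
        Set.mem_ofPred_eq]
      constructor
      · rintro ⟨h3 | h3, h4⟩
        · exact Or.inl h3
        · exact Or.inr ⟨h3.1, h4⟩
      · rintro (h3 | h3)
        · exact ⟨Or.inl h3, by rw [h3]; omega⟩
        · refine ⟨Or.inr ⟨h3.1, ?_⟩, h3.2⟩
          rintro rfl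
          have := h3.2
          omega
    rw [h2, Set.ncard_insert_of_notMem (fun h3 => hyQ h3.1) (Set.toFinite _)] at h1
    omega
  · rintro ⟨hqK, hlt⟩
    rw [hQ.indep.mem_fundCircuit_iff hcl hyQ, ← Set.insert_sdiff_singleton_comm hqy.symm]
    exact (hF y hy hyQ q hqK hqQ hlt).indep

/-- independence of `insert z I` for `I ⊆ Q` -/
theorem indep_insert {z : α} {I : Set α} (hI : I ⊆ Q) (hz : z ∈ K) (hzQ : z ∉ Q) :
    M.Indep (insert z I) ↔ ∃ q, q ∈ K ∧ q ∈ Q ∧ p q < p z ∧ q ∉ I := by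
  have hC := hQ.fundCircuit_isCircuit (x := z) (by rw [hE]; trivial) hzQ
  constructor
  · intro h
    by_contra hcon
    push Not at hcon
    refine hC.not_indep (h.subset ?_)
    intro w hw
    rcases M.fundCircuit_subset_insert z Q hw with h1 | h1
    · exact Or.inl h1
    · have h2 := (mem_fund hE hK hQ hp hU hF hz hzQ h1).1 hw
      exact Or.inr (hcon w h2.1 h1 h2.2)
  · rintro ⟨q, hqK, hqQ, hqz, hqI⟩
    rw [Matroid.indep_iff_forall_subset_not_isCircuit (by rw [hE]; exact Set.subset_univ _)]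
    intro C' hC's hC'
    have h1 : C' = M.fundCircuit z Q :=
      hC'.eq_fundCircuit_of_subset hQ.indep (hC's.trans (Set.insert_subset_insert hI))
    have h2 : q ∈ C' := by
      rw [h1]
      exact (mem_fund hE hK hQ hp hU hF hz hzQ hqQ).2 ⟨hqK, hqz⟩
    rcases hC's h2 with h3 | h3
    · rw [h3] at hqQ
      exact hzQ hqQ
    · exact hqI h3

/-- The members of the family are lower sets of `K`. -/
theorem DD_lower {A : Set α} (hA : DD M K Q A) {z w : α} (hz : z ∈ A) (hw : w ∈ K)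
    (hwz : p w < p z) : w ∈ A := by
  obtain ⟨hAK, hbas, hflat, C, hC, hIC, hCA⟩ := hA
  have hIQ : Q ∩ A ⊆ Q := Set.inter_subset_left
  -- the element `y`
  have hy : ∃ y ∈ C, y ∉ Q := by
    by_contra hcon
    push Not at hcon
    exact hC.not_indep (hQ.indep.subset hcon)
  obtain ⟨y, hyC, hyQ⟩ := hy
  have hyA := hCA hyC
  have hyI : y ∉ Q ∩ A := fun h => hyQ h.1
  have hdep : ∀ v, v ∈ A → v ∉ Q → ∀ q, q ∈ K → q ∈ Q → p q < p v → q ∈ A := by
    intro v hv hvQ q hqK hqQ hqv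
    by_contra hqA
    have h1 := (indep_insert hE hK hQ hp hU hF hIQ (hAK hv) hvQ).2
      ⟨q, hqK, hqQ, hqv, fun h => hqA h.2⟩
    have h2 := (hbas.indep.isBasis_iff_forall_insert_dep Set.inter_subset_right).1 hbas v
      ⟨hv, fun h => hvQ h.1⟩
    exact h2.not_indep h1
  have hQA : ∀ q, q ∈ Q → q ∈ A → p q < p y := by
    intro q hqQ hqA
    have h1 : insert y (Q ∩ A) ⊆ C := Set.insert_subset hyC hIC
    have h2 : ¬ M.Indep (insert y (Q ∩ A)) :=
      ((hbas.indep.isBasis_iff_forall_insert_dep Set.inter_subset_right).1 hbas y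
        ⟨hyA, hyI⟩).not_indep
    have h3 := hC.eq_of_not_indep_subset h2 h1
    have h4 : C = M.fundCircuit y Q := by
      apply hC.eq_fundCircuit_of_subset hQ.indep
      rw [← h3]
      exact Set.insert_subset_insert hIQ
    have h5 : q ∈ M.fundCircuit y Q := by
      rw [← h4]
      exact hIC ⟨hqQ, hqA⟩
    exact ((mem_fund hE hK hQ hp hU hF (hAK hyA) hyQ hqQ).1 h5).2
  -- no missing element of `Q` below `z`
  have key : ∀ q, q ∈ K → q ∈ Q → p q < p z → q ∈ A := by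
    intro q hqK hqQ hqz
    by_cases hzQ : z ∈ Q
    · exact hdep y hyA hyQ q hqK hqQ (hqz.trans (hQA z hzQ hz))
    · exact hdep z hz hzQ q hqK hqQ hqz
  by_contra hwA
  by_cases hwQ : w ∈ Q
  · exact hwA (key w hw hwQ hwz)
  · obtain ⟨q, hqK, hqQ, hqw, hqI⟩ :=
      (indep_insert hE hK hQ hp hU hF hIQ hw hwQ).1 (hflat w hw hwA)
    exact hqI ⟨hqQ, key q hqK hqQ (hqw.trans hwz)⟩

omit hp hF in
theorem le_K {B : Set α} (hB : M.IsBase B) (k : ℕ) :
    (B ∩ K ∩ {z | p z < k}).ncard ≤ (Q ∩ K ∩ {z | p z < k}).ncard := by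
  have h1 := hU _ (hK.mix hE hB hQ) k
  have h2 : ((B ∩ K) ∪ (Q ∩ Kᶜ)) ∩ {z | p z < k} =
      (B ∩ K ∩ {z | p z < k}) ∪ (Q ∩ Kᶜ ∩ {z | p z < k}) := Set.union_inter_distrib_right _ _ _
  have h3 : Q ∩ {z | p z < k} = (Q ∩ K ∩ {z | p z < k}) ∪ (Q ∩ Kᶜ ∩ {z | p z < k}) := by
    rw [← Set.union_inter_distrib_right, ← Set.inter_union_distrib_left, Set.union_compl_self,
      Set.inter_univ]
  have hd1 : Disjoint (B ∩ K ∩ {z | p z < k}) (Q ∩ Kᶜ ∩ {z | p z < k}) := by
    rw [Set.disjoint_left]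
    intro w hw hw'
    exact hw'.1.2 hw.1.2
  have hd2 : Disjoint (Q ∩ K ∩ {z | p z < k}) (Q ∩ Kᶜ ∩ {z | p z < k}) := by
    rw [Set.disjoint_left]
    intro w hw hw'
    exact hw'.1.2 hw.1.2
  rw [h2, h3, Set.ncard_union_eq hd1, Set.ncard_union_eq hd2] at h1
  omega

/-- Tight sets give members of the family. -/
theorem exists_DD {B : Set α} (hB : M.IsBase B) {x y : α} (hxB : x ∈ B) (hxK : x ∈ K)
    (hyB : y ∉ B) (hyK : y ∈ K) {k : ℕ} (hyk : p y < k) (hkx : k ≤ p x)
    (ht : (B ∩ {z | p z < k}).ncard = (Q ∩ {z | p z < k}).ncard) :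
    ∃ A, DD M K Q A ∧ y ∈ A ∧ x ∉ A ∧ M.IsBasis (B ∩ A) A := by
  classical
  -- tightness on `K`
  have hsplit : ∀ (S : Set α) (j : ℕ), (S ∩ {z | p z < j}).ncard =
      (S ∩ K ∩ {z | p z < j}).ncard + (S ∩ Kᶜ ∩ {z | p z < j}).ncard := by
    intro S j
    rw [← Set.ncard_union_eq]
    · congr 1
      rw [← Set.union_inter_distrib_right, ← Set.inter_union_distrib_left,
        Set.union_compl_self, Set.inter_univ]
    · rw [Set.disjoint_left]
      intro w hw hw'
      exact hw'.1.2 hw.1.2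
  have htK : (B ∩ K ∩ {z | p z < k}).ncard = (Q ∩ K ∩ {z | p z < k}).ncard := by
    have h1 := le_K hE hK hQ hU hB k
    have h2 := le_K hE hK.compl hQ hU hB k
    rw [hsplit B k, hsplit Q k] at ht
    omega
  -- the minimal tight level
  have hex : ∃ j, p y < j ∧ (B ∩ K ∩ {z | p z < j}).ncard = (Q ∩ K ∩ {z | p z < j}).ncard :=
    ⟨k, hyk, htK⟩
  let j := Nat.find hex
  have hj := Nat.find_spec hex
  have hjk : j ≤ k := Nat.find_min' hex ⟨hyk, htK⟩
  obtain ⟨hyj, htj⟩ := hj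
  change p y < j at hyj
  change (B ∩ K ∩ {z | p z < j}).ncard = (Q ∩ K ∩ {z | p z < j}).ncard at htj
  have hmin : ∀ j', j' < j → p y < j' →
      (B ∩ K ∩ {z | p z < j'}).ncard ≠ (Q ∩ K ∩ {z | p z < j'}).ncard :=
    fun j' h1 h2 h3 => Nat.find_min hex h1 ⟨h2, h3⟩
  -- the top element
  have hw : ∃ w ∈ K, p w = j - 1 := by
    by_contra hcon
    push Not at hcon
    have h1 : ∀ S : Set α, S ∩ K ∩ {z | p z < j - 1} = S ∩ K ∩ {z | p z < j} := by
      intro S
      ext v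
      constructor
      · rintro ⟨h2, h3⟩
        rw [Set.mem_ofPred_eq] at h3
        exact ⟨h2, by rw [Set.mem_ofPred_eq]; omega⟩
      · rintro ⟨h2, h3⟩
        rw [Set.mem_ofPred_eq] at h3
        have h4 := hcon v h2.2
        exact ⟨h2, by rw [Set.mem_ofPred_eq]; omega⟩
    have h5 := hcon y hyK
    refine hmin (j - 1) (by omega) (by omega) ?_
    rw [h1, h1, htj]
  obtain ⟨w, hwK, hwj⟩ := hw
  have hinsert : ∀ S : Set α, w ∈ S → S ∩ K ∩ {z | p z < j} =
      insert w (S ∩ K ∩ {z | p z < j - 1}) := by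
    intro S hwS
    ext v
    constructor
    · rintro ⟨h2, h3⟩
      rw [Set.mem_ofPred_eq] at h3
      by_cases hvw : v = w
      · exact Or.inl hvw
      · right
        refine ⟨h2, ?_⟩
        have : p v ≠ p w := fun h => hvw (hp h)
        rw [Set.mem_ofPred_eq]
        omega
    · rintro (rfl | ⟨h2, h3⟩)
      · exact ⟨⟨hwS, hwK⟩, by rw [Set.mem_ofPred_eq]; omega⟩
      · rw [Set.mem_ofPred_eq] at h3
        exact ⟨h2, by rw [Set.mem_ofPred_eq]; omega⟩
  have hnot : ∀ S : Set α, w ∉ S → S ∩ K ∩ {z | p z < j} = S ∩ K ∩ {z | p z < j - 1} := by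
    intro S hwS
    ext v
    constructor
    · rintro ⟨h2, h3⟩
      rw [Set.mem_ofPred_eq] at h3
      refine ⟨h2, ?_⟩
      have : p v ≠ p w := fun h => hwS (hp h ▸ h2.1)
      rw [Set.mem_ofPred_eq]
      omega
    · rintro ⟨h2, h3⟩
      rw [Set.mem_ofPred_eq] at h3
      exact ⟨h2, by rw [Set.mem_ofPred_eq]; omega⟩
  have hwn : ∀ S : Set α, w ∉ S ∩ K ∩ {z | p z < j - 1} := by
    rintro S ⟨-, h⟩
    rw [Set.mem_ofPred_eq] at h
    omega
  have hwQ : w ∉ Q := by
    intro hwQ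
    have h1 := le_K hE hK hQ hU hB (j - 1)
    have h2 := hinsert Q hwQ
    rw [h2, Set.ncard_insert_of_notMem (hwn Q) (Set.toFinite _)] at htj
    by_cases hwB : w ∈ B
    · rw [hinsert B hwB, Set.ncard_insert_of_notMem (hwn B) (Set.toFinite _)] at htj
      have h3 : y ≠ w := by
        rintro rfl
        exact hyB hwB
      have h4 : p y ≠ p w := fun h => h3 (hp h)
      exact hmin (j - 1) (by omega) (by omega) (by omega)
    · rw [hnot B hwB] at htj
      omega
  let A : Set α := {z | z ∈ K ∧ ∀ q, q ∈ K → q ∈ Q → p w < p q → p z < p q}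
  have hAK : A ⊆ K := fun z hz => hz.1
  have hlowA : ∀ z, z ∈ K → p z < j → z ∈ A := by
    intro z hz hzj
    refine ⟨hz, fun q _ _ hwq => ?_⟩
    omega
  have hQA : Q ∩ A = Q ∩ K ∩ {z | p z < j} := by
    ext q
    constructor
    · rintro ⟨h1, h2, h3⟩
      refine ⟨⟨h1, h2⟩, ?_⟩
      by_contra hcon
      rw [Set.mem_ofPred_eq] at hcon
      have h4 := h3 q h2 h1 (by omega)
      exact lt_irrefl _ h4
    · rintro ⟨⟨h1, h2⟩, h3⟩
      exact ⟨h1, hlowA q h2 h3⟩
  have hBA : B ∩ A = B ∩ K ∩ {z | p z < j} := by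
    ext v
    constructor
    · rintro ⟨h1, h2, h3⟩
      refine ⟨⟨h1, h2⟩, ?_⟩
      by_contra hcon
      rw [Set.mem_ofPred_eq, not_lt] at hcon
      have h4 := le_K hE hK hQ hU hB (p v + 1)
      have h5 : Q ∩ K ∩ {z | p z < p v + 1} = Q ∩ K ∩ {z | p z < j} := by
        ext q
        constructor
        · rintro ⟨h6, h7⟩
          rw [Set.mem_ofPred_eq] at h7
          refine ⟨h6, ?_⟩
          rw [Set.mem_ofPred_eq]
          by_contra hcon'
          have h8 := h3 q h6.2 h6.1 (by omega)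
          omega
        · rintro ⟨h6, h7⟩
          rw [Set.mem_ofPred_eq] at h7
          exact ⟨h6, by rw [Set.mem_ofPred_eq]; omega⟩
      have h6 : insert v (B ∩ K ∩ {z | p z < j}) ⊆ B ∩ K ∩ {z | p z < p v + 1} := by
        rintro u (rfl | ⟨h7, h8⟩)
        · exact ⟨⟨h1, h2⟩, by rw [Set.mem_ofPred_eq]; omega⟩
        · rw [Set.mem_ofPred_eq] at h8
          exact ⟨h7, by rw [Set.mem_ofPred_eq]; omega⟩
      have h7 := Set.ncard_le_ncard h6 (Set.toFinite _)
      rw [Set.ncard_insert_of_notMem (by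
        rintro ⟨-, h8⟩
        rw [Set.mem_ofPred_eq] at h8
        omega) (Set.toFinite _)] at h7
      rw [h5] at h4
      omega
    · rintro ⟨⟨h1, h2⟩, h3⟩
      exact ⟨h1, hlowA v h2 h3⟩
  have hbasQ : M.IsBasis (Q ∩ A) A := by
    rw [(hQ.indep.subset Set.inter_subset_left).isBasis_iff_forall_insert_dep
      Set.inter_subset_right]
    rintro z ⟨hzA, hzI⟩
    have hzQ : z ∉ Q := fun h => hzI ⟨h, hzA⟩
    rw [← Matroid.not_indep_iff (by rw [hE]; exact Set.subset_univ _),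
      indep_insert hE hK hQ hp hU hF Set.inter_subset_left (hAK hzA) hzQ]
    rintro ⟨q, hqK, hqQ, hqz, hqI⟩
    apply hqI
    rw [hQA]
    refine ⟨⟨hqQ, hqK⟩, ?_⟩
    rw [Set.mem_ofPred_eq]
    by_contra hcon
    have h1 := hzA.2 q hqK hqQ (by omega)
    omega
  refine ⟨A, ⟨hAK, hbasQ, ?_, ?_⟩, hlowA y hyK hyj, ?_, ?_⟩
  · intro z hzK hzA
    by_cases hzQ : z ∈ Q
    · exact hQ.indep.subset (Set.insert_subset hzQ Set.inter_subset_left)
    · rw [indep_insert hE hK hQ hp hU hF Set.inter_subset_left hzK hzQ]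
      have h1 : ∃ q, q ∈ K ∧ q ∈ Q ∧ p w < p q ∧ p q ≤ p z := by
        by_contra hcon
        push Not at hcon
        exact hzA ⟨hzK, fun q h1 h2 h3 => hcon q h1 h2 h3⟩
      obtain ⟨q, hqK, hqQ, hwq, hqz⟩ := h1
      refine ⟨q, hqK, hqQ, lt_of_le_of_ne hqz ?_, ?_⟩
      · intro h
        exact hzQ (hp h ▸ hqQ)
      · rintro ⟨-, h2⟩
        exact lt_irrefl _ (h2.2 q hqK hqQ hwq)
  · have hC := hQ.fundCircuit_isCircuit (x := w) (by rw [hE]; trivial) hwQ
    refine ⟨_, hC, ?_, ?_⟩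
    · rintro q ⟨hqQ, hqA⟩
      rw [mem_fund hE hK hQ hp hU hF hwK hwQ hqQ]
      have h1 : q ∈ Q ∩ K ∩ {z | p z < j} := by
        rw [← hQA]
        exact ⟨hqQ, hqA⟩
      have h2 := h1.2
      rw [Set.mem_ofPred_eq] at h2
      have h3 : p q ≠ p w := fun h => hwQ (hp h ▸ hqQ)
      exact ⟨h1.1.2, by omega⟩
    · intro q hq
      rcases M.fundCircuit_subset_insert w Q hq with h1 | h1
      · rw [h1]
        exact hlowA w hwK (by omega)
      · have h2 := (mem_fund hE hK hQ hp hU hF hwK hwQ h1).1 hq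
        exact hlowA q h2.1 (by omega)
  · intro hxA
    have h1 : x ∈ B ∩ K ∩ {z | p z < j} := by
      rw [← hBA]
      exact ⟨hxB, hxA⟩
    have h2 := h1.2
    rw [Set.mem_ofPred_eq] at h2
    omega
  · rw [Matroid.isBasis_iff_indep_encard_eq_of_finite (Set.toFinite _)
      (by rw [hE]; exact Set.subset_univ _)]
    refine ⟨Set.inter_subset_right, hB.indep.subset Set.inter_subset_left, ?_⟩
    rw [← hbasQ.encard_eq_eRk, ← (Set.toFinite (B ∩ A)).cast_ncard_eq,
      ← (Set.toFinite (Q ∩ A)).cast_ncard_eq, hBA, hQA, htj]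

end Half

end Pool.Agent.R139.Lpm
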