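import Mathlib
import Pool.Agent.R139.LpmHalf
import Pool.Agent.R139.LpmDef

/-!
# A linear order with the separation property gives a lattice path presentation
-/

set_option autoImplicit false

namespace Pool.Agent.R139.Lpm

open Set

variable {α : Type*}

/-- finite rank -/
noncomputable def rk (M : Matroid α) (A : Set α) : ℕ := (M.eRk A).toNat

theorem cast_rk [Finite α] (M : Matroid α) (A : Set α) : (rk M A : ℕ∞) = M.eRk A := by
  apply ENat.natCast_toNat
  have h1 := M.eRk_le_encard A
  have h2 : A.encard ≠ ⊤ := by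
    rw [Set.encard_ne_top_iff]
    exact Set.toFinite A
  exact fun h => h2 (top_le_iff.1 (h ▸ h1))

theorem rk_basis {M : Matroid α} {I A : Set α} (h : M.IsBasis I A) : I.ncard = rk M A := by
  rw [rk, ← h.encard_eq_eRk, Set.ncard_def]

theorem ncard_le_rk [Finite α] {M : Matroid α} {I A : Set α} (h : M.Indep I) (hIA : I ⊆ A) :
    I.ncard ≤ rk M A := by
  have h1 := h.encard_le_eRk_of_subset hIA
  rw [← cast_rk, ← (Set.toFinite I).cast_ncard_eq] at h1
  exact_mod_cast h1

theorem rk_mono [Finite α] (M : Matroid α) {A B : Set α} (h : A ⊆ B) : rk M A ≤ rk M B := by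
  have h1 := M.eRk_mono h
  rw [← cast_rk, ← cast_rk] at h1
  exact_mod_cast h1

theorem rk_insert [Finite α] (M : Matroid α) (z : α) (A : Set α) :
    rk M (insert z A) ≤ rk M A + 1 := by
  have h1 := M.eRk_insert_le_add_one z A
  rw [← cast_rk, ← cast_rk] at h1
  exact_mod_cast h1

theorem rk_union [Finite α] (M : Matroid α) (A B : Set α) :
    rk M (A ∪ B) ≤ rk M A + rk M B := by
  have h1 := M.eRk_union_le_eRk_add_eRk A B
  rw [← cast_rk, ← cast_rk, ← cast_rk] at h1
  exact_mod_cast h1

theorem rk_empty [Finite α] (M : Matroid α) : rk M ∅ = 0 := by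
  have h1 := M.eRk_empty
  rw [← cast_rk] at h1
  exact_mod_cast h1

/-- initial segments -/
def seg {n : ℕ} (e : Fin n ≃ α) (k : ℕ) : Set α := {z | (e.symm z : ℕ) < k}

theorem mem_seg {n : ℕ} {e : Fin n ≃ α} {k : ℕ} {z : α} : z ∈ seg e k ↔ (e.symm z : ℕ) < k :=
  Iff.rfl

theorem seg_zero {n : ℕ} (e : Fin n ≃ α) : seg e 0 = ∅ := by
  ext z
  simp [mem_seg]

theorem seg_top {n : ℕ} (e : Fin n ≃ α) {k : ℕ} (hk : n ≤ k) : seg e k = univ := by
  ext z
  simp only [mem_seg, Set.mem_univ, iff_true]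
  exact lt_of_lt_of_le (e.symm z).2 hk

theorem seg_mono {n : ℕ} (e : Fin n ≃ α) {k l : ℕ} (h : k ≤ l) : seg e k ⊆ seg e l :=
  fun _ hz => lt_of_lt_of_le hz h

theorem seg_succ {n : ℕ} (e : Fin n ≃ α) {k : ℕ} (hk : k < n) :
    seg e (k + 1) = insert (e ⟨k, hk⟩) (seg e k) := by
  ext z
  rw [Set.mem_insert_iff, mem_seg, mem_seg]
  constructor
  · intro h
    by_cases h1 : (e.symm z : ℕ) = k
    · left
      rw [← e.apply_symm_apply z]
      congr 1
      exact Fin.ext h1
    · right
      omega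
  · rintro (rfl | h)
    · rw [e.symm_apply_apply]
      exact Nat.lt_succ_self k
    · omega

theorem compl_seg {n : ℕ} (e : Fin n ≃ α) {k : ℕ} (hk : k < n) :
    (seg e k)ᶜ = insert (e ⟨k, hk⟩) (seg e (k + 1))ᶜ := by
  rw [seg_succ e hk]
  ext z
  simp only [Set.mem_compl_iff, Set.mem_insert_iff, not_or]
  constructor
  · intro h
    by_cases h1 : z = e ⟨k, hk⟩
    · exact Or.inl h1
    · exact Or.inr ⟨h1, h⟩
  · rintro (rfl | h)
    · rw [mem_seg, e.symm_apply_apply]
      exact lt_irrefl k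
    · exact h.2

/-- the separation property of an order -/
def SepProp (M : Matroid α) {n : ℕ} (e : Fin n ≃ α) : Prop :=
  ∀ B, M.IsBase B → ∀ x, x ∈ B → ∀ y, y ∉ B → ¬ M.IsBase (insert y (B \ {x})) → ∃ k : ℕ,
    (y ∈ seg e k ∧ x ∉ seg e k ∧ M.IsBasis (B ∩ seg e k) (seg e k)) ∨
    (x ∈ seg e k ∧ y ∉ seg e k ∧ M.IsBasis (B ∩ (seg e k)ᶜ) (seg e k)ᶜ)

section

variable [Finite α] {M : Matroid α} (hE : M.E = univ) {n : ℕ} {e : Fin n ≃ α}
  (hX : SepProp M e)

include hE hX

theorem step_base {B' B : Set α} (hcard : B'.ncard = rk M univ)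
    (hup : ∀ k, (B' ∩ seg e k).ncard ≤ rk M (seg e k))
    (hlo : ∀ k, (B' ∩ (seg e k)ᶜ).ncard ≤ rk M (seg e k)ᶜ)
    (hB : M.IsBase B) {y : α} (hy : y ∈ B') (hyB : y ∉ B) :
    ∃ x, x ∈ B ∧ x ∉ B' ∧ M.IsBase (insert y (B \ {x})) := by
  classical
  by_contra hcon
  push Not at hcon
  have hBcard : B.ncard = rk M univ := by
    have h1 := hB.isBasis_ground
    rw [hE] at h1
    exact rk_basis h1
  -- the upper level
  have hexU : ∃ k, y ∈ seg e k ∧ M.IsBasis (B ∩ seg e k) (seg e k) := by
    refine ⟨n, ?_, ?_⟩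
    · rw [seg_top e le_rfl]
      trivial
    · rw [seg_top e le_rfl, Set.inter_univ, ← hE]
      exact hB.isBasis_ground
  obtain ⟨hyu, hbu⟩ := Nat.find_spec hexU
  have hmin : ∀ k, y ∈ seg e k ∧ M.IsBasis (B ∩ seg e k) (seg e k) → Nat.find hexU ≤ k :=
    fun k hk => Nat.find_min' hexU hk
  generalize Nat.find hexU = u at hyu hbu hmin
  -- the lower level
  have hexL : ∃ k, k ≤ n ∧ (y ∉ seg e k ∧ M.IsBasis (B ∩ (seg e k)ᶜ) (seg e k)ᶜ) := by
    refine ⟨0, Nat.zero_le _, ?_, ?_⟩
    · rw [seg_zero]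
      exact Set.notMem_empty y
    · rw [seg_zero, Set.compl_empty, Set.inter_univ, ← hE]
      exact hB.isBasis_ground
  have hyn : ∀ k, y ∉ seg e k → k ≤ n := by
    intro k hk
    by_contra h
    rw [seg_top e (not_le.1 h).le] at hk
    exact hk trivial
  let l := Nat.findGreatest (fun k => y ∉ seg e k ∧ M.IsBasis (B ∩ (seg e k)ᶜ) (seg e k)ᶜ) n
  have hl : y ∉ seg e l ∧ M.IsBasis (B ∩ (seg e l)ᶜ) (seg e l)ᶜ := by
    obtain ⟨k, hk, hk'⟩ := hexL
    exact Nat.findGreatest_spec (P := fun k => y ∉ seg e k ∧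
      M.IsBasis (B ∩ (seg e k)ᶜ) (seg e k)ᶜ) hk hk'
  have hmax : ∀ k, (y ∉ seg e k ∧ M.IsBasis (B ∩ (seg e k)ᶜ) (seg e k)ᶜ) → k ≤ l :=
    fun k hk => Nat.le_findGreatest (hyn k hk.1) hk
  clear_value l
  obtain ⟨hyl, hbl⟩ := hl
  -- no element of `B \ B'` in the middle
  have hmid : ∀ x, x ∈ B → x ∉ B' → x ∈ seg e u → x ∈ seg e l := by
    intro x hxB hxB' hxu
    obtain ⟨k, h | h⟩ := hX B hB x hxB y hyB (hcon x hxB hxB')
    · have h1 := hmin k ⟨h.1, h.2.2⟩
      exact absurd (seg_mono e h1 hxu) h.2.1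
    · have h1 := hmax k ⟨h.2.1, h.2.2⟩
      exact seg_mono e h1 h.1
  -- counting
  have hcount : ∀ S : Set α, (S ∩ seg e u).ncard + (S ∩ (seg e l)ᶜ).ncard =
      S.ncard + (S ∩ (seg e u ∩ (seg e l)ᶜ)).ncard := by
    intro S
    have hlu : seg e l ⊆ seg e u := by
      apply seg_mono
      by_contra h
      exact hyl (seg_mono e (not_le.1 h).le hyu)
    have h1 := Set.ncard_union_add_ncard_inter (S ∩ seg e u) (S ∩ (seg e l)ᶜ)
      (Set.toFinite _) (Set.toFinite _)
    rw [← Set.inter_union_distrib_left, ← Set.inter_inter_distrib_left] at h1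
    have h2 : seg e u ∪ (seg e l)ᶜ = univ := by
      ext z
      simp only [Set.mem_union, Set.mem_compl_iff, Set.mem_univ, iff_true]
      by_cases h : z ∈ seg e l
      · exact Or.inl (hlu h)
      · exact Or.inr h
    rw [h2, Set.inter_univ] at h1
    exact h1.symm
  have h1 := hcount B
  have h2 := hcount B'
  have h3 := rk_basis hbu
  have h4 := rk_basis hbl
  have h5 := hup u
  have h6 := hlo l
  have h7 : insert y (B ∩ (seg e u ∩ (seg e l)ᶜ)) ⊆ B' ∩ (seg e u ∩ (seg e l)ᶜ) := by
    rintro z (rfl | ⟨hz1, hz2⟩)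
    · exact ⟨hy, hyu, hyl⟩
    · refine ⟨?_, hz2⟩
      by_contra hz3
      exact hz2.2 (hmid z hz1 hz3 hz2.1)
  have h8 := Set.ncard_le_ncard h7 (Set.toFinite _)
  rw [Set.ncard_insert_of_notMem (fun h => hyB h.1) (Set.toFinite _)] at h8
  omega

theorem isBase_of_bounds {B' : Set α} (hcard : B'.ncard = rk M univ)
    (hup : ∀ k, (B' ∩ seg e k).ncard ≤ rk M (seg e k))
    (hlo : ∀ k, (B' ∩ (seg e k)ᶜ).ncard ≤ rk M (seg e k)ᶜ) : M.IsBase B' := by
  obtain ⟨B0, hB0⟩ := M.exists_isBase
  have key : ∀ d, ∀ B, M.IsBase B → (B' \ B).ncard = d → M.IsBase B' := by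
    intro d
    induction d with
    | zero =>
      intro B hB hd
      rw [Set.ncard_eq_zero (Set.toFinite _), Set.sdiff_eq_empty] at hd
      have h1 := hB.isBasis_ground
      rw [hE] at h1
      have h2 := rk_basis h1
      have h3 : B' = B := Set.eq_of_subset_of_ncard_le hd (by omega) (Set.toFinite _)
      rw [h3]
      exact hB
    | succ d ih =>
      intro B hB hd
      have hne : (B' \ B).Nonempty := by
        rw [← Set.ncard_pos (Set.toFinite _)]
        omega
      obtain ⟨y, hy, hyB⟩ := hne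
      obtain ⟨x, hxB, hxB', hbase⟩ := step_base hE hX hcard hup hlo hB hy hyB
      apply ih _ hbase
      have h1 : B' \ B = insert y (B' \ (insert y (B \ {x}))) := by
        ext z
        simp only [Set.mem_sdiff, Set.mem_insert_iff, Set.mem_singleton_iff, not_or, not_and,
          not_not]
        constructor
        · rintro ⟨h1, h2⟩
          by_cases hzy : z = y
          · exact Or.inl hzy
          · exact Or.inr ⟨h1, hzy, fun h => absurd h h2⟩
        · rintro (rfl | ⟨h1, h2, h3⟩)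
          · exact ⟨hy, hyB⟩
          · refine ⟨h1, fun h => ?_⟩
            rw [h3 h] at h1
            exact hxB' h1
      rw [h1, Set.ncard_insert_of_notMem (by simp) (Set.toFinite _)] at hd
      omega
  exact key _ B0 hB0 rfl

theorem base_iff (B' : Set α) : M.IsBase B' ↔ B'.ncard = rk M univ ∧
    (∀ k, (B' ∩ seg e k).ncard ≤ rk M (seg e k)) ∧
    ∀ k, (B' ∩ (seg e k)ᶜ).ncard ≤ rk M (seg e k)ᶜ := by
  constructor
  · intro hB
    have h1 := hB.isBasis_ground
    rw [hE] at h1
    exact ⟨rk_basis h1,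
      fun k => ncard_le_rk (hB.indep.subset Set.inter_subset_left) Set.inter_subset_right,
      fun k => ncard_le_rk (hB.indep.subset Set.inter_subset_left) Set.inter_subset_right⟩
  · rintro ⟨h1, h2, h3⟩
    exact isBase_of_bounds hE hX h1 h2 h3

end

/-- the word of a set -/
noncomputable def wordOf {n : ℕ} (e : Fin n ≃ α) (B : Set α) : Fin n → Bool :=
  fun i => @decide (e i ∈ B) (Classical.propDecidable _)

theorem wordOf_true {n : ℕ} {e : Fin n ≃ α} {B : Set α} {i : Fin n} :
    wordOf e B i = true ↔ e i ∈ B := by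
  classical
  rw [wordOf]
  exact decide_eq_true_iff

theorem height_wordOf {n : ℕ} (e : Fin n ≃ α) (B : Set α) (k : ℕ) :
    height (wordOf e B) k = (B ∩ seg e k).ncard := by
  rw [height, ← Set.ncard_coe_finset]
  apply Set.ncard_congr (fun i _ => e i)
  · intro i hi
    rw [Finset.mem_coe, Finset.mem_filter, wordOf_true] at hi
    refine ⟨hi.2.2, ?_⟩
    rw [mem_seg, e.symm_apply_apply]
    exact hi.2.1
  · intro i j _ _ h
    exact e.injective h
  · intro z hz
    refine ⟨e.symm z, ?_, e.apply_symm_apply z⟩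
    rw [Finset.mem_coe, Finset.mem_filter, wordOf_true, e.apply_symm_apply]
    exact ⟨Finset.mem_univ _, hz.2, hz.1⟩

theorem ncard_compl [Finite α] {n : ℕ} (e : Fin n ≃ α) (B : Set α) (k : ℕ) :
    (B ∩ seg e k).ncard + (B ∩ (seg e k)ᶜ).ncard = B.ncard := by
  rw [← Set.ncard_union_eq]
  · rw [← Set.inter_union_distrib_left, Set.union_compl_self, Set.inter_univ]
  · rw [Set.disjoint_left]
    intro z hz hz'
    exact hz'.2 hz.2

/-- The separation property gives a lattice path presentation. -/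
theorem lpm_of_sepProp [Finite α] {M : Matroid α} (hE : M.E = univ) {n : ℕ} {e : Fin n ≃ α}
    (hX : SepProp M e) : IsLatticePathMatroid M := by
  classical
  set r := rk M univ with hr
  let f : ℕ → ℕ := fun k => rk M (seg e k)
  let g : ℕ → ℕ := fun k => r - rk M (seg e k)ᶜ
  have hgr : ∀ k, rk M (seg e k)ᶜ ≤ r := fun k => rk_mono M (Set.subset_univ _)
  have hf0 : f 0 = 0 := by
    change rk M (seg e 0) = 0
    rw [seg_zero, rk_empty]
  have hg0 : g 0 = 0 := by
    change r - rk M (seg e 0)ᶜ = 0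
    rw [seg_zero, Set.compl_empty, hr, Nat.sub_self]
  have hfs : ∀ k, f (k + 1) = f k ∨ (k < n ∧ f (k + 1) = f k + 1) := by
    intro k
    by_cases hk : k < n
    · have h1 : f k ≤ f (k + 1) := rk_mono M (seg_mono e (Nat.le_succ k))
      have h2 : f (k + 1) ≤ f k + 1 := by
        change rk M (seg e (k + 1)) ≤ _
        rw [seg_succ e hk]
        exact rk_insert M _ _
      omega
    · left
      change rk M _ = rk M _
      rw [seg_top e (not_lt.1 hk), seg_top e (by omega)]
  have hgs : ∀ k, g (k + 1) = g k ∨ (k < n ∧ g (k + 1) = g k + 1) := by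
    intro k
    by_cases hk : k < n
    · have h1 : rk M (seg e (k + 1))ᶜ ≤ rk M (seg e k)ᶜ :=
        rk_mono M (Set.compl_subset_compl.2 (seg_mono e (Nat.le_succ k)))
      have h2 : rk M (seg e k)ᶜ ≤ rk M (seg e (k + 1))ᶜ + 1 := by
        rw [compl_seg e hk]
        exact rk_insert M _ _
      have h3 := hgr k
      have h4 := hgr (k + 1)
      change r - rk M (seg e (k + 1))ᶜ = r - rk M (seg e k)ᶜ ∨
        (k < n ∧ r - rk M (seg e (k + 1))ᶜ = r - rk M (seg e k)ᶜ + 1)
      omega
    · left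
      change r - rk M _ = r - rk M _
      rw [seg_top e (not_lt.1 hk), seg_top e (by omega)]
  have hhf := height_word hf0 hfs
  have hhg := height_word hg0 hgs
  have hrn : r ≤ n := by
    obtain ⟨B, hB⟩ := M.exists_isBase
    have h1 := hB.isBasis_ground
    rw [hE] at h1
    have h2 := rk_basis h1
    have h3 : B.ncard ≤ (univ : Set α).ncard := Set.ncard_le_ncard (Set.subset_univ _) (Set.toFinite _)
    rw [Set.ncard_univ, ← Nat.card_congr e, Nat.card_fin] at h3
    omega
  have hmr : (n - r) + r = n := by omega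
  have hfn : f n = r := by
    change rk M (seg e n) = r
    rw [seg_top e le_rfl]
  have hgn : g n = r := by
    change r - rk M (seg e n)ᶜ = r
    rw [seg_top e le_rfl, Set.compl_univ, rk_empty, Nat.sub_zero]
  let e' : Fin n ≃ M.E := e.trans ((Equiv.Set.univ α).symm.trans (Equiv.setCongr hE.symm))
  have he' : ∀ i, (e' i : α) = e i := fun i => rfl
  refine ⟨n - r, r, n, word n g, word n f, ?_, ?_, ?_, e', ?_⟩
  · rw [isPath_iff hmr, hhg, hgn]
  · rw [isPath_iff hmr, hhf, hfn]
  · intro k
    rw [hhg, hhf]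
    have h1 := rk_union M (seg e k) (seg e k)ᶜ
    rw [Set.union_compl_self] at h1
    change r - rk M (seg e k)ᶜ ≤ rk M (seg e k)
    omega
  · intro B
    rw [base_iff hE hX]
    constructor
    · rintro ⟨h1, h2, h3⟩
      refine ⟨wordOf e B, ?_, ?_, ?_, ?_⟩
      · rw [isPath_iff hmr, height_wordOf, seg_top e le_rfl, Set.inter_univ]
        exact h1
      · intro k
        rw [hhg, height_wordOf]
        have h4 := ncard_compl e B k
        have h5 := h3 k
        change r - rk M (seg e k)ᶜ ≤ _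
        omega
      · intro k
        rw [hhf, height_wordOf]
        exact h2 k
      · ext z
        constructor
        · intro hz
          refine ⟨e.symm z, ?_, ?_⟩
          · rw [wordOf_true, e.apply_symm_apply]
            exact hz
          · rw [he', e.apply_symm_apply]
        · rintro ⟨i, hi, rfl⟩
          rw [wordOf_true] at hi
          exact hi
    · rintro ⟨R, h1, h2, h3, h4⟩
      have h5 : R = wordOf e B := by
        funext i
        rw [Bool.eq_iff_iff, wordOf_true, h4]
        constructor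
        · intro h
          exact ⟨i, h, he' i⟩
        · rintro ⟨j, hj, hji⟩
          rw [he'] at hji
          rw [← e.injective hji]
          exact hj
      rw [h5, isPath_iff hmr, height_wordOf, seg_top e le_rfl, Set.inter_univ] at h1
      refine ⟨h1, fun k => ?_, fun k => ?_⟩
      · have h6 := h3 k
        rw [h5, hhf, height_wordOf] at h6
        exact h6
      · have h6 := h2 k
        rw [h5, hhg, height_wordOf] at h6
        have h7 := ncard_compl e B k
        have h8 := hgr k
        change r - rk M (seg e k)ᶜ ≤ _ at h6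
        omega

end Pool.Agent.R139.Lpm
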