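import Mathlib
import Pool.Agent.R139.LpmCore

/-!
# Lattice path matroids have the definable property
-/

set_option autoImplicit false

namespace Pool.Agent.R139.Lpm

open Set

variable {α : Type*} {M : Matroid α}

theorem ncard_insert_inter [Finite α] {D S : Set α} {y : α} (hy : y ∉ D) [Decidable (y ∈ S)] :
    (insert y D ∩ S).ncard = (D ∩ S).ncard + if y ∈ S then 1 else 0 := by
  split_ifs with h
  · rw [Set.insert_inter_of_mem h, Set.ncard_insert_of_notMem (fun h' => hy h'.1) (Set.toFinite _)]
  · rw [Set.insert_inter_of_notMem h, add_zero]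

theorem ncard_exch [Finite α] {B S : Set α} {x y : α} (hx : x ∈ B) (hy : y ∉ B)
    [Decidable (x ∈ S)] [Decidable (y ∈ S)] :
    (insert y (B \ {x}) ∩ S).ncard + (if x ∈ S then 1 else 0) =
      (B ∩ S).ncard + if y ∈ S then 1 else 0 := by
  have h1 := ncard_insert_inter (D := B \ {x}) (S := S) (y := y) (fun h => hy h.1)
  have h2 := ncard_insert_inter (D := B \ {x}) (S := S) (y := x) (by simp)
  rw [Set.insert_sdiff_singleton, Set.insert_eq_of_mem hx] at h2
  omega

/-- The base criterion of a lattice path presentation. -/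
theorem presentation [Finite α] (hE : M.E = univ) (h : IsLatticePathMatroid M) :
    ∃ (n r : ℕ) (e : Fin n ≃ α) (f g : ℕ → ℕ) (Q P : Set α),
      (∀ k, (Q ∩ seg e k).ncard = f k) ∧ (∀ k, (P ∩ seg e k).ncard = g k) ∧
      Q.ncard = r ∧ P.ncard = r ∧ (∀ k, g k ≤ f k) ∧
      ∀ B, M.IsBase B ↔ B.ncard = r ∧ ∀ k, g k ≤ (B ∩ seg e k).ncard ∧
        (B ∩ seg e k).ncard ≤ f k := by
  classical
  obtain ⟨m, r, n, P, Q, hP, hQ, hPQ, e0, hbase⟩ := h
  let e : Fin n ≃ α := e0.trans ((Equiv.setCongr hE).trans (Equiv.Set.univ α))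
  have he : ∀ i, (e0 i : α) = e i := fun i => rfl
  have hmr := isPath_add hP
  have hword : ∀ R : Fin n → Bool, wordOf e {x | ∃ i, R i = true ∧ e i = x} = R := by
    intro R
    funext i
    rw [Bool.eq_iff_iff, wordOf_true]
    constructor
    · rintro ⟨j, hj, hji⟩
      rw [← e.injective hji]
      exact hj
    · intro h
      exact ⟨i, h, rfl⟩
  have hset : ∀ B : Set α, {x | ∃ i, wordOf e B i = true ∧ e i = x} = B := by
    intro B
    ext z
    constructor
    · rintro ⟨i, hi, rfl⟩
      exact wordOf_true.1 hi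
    · intro hz
      exact ⟨e.symm z, wordOf_true.2 (by rwa [e.apply_symm_apply]), e.apply_symm_apply z⟩
  have hpath : ∀ B : Set α, IsPath m r (wordOf e B) ↔ B.ncard = r := by
    intro B
    rw [isPath_iff hmr, height_wordOf, seg_top e le_rfl, Set.inter_univ]
  have hcount : ∀ (R : Fin n → Bool) (k : ℕ),
      ({x | ∃ i, R i = true ∧ e i = x} ∩ seg e k).ncard = height R k := by
    intro R k
    rw [← height_wordOf, hword]
  refine ⟨n, r, e, height Q, height P, {x | ∃ i, Q i = true ∧ e i = x},
    {x | ∃ i, P i = true ∧ e i = x}, hcount Q, hcount P, ?_, ?_, hPQ, ?_⟩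
  · rw [← hpath, hword]
    exact hQ
  · rw [← hpath, hword]
    exact hP
  · intro B
    rw [hbase]
    constructor
    · rintro ⟨R, h1, h2, h3, h4⟩
      have h5 : B = {x | ∃ i, R i = true ∧ e i = x} := h4
      have h6 : wordOf e B = R := by rw [h5, hword]
      refine ⟨?_, fun k => ?_⟩
      · rw [← hpath, h6]
        exact h1
      · rw [← height_wordOf, h6]
        exact ⟨h2 k, h3 k⟩
    · rintro ⟨h1, h2⟩
      refine ⟨wordOf e B, (hpath B).2 h1, fun k => ?_, fun k => ?_, (hset B).symm⟩
      · rw [height_wordOf]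
        exact (h2 k).1
      · rw [height_wordOf]
        exact (h2 k).2

theorem sep_seg [Finite α] (hE : M.E = univ) {S : Set α} {c : ℕ}
    (h : ∀ B, M.IsBase B → (B ∩ S).ncard = c) : Sep M S := by
  classical
  intro C hC
  by_contra hcon
  push Not at hcon
  obtain ⟨h1, h2⟩ := hcon
  rw [Set.not_subset] at h1
  obtain ⟨w, hwC, hwS⟩ := h1
  rw [Set.not_disjoint_iff] at h2
  obtain ⟨z, hzC, hzS⟩ := h2
  obtain ⟨B, hB, hCB⟩ := (hC.sdiff_singleton_indep hzC).exists_isBase_superset
  have hzB : z ∉ B := by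
    intro hzB
    apply hC.not_indep
    apply hB.indep.subset
    intro v hv
    by_cases hvz : v = z
    · rw [hvz]
      exact hzB
    · exact hCB ⟨hv, hvz⟩
  have hwz : w ≠ z := by
    rintro rfl
    exact hwS hzS
  have hwB : w ∈ B := hCB ⟨hwC, hwz⟩
  have hcl : z ∈ M.closure B := by
    rw [hB.closure_eq, hE]
    trivial
  have hfund : C = M.fundCircuit z B := by
    apply hC.eq_fundCircuit_of_subset hB.indep
    intro v hv
    by_cases hvz : v = z
    · exact Or.inl hvz
    · exact Or.inr (hCB ⟨hv, hvz⟩)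
  have h3 : w ∈ M.fundCircuit z B := by
    rw [← hfund]
    exact hwC
  rw [hB.indep.mem_fundCircuit_iff hcl hzB, ← Set.insert_sdiff_singleton_comm hwz.symm] at h3
  have hB' : M.IsBase (insert z (B \ {w})) := hB.exchange_isBase_of_indep hzB h3
  have h4 := ncard_exch (S := S) hwB hzB
  rw [if_neg hwS, if_pos hzS, h _ hB', h _ hB] at h4
  omega

theorem phi_of_lpm [Finite α] (hE : M.E = univ) (h : IsLatticePathMatroid M) : Phi M := by
  classical
  obtain ⟨n, r, e, f, g, Q, P, hQf, hPg, hQr, hPr, hgf, hbase⟩ := presentation hE h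
  have hQ : M.IsBase Q := by
    rw [hbase]
    exact ⟨hQr, fun k => by rw [hQf]; exact ⟨hgf k, le_rfl⟩⟩
  have hP : M.IsBase P := by
    rw [hbase]
    exact ⟨hPr, fun k => by rw [hPg]; exact ⟨le_rfl, hgf k⟩⟩
  intro K hK
  -- touching levels do not cut `K`
  have hT : ∀ k, g k = f k → ∀ z, z ∈ K → ∀ w, w ∈ K → z ∈ seg e k → w ∈ seg e k := by
    intro k hk z hz w hw hzk
    have h1 : Sep M (seg e k) := by
      apply sep_seg hE (c := f k)
      intro B hB
      have h2 := ((hbase B).1 hB).2 k
      omega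
    exact (hK.2.2 (K ∩ seg e k) Set.inter_subset_left (hK.1.inter h1) ⟨z, hz, hzk⟩ hw).2
  -- the two orders
  let p : α → ℕ := fun z => (e.symm z : ℕ)
  let p' : α → ℕ := fun z => n - 1 - (e.symm z : ℕ)
  have hlt : ∀ z, (e.symm z : ℕ) < n := fun z => (e.symm z).2
  have hp : Function.Injective p := fun z w h => e.symm.injective (Fin.ext h)
  have hp' : Function.Injective p' := by
    intro z w h
    have h1 : n - 1 - (e.symm z : ℕ) = n - 1 - (e.symm w : ℕ) := h
    have h2 := hlt z
    have h3 := hlt w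
    exact e.symm.injective (Fin.ext (by omega))
  have hseg : ∀ k, {z | p z < k} = seg e k := fun k => rfl
  have hseg' : ∀ k, {z | p' z < k} = (seg e (n - k))ᶜ := by
    intro k
    ext z
    have h2 := hlt z
    rw [Set.mem_compl_iff, mem_seg]
    change n - 1 - (e.symm z : ℕ) < k ↔ _
    omega
  have hU : ∀ B, M.IsBase B → ∀ k, (B ∩ {z | p z < k}).ncard ≤ (Q ∩ {z | p z < k}).ncard := by
    intro B hB k
    rw [hseg, hQf]
    exact (((hbase B).1 hB).2 k).2
  have hU' : ∀ B, M.IsBase B → ∀ k,
      (B ∩ {z | p' z < k}).ncard ≤ (P ∩ {z | p' z < k}).ncard := by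
    intro B hB k
    rw [hseg']
    have h1 := ncard_compl e B (n - k)
    have h2 := ncard_compl e P (n - k)
    have h3 := ((hbase B).1 hB)
    have h4 := (h3.2 (n - k)).1
    rw [hPg, hPr] at h2
    rw [h3.1] at h1
    omega
  have hF : ∀ y, y ∈ K → y ∉ Q → ∀ q, q ∈ K → q ∈ Q → p q < p y →
      M.IsBase (insert y (Q \ {q})) := by
    intro y hyK hyQ q hqK hqQ hqy
    have hqy' : (e.symm q : ℕ) < e.symm y := hqy
    rw [hbase]
    constructor
    · have h1 := ncard_exch (S := univ) hqQ hyQ
      rw [Set.inter_univ, Set.inter_univ, if_pos (Set.mem_univ _), if_pos (Set.mem_univ _),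
        hQr] at h1
      omega
    · intro k
      have h1 := ncard_exch (S := seg e k) hqQ hyQ
      have h2 := hgf k
      have h3 := hT k
      rw [hQf] at h1
      by_cases hq : q ∈ seg e k
      · by_cases hy : y ∈ seg e k
        · rw [if_pos hq, if_pos hy] at h1
          omega
        · rw [if_pos hq, if_neg hy] at h1
          have h4 : g k ≠ f k := fun h5 => hy (h3 h5 q hqK y hyK hq)
          omega
      · have hy : y ∉ seg e k := by
          rw [mem_seg] at hq ⊢
          omega
        rw [if_neg hq, if_neg hy] at h1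
        omega
  have hF' : ∀ y, y ∈ K → y ∉ P → ∀ q, q ∈ K → q ∈ P → p' q < p' y →
      M.IsBase (insert y (P \ {q})) := by
    intro y hyK hyP q hqK hqP hqy
    have hqy' : n - 1 - (e.symm q : ℕ) < n - 1 - (e.symm y : ℕ) := hqy
    rw [hbase]
    constructor
    · have h1 := ncard_exch (S := univ) hqP hyP
      rw [Set.inter_univ, Set.inter_univ, if_pos (Set.mem_univ _), if_pos (Set.mem_univ _),
        hPr] at h1
      omega
    · intro k
      have h1 := ncard_exch (S := seg e k) hqP hyP
      have h2 := hgf k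
      have h3 := hT k
      rw [hPg] at h1
      by_cases hy : y ∈ seg e k
      · by_cases hq : q ∈ seg e k
        · rw [if_pos hq, if_pos hy] at h1
          omega
        · rw [if_neg hq, if_pos hy] at h1
          have h4 : g k ≠ f k := fun h5 => hq (h3 h5 y hyK q hqK hy)
          omega
      · have hq : q ∉ seg e k := by
          rw [mem_seg] at hy ⊢
          omega
        rw [if_neg hq, if_neg hy] at h1
        omega
  have hlowQ : ∀ A, DD M K Q A → ∀ z, z ∈ A → ∀ w, w ∈ K →
      (e.symm w : ℕ) < e.symm z → w ∈ A := by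
    intro A hA z hz w hw hwz
    exact DD_lower hE hK.1 hQ hp hU hF hA hz hw hwz
  have hupP : ∀ A, DD M K P A → ∀ z, z ∈ A → ∀ w, w ∈ K →
      (e.symm z : ℕ) < e.symm w → w ∈ A := by
    intro A hA z hz w hw hwz
    have h1 : p' w < p' z := by
      change n - 1 - (e.symm w : ℕ) < n - 1 - (e.symm z : ℕ)
      have h2 := hlt w
      omega
    exact DD_lower hE hK.1 hP hp' hU' hF' hA hz hw h1
  refine ⟨Q, P, ?_, ?_, ?_, ?_⟩
  · intro A A' hA hA'
    by_contra hcon
    push Not at hcon
    obtain ⟨h1, h2⟩ := hcon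
    rw [Set.not_subset] at h1 h2
    obtain ⟨z, hzA, hzA'⟩ := h1
    obtain ⟨w, hwA', hwA⟩ := h2
    rcases lt_trichotomy (e.symm z : ℕ) (e.symm w : ℕ) with h | h | h
    · exact hzA' (hlowQ A' hA' w hwA' z (hA.1 hzA) h)
    · rw [e.symm.injective (Fin.ext h)] at hzA
      exact hwA hzA
    · exact hwA (hlowQ A hA z hzA w (hA'.1 hwA') h)
  · intro A A' hA hA'
    by_contra hcon
    push Not at hcon
    obtain ⟨h1, h2⟩ := hcon
    rw [Set.not_subset] at h1 h2
    obtain ⟨z, hzA, hzA'⟩ := h1
    obtain ⟨w, hwA', hwA⟩ := h2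
    rcases lt_trichotomy (e.symm z : ℕ) (e.symm w : ℕ) with h | h | h
    · exact hwA (hupP A hA z hzA w (hA'.1 hwA') h)
    · rw [e.symm.injective (Fin.ext h)] at hzA
      exact hwA hzA
    · exact hzA' (hupP A' hA' w hwA' z (hA.1 hzA) h)
  · intro A G hA hG
    by_cases hd : Disjoint A G
    · exact Or.inl hd
    · right
      rw [Set.not_disjoint_iff] at hd
      obtain ⟨z, hzA, hzG⟩ := hd
      intro w hw
      rcases lt_trichotomy (e.symm w : ℕ) (e.symm z : ℕ) with h | h | h
      · exact Or.inl (hlowQ A hA z hzA w hw h)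
      · rw [e.symm.injective (Fin.ext h)]
        exact Or.inl hzA
      · exact Or.inr (hupP G hG z hzG w hw h)
  · intro B hB x hxB hxK y hyB hyK hnot
    have hB1 := (hbase B).1 hB
    rw [hbase] at hnot
    have hcard : (insert y (B \ {x})).ncard = r := by
      have h1 := ncard_exch (S := univ) hxB hyB
      rw [Set.inter_univ, Set.inter_univ, if_pos (Set.mem_univ _), if_pos (Set.mem_univ _),
        hB1.1] at h1
      omega
    have hex : ∃ k, ¬ (g k ≤ (insert y (B \ {x}) ∩ seg e k).ncard ∧
        (insert y (B \ {x}) ∩ seg e k).ncard ≤ f k) := by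
      by_contra hcon
      push Not at hcon
      exact hnot ⟨hcard, hcon⟩
    obtain ⟨k, hk⟩ := hex
    have h1 := ncard_exch (S := seg e k) hxB hyB
    have h2 := hB1.2 k
    by_cases hx : x ∈ seg e k
    · have hy : y ∉ seg e k := by
        intro hy
        rw [if_pos hx, if_pos hy] at h1
        omega
      rw [if_pos hx, if_neg hy] at h1
      have ht : (B ∩ seg e k).ncard = (P ∩ seg e k).ncard := by
        rw [hPg]
        omega
      have hyk : k ≤ (e.symm y : ℕ) := not_lt.1 hy
      have hxk : (e.symm x : ℕ) < k := hx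
      have hyn := hlt y
      have hnk : n - (n - k) = k := by omega
      obtain ⟨A, hA, h5, h6, h7⟩ := exists_DD hE hK.1 hP hp' hU' hF' hB hxB hxK hyB hyK
        (k := n - k) (by
          change n - 1 - (e.symm y : ℕ) < n - k
          omega) (by
          change n - k ≤ n - 1 - (e.symm x : ℕ)
          omega) (by
          rw [hseg', hnk]
          have h5 := ncard_compl e B k
          have h6 := ncard_compl e P k
          rw [hB1.1] at h5
          rw [hPr] at h6
          omega)
      exact ⟨A, Or.inr hA, h5, h6, h7⟩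
    · have hy : y ∈ seg e k := by
        by_contra hy
        rw [if_neg hx, if_neg hy] at h1
        omega
      rw [if_neg hx, if_pos hy] at h1
      have ht : (B ∩ seg e k).ncard = (Q ∩ seg e k).ncard := by
        rw [hQf]
        omega
      obtain ⟨A, hA, h5, h6, h7⟩ := exists_DD hE hK.1 hQ hp hU hF hB hxB hxK hyB hyK
        (k := k) hy (not_lt.1 hx) ht
      exact ⟨A, Or.inl hA, h5, h6, h7⟩

end Pool.Agent.R139.Lpm
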