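import Mathlib
import Pool.Agent.R139.LpmCore

/-!
# The definable property gives a lattice path presentation
-/

set_option autoImplicit false

namespace Pool.Agent.R139.Lpm

open Set

variable {α : Type*} {M : Matroid α}

/-- the minimal separator containing `z` -/
def At (M : Matroid α) (z : α) : Set α := ⋂₀ {K | Sep M K ∧ z ∈ K}

theorem sep_sInter {𝒮 : Set (Set α)} (h : ∀ K ∈ 𝒮, Sep M K) : Sep M (⋂₀ 𝒮) := by
  intro C hC
  by_cases hall : ∀ K ∈ 𝒮, C ⊆ K
  · exact Or.inl (Set.subset_sInter hall)
  · push Not at hall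
    obtain ⟨K, hK, hCK⟩ := hall
    rcases h K hK C hC with h1 | h1
    · exact absurd h1 hCK
    · exact Or.inr (h1.mono_right (Set.sInter_subset_of_mem hK))

theorem at_sep (z : α) : Sep M (At M z) := sep_sInter fun _ hK => hK.1

theorem mem_at (z : α) : z ∈ At M z := Set.mem_sInter.2 fun _ hK => hK.2

theorem at_min {K : Set α} (hK : Sep M K) {z : α} (hz : z ∈ K) : At M z ⊆ K :=
  Set.sInter_subset_of_mem ⟨hK, hz⟩

theorem at_eq {z w : α} (hw : w ∈ At M z) : At M w = At M z := by
  apply Set.Subset.antisymm (at_min (at_sep z) hw)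
  by_cases hz : z ∈ At M w
  · exact at_min (at_sep w) hz
  · exfalso
    have h1 := at_min ((at_sep (M := M) z).inter (at_sep w).compl) ⟨mem_at z, hz⟩ hw
    exact h1.2 (mem_at w)

theorem at_atom (z : α) : Atom M (At M z) := by
  refine ⟨at_sep z, ⟨z, mem_at z⟩, ?_⟩
  rintro K' hK' hsep ⟨w, hw⟩
  rw [← at_eq (hK' hw)]
  exact at_min hsep hw

theorem sep_of_closed {S : Set α} (h : ∀ z ∈ S, At M z ⊆ S) : Sep M S := by
  intro C hC
  by_cases hd : Disjoint C S
  · exact Or.inr hd
  · left
    rw [Set.not_disjoint_iff] at hd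
    obtain ⟨z, hzC, hzS⟩ := hd
    exact ((at_sep z).mem hC hzC (mem_at z)).trans (h z hzS)

/-- Lower sets for the order given by `e` are initial segments. -/
theorem exists_seg {n : ℕ} {e : Fin n ≃ α} {A : Set α}
    (hlow : ∀ w ∈ A, ∀ z, e.symm z < e.symm w → z ∈ A) {x : α} (hx : x ∉ A) :
    ∃ k, seg e k = A := by
  classical
  have hex : ∃ k, ∃ z, z ∉ A ∧ (e.symm z : ℕ) = k := ⟨_, x, hx, rfl⟩
  obtain ⟨z0, hz0, hk⟩ := Nat.find_spec hex
  have hmin : ∀ z, z ∉ A → Nat.find hex ≤ (e.symm z : ℕ) :=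
    fun z hz => Nat.find_min' hex ⟨z, hz, rfl⟩
  refine ⟨Nat.find hex, ?_⟩
  generalize Nat.find hex = k at hk hmin
  ext z
  rw [mem_seg]
  constructor
  · intro h
    by_contra hz
    have := hmin z hz
    omega
  · intro hz
    by_contra hcon
    rcases eq_or_lt_of_le (not_lt.1 hcon) with h | h
    · rw [← hk] at h
      have h1 : z0 = z := e.symm.injective (Fin.ext h)
      exact hz0 (h1 ▸ hz)
    · rw [← hk] at h
      exact hz0 (hlow z hz z0 h)

theorem isBasis_union {B S A : Set α} (hB : M.IsBase B) (h1 : M.IsBasis (B ∩ S) S)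
    (h2 : M.IsBasis (B ∩ A) A) : M.IsBasis (B ∩ (S ∪ A)) (S ∪ A) := by
  have h3 : B ∩ (S ∪ A) = (B ∩ S) ∪ (B ∩ A) := Set.inter_union_distrib_left _ _ _
  rw [h3]
  apply h1.union_isBasis_union h2
  rw [← h3]
  exact hB.indep.subset Set.inter_subset_left

theorem exists_order [Finite α] (hE : M.E = univ) (hphi : Phi M) :
    ∃ (n : ℕ) (e : Fin n ≃ α), SepProp M e := by
  classical
  choose! Q P hphi using hphi
  let 𝒞 : Set α → Set (Set α) := fun K =>
    {A | DD M K (Q K) A} ∪ {A | ∃ G, DD M K (P K) G ∧ A = K \ G}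
  have hCsub : ∀ K, ∀ A ∈ 𝒞 K, A ⊆ K := by
    rintro K A (hA | ⟨G, _, rfl⟩)
    · exact hA.1
    · exact Set.sdiff_subset
  have hchain : ∀ K, Atom M K → ∀ A ∈ 𝒞 K, ∀ A' ∈ 𝒞 K, A ⊆ A' ∨ A' ⊆ A := by
    intro K hK
    obtain ⟨c1, c2, c3, -⟩ := hphi K hK
    have hmix : ∀ A G, DD M K (Q K) A → DD M K (P K) G → A ⊆ K \ G ∨ K \ G ⊆ A := by
      intro A G hA hG
      rcases c3 A G hA hG with h | h
      · left
        intro w hw
        exact ⟨hA.1 hw, fun hwG => Set.disjoint_left.1 h hw hwG⟩
      · right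
        intro w hw
        rcases h hw.1 with h' | h'
        · exact h'
        · exact absurd h' hw.2
    rintro A (hA | ⟨G, hG, rfl⟩) A' (hA' | ⟨G', hG', rfl⟩)
    · exact c1 A A' hA hA'
    · exact hmix A G' hA hG'
    · exact (hmix A' G hA' hG).symm
    · rcases c2 G G' hG hG' with h | h
      · exact Or.inr (Set.sdiff_subset_sdiff_right h)
      · exact Or.inl (Set.sdiff_subset_sdiff_right h)
  let d : α → ℕ := fun z => {A | A ∈ 𝒞 (At M z) ∧ z ∉ A}.ncard
  have hd : ∀ z w, At M z = At M w → ∀ A ∈ 𝒞 (At M w), w ∈ A → z ∉ A → d w < d z := by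
    intro z w hzw A hA hwA hzA
    apply Set.ncard_lt_ncard _ (Set.toFinite _)
    rw [hzw]
    refine ⟨?_, ?_⟩
    · rintro A' ⟨hA', hwA'⟩
      refine ⟨hA', fun hzA' => ?_⟩
      rcases hchain _ (at_atom w) A hA A' hA' with h | h
      · exact hwA' (h hwA)
      · exact hzA (h hzA')
    · intro h
      exact (h ⟨hA, hzA⟩).2 hwA
  let lab : α → ℕ := fun z => (Finite.equivFin (Set α) (At M z) : ℕ)
  have hlab : ∀ z w, lab z = lab w → At M z = At M w := by
    intro z w h
    exact (Finite.equivFin (Set α)).injective (Fin.ext h)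
  have hlab' : ∀ z w, At M z = At M w → lab z = lab w := by
    intro z w h
    change (Finite.equivFin (Set α) (At M z) : ℕ) = (Finite.equivFin (Set α) (At M w) : ℕ)
    rw [h]
  let ι : α → ℕ := fun z => (Finite.equivFin α z : ℕ)
  let key : α → ℕ ×ₗ ℕ ×ₗ ℕ := fun z => toLex (lab z, toLex (d z, ι z))
  have hkey : Function.Injective key := by
    intro z w h
    have h1 := congrArg (fun q : ℕ ×ₗ ℕ ×ₗ ℕ => (ofLex (ofLex q).2).2) h
    exact (Finite.equivFin α).injective (Fin.ext h1)
  have hkeylt : ∀ z w, key z < key w →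
      lab z < lab w ∨ (lab z = lab w ∧ d z ≤ d w) := by
    intro z w h
    rw [Prod.Lex.toLex_lt_toLex] at h
    rcases h with h | ⟨h1, h2⟩
    · exact Or.inl h
    · rw [Prod.Lex.toLex_lt_toLex] at h2
      rcases h2 with h2 | ⟨h2, -⟩
      · exact Or.inr ⟨h1, h2.le⟩
      · exact Or.inr ⟨h1, h2.le⟩
  have hfin := Fintype.ofFinite α
  let _ : LinearOrder α := LinearOrder.lift' key hkey
  let eo : Fin (Fintype.card α) ≃o α := Fintype.orderIsoFinOfCardEq α rfl
  let e : Fin (Fintype.card α) ≃ α := eo.toEquiv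
  have hord : ∀ z w, e.symm z < e.symm w → key z < key w := by
    intro z w h
    exact (eo.symm.lt_iff_lt (x := z) (y := w)).1 h
  refine ⟨Fintype.card α, e, ?_⟩
  intro B hB x hxB y hyB hnot
  -- separators below a label
  have hlowsep : ∀ c, Sep M {w | lab w < c} := by
    intro c
    apply sep_of_closed
    intro z hz w hw
    change lab w < c
    rw [hlab' w z (at_eq hw)]
    exact hz
  have hupsep : ∀ c, Sep M {w | c < lab w} := by
    intro c
    apply sep_of_closed
    intro z hz w hw
    change c < lab w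
    rw [hlab' w z (at_eq hw)]
    exact hz
  have hlow1 : ∀ c, ∀ w ∈ {w | lab w < c}, ∀ z, e.symm z < e.symm w → z ∈ {w | lab w < c} := by
    intro c w hw z hzw
    have hw' : lab w < c := hw
    change lab z < c
    rcases hkeylt z w (hord z w hzw) with h | h
    · omega
    · omega
  have hlow2 : ∀ y, ∀ A ∈ 𝒞 (At M y), ∀ w ∈ {w | lab w < lab y} ∪ A, ∀ z,
      e.symm z < e.symm w → z ∈ {w | lab w < lab y} ∪ A := by
    intro y A hA w hw z hzw
    rcases hw with hw | hw
    · exact Or.inl (hlow1 _ w hw z hzw)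
    · have h1 : At M w = At M y := at_eq (hCsub _ A hA hw)
      rcases hkeylt z w (hord z w hzw) with h | ⟨h, h'⟩
      · left
        change lab z < lab y
        rw [← hlab' w y h1]
        exact h
      · right
        by_contra hzA
        have h2 := hd z w (hlab z w h) A (by rw [h1]; exact hA) hw hzA
        omega
  rcases lt_trichotomy (lab y) (lab x) with hlt | heq | hgt
  · -- `y` in an earlier component
    have hx' : x ∉ {w | lab w < lab x} := fun h => lt_irrefl _ (show lab x < lab x from h)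
    obtain ⟨k, hk⟩ := exists_seg (hlow1 (lab x)) hx'
    refine ⟨k, Or.inl ?_⟩
    rw [hk]
    exact ⟨hlt, hx', (hlowsep _).isBasis hE hB⟩
  · -- the same component
    have hat : At M y = At M x := hlab y x heq
    obtain ⟨-, -, -, c4⟩ := hphi (At M y) (at_atom y)
    obtain ⟨A, hA, hyA, hxA, hbas⟩ := c4 B hB x hxB (by rw [hat]; exact mem_at x) y hyB
      (mem_at y) hnot
    rcases hA with hA | hA
    · have hAC : A ∈ 𝒞 (At M y) := Or.inl hA
      have hx' : x ∉ {w | lab w < lab y} ∪ A := by
        rintro (h | h)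
        · have h' : lab x < lab y := h
          omega
        · exact hxA h
      obtain ⟨k, hk⟩ := exists_seg (hlow2 y A hAC) hx'
      refine ⟨k, Or.inl ?_⟩
      rw [hk]
      exact ⟨Or.inr hyA, hx', isBasis_union hB ((hlowsep _).isBasis hE hB) hbas⟩
    · have hAC : At M y \ A ∈ 𝒞 (At M y) := Or.inr ⟨A, hA, rfl⟩
      have hy' : y ∉ {w | lab w < lab y} ∪ (At M y \ A) := by
        rintro (h | h)
        · exact lt_irrefl _ (show lab y < lab y from h)
        · exact h.2 hyA
      obtain ⟨k, hk⟩ := exists_seg (hlow2 y _ hAC) hy'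
      refine ⟨k, Or.inr ?_⟩
      rw [hk]
      refine ⟨Or.inr ⟨by rw [hat]; exact mem_at x, hxA⟩, hy', ?_⟩
      have hcompl : ({w | lab w < lab y} ∪ (At M y \ A))ᶜ = {w | lab y < lab w} ∪ A := by
        ext w
        rw [Set.mem_compl_iff, Set.mem_union, Set.mem_union, Set.mem_sdiff, not_or, not_and,
          not_not]
        constructor
        · rintro ⟨h1, h2⟩
          have h1' : ¬ lab w < lab y := h1
          by_cases h3 : lab w = lab y
          · right
            apply h2
            rw [← hlab w y h3]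
            exact mem_at w
          · left
            change lab y < lab w
            omega
        · rintro (h1 | h1)
          · have h1' : lab y < lab w := h1
            refine ⟨?_, ?_⟩
            · change ¬ lab w < lab y
              omega
            · intro h2
              have := hlab' w y (at_eq h2)
              omega
          · have := hlab' w y (at_eq (hA.1 h1))
            refine ⟨?_, fun _ => h1⟩
            change ¬ lab w < lab y
            omega
      rw [hcompl]
      exact isBasis_union hB ((hupsep _).isBasis hE hB) hbas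
  · -- `x` in an earlier component
    have hy' : y ∉ {w | lab w < lab y} := fun h => lt_irrefl _ (show lab y < lab y from h)
    obtain ⟨k, hk⟩ := exists_seg (hlow1 (lab y)) hy'
    refine ⟨k, Or.inr ?_⟩
    rw [hk]
    exact ⟨hgt, hy', (hlowsep _).compl.isBasis hE hB⟩

theorem lpm_of_phi [Finite α] (hE : M.E = univ) (hphi : Phi M) : IsLatticePathMatroid M := by
  obtain ⟨n, e, h⟩ := exists_order hE hphi
  exact lpm_of_sepProp hE h

end Pool.Agent.R139.Lpm
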