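import Mathlib
import Pool.Agent.R139.LpmOrder
import Pool.Agent.R139.LpmComplete

/-!
# The monadic sentence
-/

set_option autoImplicit false

namespace Pool.Agent.R139.Lpm

open Set

/-- Formulas of the logic `MS₀` whose free set variables are among `X_0, …, X_{k-1}`. The variables
are de Bruijn indices: a quantifier binds the variable `0` of its body, and the variable `i` of the
formula is the variable `i + 1` of the body. -/
inductive Form : ℕ → Type
  | ind {k : ℕ} (i : Fin k) : Form k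
  | sub {k : ℕ} (i j : Fin k) : Form k
  | neg {k : ℕ} (φ : Form k) : Form k
  | and {k : ℕ} (φ ψ : Form k) : Form k
  | or {k : ℕ} (φ ψ : Form k) : Form k
  | imp {k : ℕ} (φ ψ : Form k) : Form k
  | ex {k : ℕ} (φ : Form (k + 1)) : Form k
  | all {k : ℕ} (φ : Form (k + 1)) : Form k

/-- Satisfaction of a formula in the matroid `M` when the free variable `i` is interpreted as the
set `v i`; quantifiers range over the subsets of the ground set. -/
def Sat {α : Type*} (M : Matroid α) : ∀ {k : ℕ}, Form k → (Fin k → Set α) → Prop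
  | _, .ind i, v => M.Indep (v i)
  | _, .sub i j, v => v i ⊆ v j
  | _, .neg φ, v => ¬ Sat M φ v
  | _, .and φ ψ, v => Sat M φ v ∧ Sat M ψ v
  | _, .or φ ψ, v => Sat M φ v ∨ Sat M ψ v
  | _, .imp φ ψ, v => Sat M φ v → Sat M ψ v
  | _, .ex φ, v => ∃ X, X ⊆ M.E ∧ Sat M φ (Matrix.vecCons X v)
  | _, .all φ, v => ∀ X, X ⊆ M.E → Sat M φ (Matrix.vecCons X v)

variable {k : ℕ}

/-- `X_z` is empty -/
def empF (z : Fin k) : Form k := .all (.sub z.succ 0)

/-- `X_c` is a circuit -/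
def circF (c : Fin k) : Form k :=
  .and (.neg (.ind c)) (.all (.imp (.and (.sub 0 c.succ) (.neg (.ind 0))) (.sub c.succ 0)))

/-- `X_b` is a base -/
def baseF (b : Fin k) : Form k :=
  .and (.ind b) (.all (.imp (.and (.sub b.succ 0) (.ind 0)) (.sub 0 b.succ)))

/-- `X_i` is a basis of `X_x` -/
def basisF (i x : Fin k) : Form k :=
  .and (.sub i x) (.and (.ind i)
    (.all (.imp (.and (.sub i.succ 0) (.and (.sub 0 x.succ) (.ind 0))) (.sub 0 i.succ))))

/-- disjointness -/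
def disjF (x y : Fin k) : Form k :=
  .all (.imp (.and (.sub 0 x.succ) (.sub 0 y.succ)) (empF 0))

/-- intersection -/
def interF (i x y : Fin k) : Form k :=
  .and (.sub i x) (.and (.sub i y)
    (.all (.imp (.and (.sub 0 x.succ) (.sub 0 y.succ)) (.sub 0 i.succ))))

/-- union -/
def unionF (u x y : Fin k) : Form k :=
  .and (.sub x u) (.and (.sub y u)
    (.all (.imp (.and (.sub x.succ 0) (.sub y.succ 0)) (.sub u.succ 0))))

/-- singleton -/
def singF (x : Fin k) : Form k :=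
  .and (.neg (empF x)) (.all (.imp (.sub 0 x.succ) (.or (empF 0) (.sub x.succ 0))))

/-- separator -/
def sepF (x : Fin k) : Form k :=
  .all (.imp (circF 0) (.or (.sub 0 x.succ) (disjF 0 x.succ)))

/-- minimal nonempty separator -/
def atomF (x : Fin k) : Form k :=
  .and (sepF x) (.and (.neg (empF x))
    (.all (.imp (.and (.sub 0 x.succ) (.and (sepF 0) (.neg (empF 0)))) (.sub x.succ 0))))

/-- the family `DD` -/
def ddF (x q a : Fin k) : Form k :=
  .and (.sub a x) (.ex (.and (interF 0 q.succ a.succ) (.and (basisF 0 a.succ)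
    (.and
      (.all (.imp (.and (singF 0) (.and (.sub 0 x.succ.succ) (disjF 0 a.succ.succ)))
        (.ex (.and (unionF 0 (Fin.succ 0) (Fin.succ (Fin.succ 0))) (.ind 0)))))
      (.ex (.and (circF 0) (.and (.sub (Fin.succ 0) 0) (.sub 0 a.succ.succ))))))))

/-- the chain condition -/
def chainF (x q : Fin k) : Form k :=
  .all (.all (.imp (.and (ddF x.succ.succ q.succ.succ (Fin.succ 0)) (ddF x.succ.succ q.succ.succ 0))
    (.or (.sub (Fin.succ 0) 0) (.sub 0 (Fin.succ 0)))))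

/-- the crossing condition -/
def crossF (x q p : Fin k) : Form k :=
  .all (.all (.imp (.and (ddF x.succ.succ q.succ.succ (Fin.succ 0)) (ddF x.succ.succ p.succ.succ 0))
    (.or (disjF (Fin.succ 0) 0)
      (.ex (.and (unionF 0 (Fin.succ (Fin.succ 0)) (Fin.succ 0)) (.sub x.succ.succ.succ 0))))))

/-- conclusion of the exchange condition -/
def concF (x q p y a b : Fin k) : Form k :=
  .ex (.and (.or (ddF x.succ q.succ 0) (ddF x.succ p.succ 0)) (.and (.sub y.succ 0)
    (.and (disjF a.succ 0)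
      (.ex (.and (interF 0 b.succ.succ (Fin.succ 0)) (basisF 0 (Fin.succ 0)))))))

/-- inner part of the exchange condition -/
def innerF (x q p y a b : Fin k) : Form k :=
  .all (.all (.imp
    (.and (.and (unionF b.succ.succ (Fin.succ 0) a.succ.succ) (disjF (Fin.succ 0) a.succ.succ))
      (.and (unionF 0 (Fin.succ 0) y.succ.succ) (.neg (baseF 0))))
    (concF x.succ.succ q.succ.succ p.succ.succ y.succ.succ a.succ.succ b.succ.succ)))

/-- the exchange condition -/
def exchF (x q p : Fin k) : Form k :=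
  .all (.imp (baseF 0)
    (.all (.imp (.and (singF 0) (.and (.sub 0 (Fin.succ 0)) (.sub 0 x.succ.succ)))
      (.all (.imp (.and (singF 0) (.and (disjF 0 (Fin.succ (Fin.succ 0)))
          (.sub 0 x.succ.succ.succ)))
        (innerF x.succ.succ.succ q.succ.succ.succ p.succ.succ.succ 0 (Fin.succ 0)
          (Fin.succ (Fin.succ 0))))))))

/-- the sentence -/
def sentence : Form 0 :=
  .all (.imp (atomF 0) (.ex (.ex (.and (chainF (Fin.succ (Fin.succ 0)) (Fin.succ 0))
    (.and (chainF (Fin.succ (Fin.succ 0)) 0)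
      (.and (crossF (Fin.succ (Fin.succ 0)) (Fin.succ 0) 0)
        (exchF (Fin.succ (Fin.succ 0)) (Fin.succ 0) 0)))))))

section Sem

theorem sat_ind {α : Type*} {M : Matroid α} {k : ℕ} {v : Fin k → Set α} {i : Fin k} :
    Sat M (.ind i) v ↔ M.Indep (v i) := Iff.rfl

theorem sat_sub {α : Type*} {M : Matroid α} {k : ℕ} {v : Fin k → Set α} {i j : Fin k} :
    Sat M (.sub i j) v ↔ v i ⊆ v j := Iff.rfl

theorem sat_neg {α : Type*} {M : Matroid α} {k : ℕ} {v : Fin k → Set α} {φ : Form k} :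
    Sat M (.neg φ) v ↔ ¬ Sat M φ v := Iff.rfl

theorem sat_and {α : Type*} {M : Matroid α} {k : ℕ} {v : Fin k → Set α} {φ ψ : Form k} :
    Sat M (.and φ ψ) v ↔ Sat M φ v ∧ Sat M ψ v := Iff.rfl

theorem sat_or {α : Type*} {M : Matroid α} {k : ℕ} {v : Fin k → Set α} {φ ψ : Form k} :
    Sat M (.or φ ψ) v ↔ Sat M φ v ∨ Sat M ψ v := Iff.rfl

theorem sat_imp {α : Type*} {M : Matroid α} {k : ℕ} {v : Fin k → Set α} {φ ψ : Form k} :
    Sat M (.imp φ ψ) v ↔ (Sat M φ v → Sat M ψ v) := Iff.rfl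

variable {α : Type*} {M : Matroid α} (hE : M.E = univ) {k : ℕ} {v : Fin k → Set α}

include hE

theorem sat_all {φ : Form (k + 1)} :
    Sat M (.all φ) v ↔ ∀ X, Sat M φ (Matrix.vecCons X v) := by
  rw [Sat, hE]
  exact ⟨fun h X => h X (Set.subset_univ X), fun h X _ => h X⟩

theorem sat_ex {φ : Form (k + 1)} :
    Sat M (.ex φ) v ↔ ∃ X, Sat M φ (Matrix.vecCons X v) := by
  rw [Sat, hE]
  exact ⟨fun ⟨X, _, h⟩ => ⟨X, h⟩, fun ⟨X, h⟩ => ⟨X, Set.subset_univ X, h⟩⟩

theorem sat_emp {z : Fin k} : Sat M (empF z) v ↔ v z = ∅ := by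
  rw [empF]
  simp only [sat_ind, sat_sub, sat_neg, sat_and, sat_or, sat_imp, sat_all hE, sat_ex hE,
    Matrix.cons_val_zero, Matrix.cons_val_succ]
  exact ⟨fun h => Set.subset_empty_iff.1 (h ∅), fun h X => by rw [h]; exact Set.empty_subset X⟩

theorem sat_circ {c : Fin k} : Sat M (circF c) v ↔ M.IsCircuit (v c) := by
  rw [circF]
  simp only [sat_ind, sat_sub, sat_neg, sat_and, sat_or, sat_imp, sat_all hE, sat_ex hE,
    Matrix.cons_val_zero, Matrix.cons_val_succ]
  rw [Matroid.isCircuit_def]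
  have hdep : ∀ X, M.Dep X ↔ ¬ M.Indep X := fun X => by
    rw [Matroid.dep_iff, hE]
    simp
  constructor
  · rintro ⟨h1, h2⟩
    exact ⟨(hdep _).2 h1, fun Y hY hYX => h2 Y ⟨hYX, (hdep _).1 hY⟩⟩
  · rintro ⟨h1, h2⟩
    exact ⟨(hdep _).1 h1, fun Y hY => h2 ((hdep _).2 hY.2) hY.1⟩

theorem sat_base {b : Fin k} : Sat M (baseF b) v ↔ M.IsBase (v b) := by
  rw [baseF]
  simp only [sat_ind, sat_sub, sat_neg, sat_and, sat_or, sat_imp, sat_all hE, sat_ex hE,
    Matrix.cons_val_zero, Matrix.cons_val_succ]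
  rw [Matroid.isBase_iff_maximal_indep]
  constructor
  · rintro ⟨h1, h2⟩
    exact ⟨h1, fun Y hY hYX => h2 Y ⟨hYX, hY⟩⟩
  · rintro ⟨h1, h2⟩
    exact ⟨h1, fun Y hY => h2 hY.2 hY.1⟩

theorem sat_basis {i x : Fin k} : Sat M (basisF i x) v ↔ M.IsBasis (v i) (v x) := by
  rw [basisF]
  simp only [sat_ind, sat_sub, sat_neg, sat_and, sat_or, sat_imp, sat_all hE, sat_ex hE,
    Matrix.cons_val_zero, Matrix.cons_val_succ]
  constructor
  · rintro ⟨h0, h1, h2⟩
    refine ⟨⟨⟨h1, h0⟩, ?_⟩, by rw [hE]; exact Set.subset_univ _⟩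
    rintro Y ⟨hY, hYx⟩ hle
    exact h2 Y ⟨hle, hYx, hY⟩
  · intro h
    exact ⟨h.subset, h.indep, fun Y hY => h.1.2 ⟨hY.2.2, hY.2.1⟩ hY.1⟩

theorem sat_disj {x y : Fin k} : Sat M (disjF x y) v ↔ Disjoint (v x) (v y) := by
  rw [disjF]
  simp only [sat_ind, sat_sub, sat_neg, sat_and, sat_or, sat_imp, sat_all hE, sat_ex hE,
    Matrix.cons_val_zero, Matrix.cons_val_succ, sat_emp hE]
  rw [Set.disjoint_iff_inter_eq_empty]
  constructor
  · intro h
    exact h _ ⟨Set.inter_subset_left, Set.inter_subset_right⟩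
  · rintro h X ⟨h1, h2⟩
    exact Set.subset_empty_iff.1 (h ▸ Set.subset_inter h1 h2)

theorem sat_inter {i x y : Fin k} : Sat M (interF i x y) v ↔ v i = v x ∩ v y := by
  rw [interF]
  simp only [sat_ind, sat_sub, sat_neg, sat_and, sat_or, sat_imp, sat_all hE, sat_ex hE,
    Matrix.cons_val_zero, Matrix.cons_val_succ]
  constructor
  · rintro ⟨h0, h1, h2⟩
    exact Set.Subset.antisymm (Set.subset_inter h0 h1)
      (h2 _ ⟨Set.inter_subset_left, Set.inter_subset_right⟩)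
  · intro h
    rw [h]
    exact ⟨Set.inter_subset_left, Set.inter_subset_right, fun X hX => Set.subset_inter hX.1 hX.2⟩

theorem sat_union {u x y : Fin k} : Sat M (unionF u x y) v ↔ v u = v x ∪ v y := by
  rw [unionF]
  simp only [sat_ind, sat_sub, sat_neg, sat_and, sat_or, sat_imp, sat_all hE, sat_ex hE,
    Matrix.cons_val_zero, Matrix.cons_val_succ]
  constructor
  · rintro ⟨h0, h1, h2⟩
    exact Set.Subset.antisymm (h2 _ ⟨Set.subset_union_left, Set.subset_union_right⟩)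
      (Set.union_subset h0 h1)
  · intro h
    rw [h]
    exact ⟨Set.subset_union_left, Set.subset_union_right, fun X hX => Set.union_subset hX.1 hX.2⟩

theorem sat_sing {x : Fin k} : Sat M (singF x) v ↔ ∃ a, v x = {a} := by
  rw [singF]
  simp only [sat_ind, sat_sub, sat_neg, sat_and, sat_or, sat_imp, sat_all hE, sat_ex hE,
    Matrix.cons_val_zero, Matrix.cons_val_succ, sat_emp hE]
  constructor
  · rintro ⟨h1, h2⟩
    obtain ⟨a, ha⟩ := Set.nonempty_iff_ne_empty.2 h1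
    rcases h2 {a} (Set.singleton_subset_iff.2 ha) with h3 | h3
    · exact absurd h3 (Set.singleton_ne_empty a)
    · exact ⟨a, Set.Subset.antisymm h3 (Set.singleton_subset_iff.2 ha)⟩
  · rintro ⟨a, ha⟩
    rw [ha]
    refine ⟨Set.singleton_ne_empty a, fun X hX => ?_⟩
    rcases Set.subset_singleton_iff_eq.1 hX with h | h
    · exact Or.inl h
    · exact Or.inr h.ge

theorem sat_sep {x : Fin k} : Sat M (sepF x) v ↔ Sep M (v x) := by
  rw [sepF]
  simp only [sat_ind, sat_sub, sat_neg, sat_and, sat_or, sat_imp, sat_all hE, sat_ex hE,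
    Matrix.cons_val_zero, Matrix.cons_val_succ, sat_circ hE, sat_disj hE]
  rfl

theorem sat_atom {x : Fin k} : Sat M (atomF x) v ↔ Atom M (v x) := by
  rw [atomF]
  simp only [sat_ind, sat_sub, sat_neg, sat_and, sat_or, sat_imp, sat_all hE, sat_ex hE,
    Matrix.cons_val_zero, Matrix.cons_val_succ, sat_emp hE, sat_sep hE]
  rw [Atom, Set.nonempty_iff_ne_empty]
  constructor
  · rintro ⟨h1, h2, h3⟩
    exact ⟨h1, h2, fun K' h4 h5 h6 => h3 K' ⟨h4, h5, Set.nonempty_iff_ne_empty.1 h6⟩⟩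
  · rintro ⟨h1, h2, h3⟩
    exact ⟨h1, h2, fun K' h4 => h3 K' h4.1 h4.2.1 (Set.nonempty_iff_ne_empty.2 h4.2.2)⟩

theorem sat_dd {x q a : Fin k} : Sat M (ddF x q a) v ↔ DD M (v x) (v q) (v a) := by
  rw [ddF]
  simp only [sat_ind, sat_sub, sat_neg, sat_and, sat_or, sat_imp, sat_all hE, sat_ex hE,
    Matrix.cons_val_zero, Matrix.cons_val_succ,
    sat_inter hE, sat_basis hE, sat_sing hE, sat_disj hE, sat_union hE, sat_circ hE]
  rw [DD]
  constructor
  · rintro ⟨h0, I, rfl, h1, h2, C, h3, h4, h5⟩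
    refine ⟨h0, h1, fun z hz hza => ?_, C, h3, h4, h5⟩
    obtain ⟨U, hU, hU'⟩ := h2 {z} ⟨⟨z, rfl⟩, Set.singleton_subset_iff.2 hz,
      Set.disjoint_singleton_left.2 hza⟩
    rw [Set.singleton_union] at hU
    rw [← hU]
    exact hU'
  · rintro ⟨h0, h1, h2, C, h3, h4, h5⟩
    refine ⟨h0, _, rfl, h1, ?_, C, h3, h4, h5⟩
    rintro Z ⟨⟨z, rfl⟩, h6, h7⟩
    refine ⟨_, rfl, ?_⟩
    rw [Set.singleton_union]
    exact h2 z (Set.singleton_subset_iff.1 h6) (Set.disjoint_singleton_left.1 h7)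

theorem sat_chain {x q : Fin k} : Sat M (chainF x q) v ↔
    ∀ A A', DD M (v x) (v q) A → DD M (v x) (v q) A' → A ⊆ A' ∨ A' ⊆ A := by
  rw [chainF]
  simp only [sat_ind, sat_sub, sat_neg, sat_and, sat_or, sat_imp, sat_all hE, sat_ex hE,
    Matrix.cons_val_zero, Matrix.cons_val_succ, sat_dd hE]
  exact ⟨fun h A A' h1 h2 => h A A' ⟨h1, h2⟩, fun h A A' h1 => h A A' h1.1 h1.2⟩

theorem sat_cross {x q p : Fin k} : Sat M (crossF x q p) v ↔
    ∀ A G, DD M (v x) (v q) A → DD M (v x) (v p) G → Disjoint A G ∨ v x ⊆ A ∪ G := by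
  rw [crossF]
  simp only [sat_ind, sat_sub, sat_neg, sat_and, sat_or, sat_imp, sat_all hE, sat_ex hE,
    Matrix.cons_val_zero, Matrix.cons_val_succ, sat_dd hE,
    sat_disj hE, sat_union hE]
  constructor
  · intro h A G h1 h2
    rcases h A G ⟨h1, h2⟩ with h3 | ⟨U, rfl, h3⟩
    · exact Or.inl h3
    · exact Or.inr h3
  · rintro h A G ⟨h1, h2⟩
    rcases h A G h1 h2 with h3 | h3
    · exact Or.inl h3
    · exact Or.inr ⟨_, rfl, h3⟩

theorem sat_conc {x q p y a b : Fin k} : Sat M (concF x q p y a b) v ↔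
    ∃ A, (DD M (v x) (v q) A ∨ DD M (v x) (v p) A) ∧ v y ⊆ A ∧ Disjoint (v a) A ∧
      M.IsBasis (v b ∩ A) A := by
  rw [concF]
  simp only [sat_ind, sat_sub, sat_neg, sat_and, sat_or, sat_imp, sat_all hE, sat_ex hE,
    Matrix.cons_val_zero, Matrix.cons_val_succ, sat_dd hE, sat_disj hE, sat_inter hE,
    sat_basis hE]
  constructor
  · rintro ⟨A, h1, h2, h3, J, rfl, h4⟩
    exact ⟨A, h1, h2, h3, h4⟩
  · rintro ⟨A, h1, h2, h3, h4⟩
    exact ⟨A, h1, h2, h3, _, rfl, h4⟩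

theorem sat_inner {x q p y a b : Fin k} : Sat M (innerF x q p y a b) v ↔
    ∀ D B', (v b = D ∪ v a ∧ Disjoint D (v a)) ∧ B' = D ∪ v y ∧ ¬ M.IsBase B' →
    ∃ A, (DD M (v x) (v q) A ∨ DD M (v x) (v p) A) ∧ v y ⊆ A ∧ Disjoint (v a) A ∧
      M.IsBasis (v b ∩ A) A := by
  rw [innerF]
  simp only [sat_ind, sat_sub, sat_neg, sat_and, sat_or, sat_imp, sat_all hE, sat_ex hE,
    Matrix.cons_val_zero, Matrix.cons_val_succ, sat_disj hE, sat_union hE, sat_base hE,
    sat_conc hE]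

theorem sat_exch {x q p : Fin k} : Sat M (exchF x q p) v ↔
    ∀ B, M.IsBase B → ∀ a, a ∈ B → a ∈ v x → ∀ b, b ∉ B → b ∈ v x →
      ¬ M.IsBase (insert b (B \ {a})) →
      ∃ A, (DD M (v x) (v q) A ∨ DD M (v x) (v p) A) ∧ b ∈ A ∧ a ∉ A ∧
        M.IsBasis (B ∩ A) A := by
  rw [exchF]
  simp only [sat_ind, sat_sub, sat_neg, sat_and, sat_or, sat_imp, sat_all hE, sat_ex hE,
    Matrix.cons_val_zero, Matrix.cons_val_succ, sat_disj hE, sat_base hE, sat_sing hE,
    sat_inner hE]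
  constructor
  · intro h B hB a haB hax b hbB hbx hnot
    have h1 : B = B \ {a} ∪ {a} := by
      rw [Set.sdiff_union_self]
      exact (Set.union_eq_self_of_subset_right (Set.singleton_subset_iff.2 haB)).symm
    obtain ⟨A, h2, h3, h4, h5⟩ := h B hB {a} ⟨⟨a, rfl⟩, Set.singleton_subset_iff.2 haB,
      Set.singleton_subset_iff.2 hax⟩ {b} ⟨⟨b, rfl⟩, Set.disjoint_singleton_left.2 hbB,
      Set.singleton_subset_iff.2 hbx⟩ (B \ {a}) (insert b (B \ {a}))
      ⟨⟨h1, Set.disjoint_sdiff_left⟩, by rw [Set.union_singleton], hnot⟩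
    exact ⟨A, h2, Set.singleton_subset_iff.1 h3, Set.disjoint_singleton_left.1 h4, h5⟩
  · rintro h B hB _ ⟨⟨a, rfl⟩, h1, h2⟩ _ ⟨⟨b, rfl⟩, h3, h4⟩ D B' ⟨⟨h5, h6⟩, h7, h8⟩
    have h9 : D = B \ {a} := by
      rw [h5, Set.union_sdiff_right, Disjoint.sdiff_eq_left h6]
    have h10 : B' = insert b (B \ {a}) := by
      rw [h7, h9, Set.union_singleton]
    rw [h10] at h8
    obtain ⟨A, h11, h12, h13, h14⟩ := h B hB a (Set.singleton_subset_iff.1 h1)
      (Set.singleton_subset_iff.1 h2) b (Set.disjoint_singleton_left.1 h3)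
      (Set.singleton_subset_iff.1 h4) h8
    exact ⟨A, h11, Set.singleton_subset_iff.2 h12, Set.disjoint_singleton_left.2 h13, h14⟩

theorem sat_sentence (v : Fin 0 → Set α) : Sat M sentence v ↔ Phi M := by
  rw [sentence]
  simp only [sat_ind, sat_sub, sat_neg, sat_and, sat_or, sat_imp, sat_all hE, sat_ex hE,
    Matrix.cons_val_zero, Matrix.cons_val_succ, sat_atom hE,
    sat_chain hE, sat_cross hE, sat_exch hE]
  rfl

theorem sat_iff [Finite α] (v : Fin 0 → Set α) : Sat M sentence v ↔ IsLatticePathMatroid M := by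
  rw [sat_sentence hE]
  exact ⟨lpm_of_phi hE, phi_of_lpm hE⟩

end Sem

end Pool.Agent.R139.Lpm
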