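import Mathlib

/-!
# Reduced Groebner bases of toric ideals for graded reverse lexicographic orders
-/

set_option autoImplicit false

namespace Pool.Agent.R139.Toric

open MvPolynomial

/-- The graded reverse lexicographic order on monomials (exponent vectors) for the strict total
order `r` on the variables (`r s t` means that the variable `s` is smaller than `t`): `GRevLex r u v`
means that `u` is smaller than `v`, i.e. `u` has smaller degree, or they have the same degree and
`u` has the larger exponent at the smallest variable at which they differ. -/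
def GRevLex {σ : Type*} (r : σ → σ → Prop) (u v : σ →₀ ℕ) : Prop :=
  u.degree < v.degree ∨ (u.degree = v.degree ∧ ∃ s, v s < u s ∧ ∀ t, r t s → u t = v t)

/-- `u` is the leading monomial of `f` with respect to the order `lt` on monomials. -/
def IsLM {σ k : Type*} [CommSemiring k] (lt : (σ →₀ ℕ) → (σ →₀ ℕ) → Prop)
    (f : MvPolynomial σ k) (u : σ →₀ ℕ) : Prop :=
  u ∈ f.support ∧ ∀ v ∈ f.support, v ≠ u → lt v u

/-- `G` is a reduced Groebner basis of the ideal `I` with respect to the order `lt` on
monomials. -/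
structure IsReducedGB {σ k : Type*} [CommRing k] (lt : (σ →₀ ℕ) → (σ →₀ ℕ) → Prop)
    (I : Ideal (MvPolynomial σ k)) (G : Set (MvPolynomial σ k)) : Prop where
  /-- `G` is contained in `I` -/
  sub : ∀ g ∈ G, g ∈ I
  /-- all elements of `G` are monic -/
  monic : ∀ g ∈ G, ∃ u, IsLM lt g u ∧ g.coeff u = 1
  /-- the leading monomial of every nonzero element of `I` is divisible by that of an element
  of `G` -/
  basis : ∀ f ∈ I, f ≠ 0 → ∃ g ∈ G, ∃ u v, IsLM lt f u ∧ IsLM lt g v ∧ v ≤ u
  /-- no monomial of an element of `G` is divisible by the leading monomial of another one -/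
  reduced : ∀ g ∈ G, ∀ h ∈ G, h ≠ g → ∀ v, IsLM lt h v → ∀ u ∈ g.support, ¬ v ≤ u

section GRevLex

variable {σ : Type*} {r : σ → σ → Prop} [IsStrictTotalOrder σ r]

theorem GRevLex.irrefl (u : σ →₀ ℕ) : ¬ GRevLex r u u := by
  rintro (h | ⟨-, s, h, -⟩)
  · exact lt_irrefl _ h
  · exact lt_irrefl _ h

theorem GRevLex.trans {u v w : σ →₀ ℕ} (h1 : GRevLex r u v) (h2 : GRevLex r v w) :
    GRevLex r u w := by
  rcases h1 with h1 | ⟨d1, s1, l1, e1⟩
  · rcases h2 with h2 | ⟨d2, -⟩
    · exact Or.inl (h1.trans h2)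
    · exact Or.inl (d2 ▸ h1)
  · rcases h2 with h2 | ⟨d2, s2, l2, e2⟩
    · exact Or.inl (d1 ▸ h2)
    · refine Or.inr ⟨d1.trans d2, ?_⟩
      rcases trichotomous_of r s1 s2 with h | h | h
      · refine ⟨s1, ?_, fun t ht => ?_⟩
        · rw [← e2 s1 h]; exact l1
        · rw [e1 t ht, e2 t (trans_of r ht h)]
      · subst h
        exact ⟨s1, l2.trans l1, fun t ht => (e1 t ht).trans (e2 t ht)⟩
      · refine ⟨s2, ?_, fun t ht => ?_⟩
        · rw [e1 s2 h]; exact l2
        · rw [e1 t (trans_of r ht h), e2 t ht]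

theorem GRevLex.trichotomous (u v : σ →₀ ℕ) : GRevLex r u v ∨ u = v ∨ GRevLex r v u := by
  classical
  by_cases huv : u = v
  · exact Or.inr (Or.inl huv)
  rcases lt_trichotomy u.degree v.degree with h | h | h
  · exact Or.inl (Or.inl h)
  · have hne : ((Finsupp.neLocus u v : Finset σ) : Set σ).Nonempty := by
      rw [Finset.coe_nonempty, Finsupp.nonempty_neLocus_iff]
      exact huv
    have hwf : ((Finsupp.neLocus u v : Finset σ) : Set σ).WellFoundedOn r :=
      (Finset.finite_toSet _).wellFoundedOn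
    rw [Set.wellFoundedOn_iff] at hwf
    obtain ⟨s, hs, hmin⟩ := hwf.has_min _ hne
    have hmin' : ∀ t, r t s → u t = v t := by
      intro t ht
      by_contra hne
      have ht' : t ∈ ((Finsupp.neLocus u v : Finset σ) : Set σ) := by
        rw [Finset.mem_coe, Finsupp.mem_neLocus]; exact hne
      exact hmin t ht' ⟨ht, ht', hs⟩
    have hs' : u s ≠ v s := by
      rw [Finset.mem_coe, Finsupp.mem_neLocus] at hs; exact hs
    rcases lt_or_gt_of_ne hs' with h1 | h1
    · exact Or.inr (Or.inr (Or.inr ⟨h.symm, s, h1, fun t ht => (hmin' t ht).symm⟩))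
    · exact Or.inl (Or.inr ⟨h, s, h1, hmin'⟩)
  · exact Or.inr (Or.inr (Or.inl h))

theorem GRevLex.asymm {u v : σ →₀ ℕ} (h : GRevLex r u v) : ¬ GRevLex r v u :=
  fun h' => GRevLex.irrefl u (h.trans h')

theorem GRevLex.add_right {u v : σ →₀ ℕ} (h : GRevLex r u v) (w : σ →₀ ℕ) :
    GRevLex r (u + w) (v + w) := by
  rcases h with h | ⟨d, s, l, e⟩
  · left
    rw [map_add, map_add]
    omega
  · right
    refine ⟨by rw [map_add, map_add, d], s, ?_, fun t ht => ?_⟩
    · rw [Finsupp.add_apply, Finsupp.add_apply]; omega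
    · rw [Finsupp.add_apply, Finsupp.add_apply, e t ht]

theorem IsLM.unique {k : Type*} [CommSemiring k] {f : MvPolynomial σ k} {u v : σ →₀ ℕ}
    (h1 : IsLM (GRevLex r) f u) (h2 : IsLM (GRevLex r) f v) : u = v := by
  by_contra hne
  exact (h1.2 v h2.1 (Ne.symm hne)).asymm (h2.2 u h1.1 hne)

theorem exists_max (r : σ → σ → Prop) [IsStrictTotalOrder σ r] (S : Finset (σ →₀ ℕ))
    (hS : S.Nonempty) : ∃ u ∈ S, ∀ v ∈ S, v ≠ u → GRevLex r v u := by
  induction hS using Finset.Nonempty.cons_induction with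
  | singleton a => exact ⟨a, by simp, fun v hv hne => absurd (Finset.mem_singleton.1 hv) hne⟩
  | cons a s ha hs ih =>
    obtain ⟨u, hu, hmax⟩ := ih
    have hau : a ≠ u := fun h => ha (h ▸ hu)
    rcases GRevLex.trichotomous (r := r) a u with h | h | h
    · refine ⟨u, by simp [hu], fun v hv hne => ?_⟩
      rcases Finset.mem_cons.1 hv with rfl | hv
      · exact h
      · exact hmax v hv hne
    · exact absurd h hau
    · refine ⟨a, by simp, fun v hv hne => ?_⟩
      rcases Finset.mem_cons.1 hv with rfl | hv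
      · exact absurd rfl hne
      · by_cases hvu : v = u
        · rw [hvu]; exact h
        · exact (hmax v hv hvu).trans h

theorem exists_min (r : σ → σ → Prop) [IsStrictTotalOrder σ r] (S : Finset (σ →₀ ℕ))
    (hS : S.Nonempty) : ∃ u ∈ S, ∀ v ∈ S, v ≠ u → GRevLex r u v := by
  induction hS using Finset.Nonempty.cons_induction with
  | singleton a => exact ⟨a, by simp, fun v hv hne => absurd (Finset.mem_singleton.1 hv) hne⟩
  | cons a s ha hs ih =>
    obtain ⟨u, hu, hmin⟩ := ih
    have hau : a ≠ u := fun h => ha (h ▸ hu)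
    rcases GRevLex.trichotomous (r := r) a u with h | h | h
    · refine ⟨a, by simp, fun v hv hne => ?_⟩
      rcases Finset.mem_cons.1 hv with rfl | hv
      · exact absurd rfl hne
      · by_cases hvu : v = u
        · rw [hvu]; exact h
        · exact h.trans (hmin v hv hvu)
    · exact absurd h hau
    · refine ⟨u, by simp [hu], fun v hv hne => ?_⟩
      rcases Finset.mem_cons.1 hv with rfl | hv
      · exact h
      · exact hmin v hv hne

theorem exists_isLM (r : σ → σ → Prop) [IsStrictTotalOrder σ r] {k : Type*} [CommSemiring k]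
    (f : MvPolynomial σ k) (hf : f ≠ 0) : ∃ u, IsLM (GRevLex r) f u :=
  exists_max r f.support (by
    rwa [Finset.nonempty_iff_ne_empty, Ne, MvPolynomial.support_eq_empty])

end GRevLex

section Toric

variable {σ τ k : Type*} {r : σ → σ → Prop} [IsStrictTotalOrder σ r] [Finite σ] [CommRing k]
  [Nontrivial k]

/-- minimal in the fibre -/
def Std (r : σ → σ → Prop) (E : (σ →₀ ℕ) → (τ →₀ ℕ)) (u : σ →₀ ℕ) : Prop :=
  ∀ v, E v = E u → v ≠ u → GRevLex r u v

omit [Finite σ] in
theorem Std.unique {E : (σ →₀ ℕ) → (τ →₀ ℕ)} {u v : σ →₀ ℕ} (hu : Std r E u) (hv : Std r E v)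
    (h : E u = E v) : u = v := by
  by_contra hne
  exact (hu v h.symm (Ne.symm hne)).asymm (hv u h hne)

omit [Finite σ] in
theorem not_std_iff {E : (σ →₀ ℕ) → (τ →₀ ℕ)} {u : σ →₀ ℕ} :
    ¬ Std r E u ↔ ∃ v, E v = E u ∧ GRevLex r v u := by
  constructor
  · intro h
    unfold Std at h
    push Not at h
    obtain ⟨v, h1, h2, h3⟩ := h
    rcases GRevLex.trichotomous (r := r) u v with h | h | h
    · exact absurd h h3
    · exact absurd h.symm h2
    · exact ⟨v, h1, h⟩
  · rintro ⟨v, h1, h2⟩ h
    have hne : v ≠ u := by rintro rfl; exact GRevLex.irrefl _ h2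
    exact (h v h1 hne).asymm h2

omit [Finite σ] in
theorem Std.of_le {E : (σ →₀ ℕ) → (τ →₀ ℕ)} (hE : ∀ u v, E (u + v) = E u + E v)
    {u v : σ →₀ ℕ} (hv : Std r E v) (h : u ≤ v) : Std r E u := by
  by_contra hu
  rw [not_std_iff] at hu
  obtain ⟨w, h1, h2⟩ := hu
  apply not_std_iff.2 _ hv
  refine ⟨w + (v - u), ?_, ?_⟩
  · rw [hE, h1, ← hE, add_tsub_cancel_of_le h]
  · have := h2.add_right (v - u)
    rwa [add_tsub_cancel_of_le h] at this

theorem exists_std (r : σ → σ → Prop) [IsStrictTotalOrder σ r] {E : (σ →₀ ℕ) → (τ →₀ ℕ)}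
    (hdeg : ∀ u v, E u = E v → u.degree = v.degree) (u : σ →₀ ℕ) :
    ∃ v, E v = E u ∧ Std r E v := by
  classical
  have hfin : {v | E v = E u}.Finite := by
    have : {v : σ →₀ ℕ | E v = E u} ⊆
        Set.Iic (Finsupp.equivFunOnFinite.symm fun _ => u.degree) := by
      intro v hv
      rw [Set.mem_Iic]
      intro s
      rw [Finsupp.equivFunOnFinite_symm_apply_apply, ← hdeg v u hv]
      exact Finsupp.le_degree s v
    exact (Set.finite_Iic _).subset this
  obtain ⟨v, hv, hmin⟩ := exists_min r hfin.toFinset ⟨u, by simp⟩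
  rw [Set.Finite.mem_toFinset] at hv
  refine ⟨v, hv, fun w hw hne => hmin w ?_ hne⟩
  rw [Set.Finite.mem_toFinset]
  exact hw.trans hv

variable {π : MvPolynomial σ k →ₐ[k] MvPolynomial τ k} {E : (σ →₀ ℕ) → (τ →₀ ℕ)}

omit [Finite σ] [Nontrivial k] in
theorem exists_other (hπ : ∀ u c, π (monomial u c) = monomial (E u) c) {f : MvPolynomial σ k}
    (hf : π f = 0) {u : σ →₀ ℕ} (hu : u ∈ f.support) :
    ∃ v ∈ f.support, v ≠ u ∧ E v = E u := by
  classical
  by_contra hno
  push Not at hno
  have h1 : π f = ∑ v ∈ f.support, monomial (E v) (f.coeff v) := by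
    conv_lhs => rw [f.as_sum]
    rw [map_sum]
    exact Finset.sum_congr rfl fun v _ => hπ _ _
  have h2 : (π f).coeff (E u) = f.coeff u := by
    rw [h1, coeff_sum, Finset.sum_eq_single u]
    · rw [coeff_monomial, if_pos rfl]
    · intro v hv hne
      rw [coeff_monomial, if_neg (hno v hv hne)]
    · intro h
      exact absurd hu h
  rw [hf, coeff_zero] at h2
  exact (mem_support_iff.1 hu) h2.symm

omit [Finite σ] [Nontrivial k] in
theorem not_std_of_isLM (hπ : ∀ u c, π (monomial u c) = monomial (E u) c) {f : MvPolynomial σ k}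
    (hf : π f = 0) {u : σ →₀ ℕ} (hu : IsLM (GRevLex r) f u) : ¬ Std r E u := by
  obtain ⟨v, hv, hne, hE⟩ := exists_other hπ hf hu.1
  exact not_std_iff.2 ⟨v, hE, hu.2 v hv hne⟩

omit [Finite σ] in
theorem isLM_binomial {u v : σ →₀ ℕ} (h : GRevLex r v u) :
    IsLM (GRevLex r) (monomial u 1 - monomial v 1 : MvPolynomial σ k) u ∧
    (monomial u 1 - monomial v 1 : MvPolynomial σ k).coeff u = 1 := by
  classical
  have hne : v ≠ u := by rintro rfl; exact GRevLex.irrefl _ h
  have h1 : (monomial u 1 - monomial v 1 : MvPolynomial σ k).coeff u = 1 := by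
    rw [coeff_sub, coeff_monomial, coeff_monomial, if_pos rfl, if_neg hne, sub_zero]
  refine ⟨⟨?_, ?_⟩, h1⟩
  · rw [mem_support_iff, h1]; exact one_ne_zero
  · intro w hw hwu
    rw [mem_support_iff, coeff_sub, coeff_monomial, coeff_monomial, if_neg (Ne.symm hwu),
      zero_sub] at hw
    have : v = w := by
      by_contra hvw
      rw [if_neg hvw, neg_zero] at hw
      exact hw rfl
    rw [← this]
    exact h

omit [Finite σ] [Nontrivial k] [IsStrictTotalOrder σ r] in
theorem support_binomial {u v w : σ →₀ ℕ}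
    (h : w ∈ (monomial u 1 - monomial v 1 : MvPolynomial σ k).support) : w = u ∨ w = v := by
  classical
  by_contra hno
  push Not at hno
  rw [mem_support_iff, coeff_sub, coeff_monomial, coeff_monomial, if_neg (Ne.symm hno.1),
    if_neg (Ne.symm hno.2), sub_zero] at h
  exact h rfl

/-- The reduced Groebner basis. -/
def redGB (r : σ → σ → Prop) (k : Type*) [CommRing k] (E : (σ →₀ ℕ) → (τ →₀ ℕ)) :
    Set (MvPolynomial σ k) :=
  {g | ∃ u v, ¬ Std r E u ∧ (∀ w, w ≤ u → w ≠ u → Std r E w) ∧ Std r E v ∧ E v = E u ∧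
    g = monomial u 1 - monomial v 1}

theorem isReducedGB (hE : ∀ u v, E (u + v) = E u + E v)
    (hdeg : ∀ u v, E u = E v → u.degree = v.degree)
    (hπ : ∀ u c, π (monomial u c) = monomial (E u) c) :
    IsReducedGB (GRevLex r) (RingHom.ker π) (redGB r k E) := by
  have lmaux : ∀ u v, ¬ Std r E u → Std r E v → E v = E u → GRevLex r v u := by
    intro u v hu hv he
    have hne : u ≠ v := by rintro rfl; exact hu hv
    exact hv u he.symm hne
  constructor
  · rintro g ⟨u, v, hu, -, hv, he, rfl⟩
    rw [RingHom.mem_ker, map_sub, hπ, hπ, he, sub_self]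
  · rintro g ⟨u, v, hu, -, hv, he, rfl⟩
    exact ⟨u, isLM_binomial (lmaux u v hu hv he)⟩
  · intro f hf hf0
    obtain ⟨u, hu⟩ := exists_isLM r f hf0
    have hns : ¬ Std r E u := not_std_of_isLM hπ hf hu
    have : ∃ w, w ≤ u ∧ ¬ Std r E w ∧ ∀ x, x ≤ w → x ≠ w → Std r E x := by
      have hwf : ∀ d : ℕ, ∀ u : σ →₀ ℕ, u.degree = d → ¬ Std r E u →
          ∃ w, w ≤ u ∧ ¬ Std r E w ∧ ∀ x, x ≤ w → x ≠ w → Std r E x := by
        intro d
        induction d using Nat.strong_induction_on with
        | _ d ih =>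
          intro u hd hu
          by_cases h : ∀ x, x ≤ u → x ≠ u → Std r E x
          · exact ⟨u, le_refl u, hu, h⟩
          · push Not at h
            obtain ⟨x, hx1, hx2, hx3⟩ := h
            have hlt : x.degree < d := by
              rw [← hd]
              have h1 : u = x + (u - x) := (add_tsub_cancel_of_le hx1).symm
              have h2 : u - x ≠ 0 := by
                intro h0
                rw [h0, add_zero] at h1
                exact hx2 h1.symm
              have h3 : 0 < (u - x).degree := by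
                rw [Nat.pos_iff_ne_zero, Ne, Finsupp.degree_eq_zero_iff]
                exact h2
              rw [h1, map_add]
              omega
            obtain ⟨w, hw1, hw2, hw3⟩ := ih _ hlt x rfl hx3
            exact ⟨w, hw1.trans hx1, hw2, hw3⟩
      exact hwf _ u rfl hns
    obtain ⟨w, hw1, hw2, hw3⟩ := this
    obtain ⟨v, hv1, hv2⟩ := exists_std r hdeg w
    exact ⟨_, ⟨w, v, hw2, hw3, hv2, hv1, rfl⟩, u, w, hu,
      (isLM_binomial (lmaux w v hw2 hv2 hv1)).1, hw1⟩
  · rintro g ⟨u, v, hu, hmin, hv, he, rfl⟩ h ⟨u', v', hu', hmin', hv', he', rfl⟩ hne x hx y hy hxy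
    have e1 : x = u' := IsLM.unique hx (isLM_binomial (lmaux u' v' hu' hv' he')).1
    subst e1
    rcases support_binomial hy with rfl | rfl
    · by_cases hxu : x = y
      · subst hxu
        have : v' = v := hv'.unique hv (he'.trans he.symm)
        subst this
        exact hne rfl
      · exact hu' (hmin x hxy hxu)
    · exact hu' (hv.of_le hE hxy)

/-- Every reduced Groebner basis contains the binomial of a minimal nonstandard monomial. -/
theorem mem_of_isReducedGB (hE : ∀ u v, E (u + v) = E u + E v)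
    (hdeg : ∀ u v, E u = E v → u.degree = v.degree)
    (hπ : ∀ u c, π (monomial u c) = monomial (E u) c) {G : Set (MvPolynomial σ k)}
    (hG : IsReducedGB (GRevLex r) (RingHom.ker π) G) {u : σ →₀ ℕ} (hu : ¬ Std r E u)
    (hmin : ∀ w, w ≤ u → w ≠ u → Std r E w) :
    ∃ v, E v = E u ∧ Std r E v ∧ (monomial u 1 - monomial v 1 : MvPolynomial σ k) ∈ G := by
  classical
  obtain ⟨v, hv1, hv2⟩ := exists_std r hdeg u
  refine ⟨v, hv1, hv2, ?_⟩
  have hne : u ≠ v := by rintro rfl; exact hu hv2
  have hlt : GRevLex r v u := hv2 u hv1.symm hne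
  have hmem : (monomial u 1 - monomial v 1 : MvPolynomial σ k) ∈ RingHom.ker π := by
    rw [RingHom.mem_ker, map_sub, hπ, hπ, hv1, sub_self]
  have hb := isLM_binomial (k := k) hlt
  have hb0 : (monomial u 1 - monomial v 1 : MvPolynomial σ k) ≠ 0 := by
    intro h0
    rw [h0, coeff_zero] at hb
    exact zero_ne_one hb.2
  obtain ⟨g, hg, x, y, hx, hy, hyx⟩ := hG.basis _ hmem hb0
  have e1 : x = u := IsLM.unique hx hb.1
  subst e1
  have e2 : y = x := by
    by_contra hne'
    exact not_std_of_isLM hπ (hG.sub g hg) hy (hmin y hyx hne')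
  subst e2
  -- `y` is the leading monomial of `g`
  obtain ⟨y', hy', hc⟩ := hG.monic g hg
  have e3 : y' = y := IsLM.unique hy' hy
  subst e3
  -- all monomials of `g` except `y'` are standard
  have hstd : ∀ w ∈ g.support, w ≠ y' → Std r E w := by
    intro w hw hwne
    by_contra hns
    rw [not_std_iff] at hns
    obtain ⟨w', hw'1, hw'2⟩ := hns
    have hb2 := isLM_binomial (k := k) hw'2
    have hmem2 : (monomial w 1 - monomial w' 1 : MvPolynomial σ k) ∈ RingHom.ker π := by
      rw [RingHom.mem_ker, map_sub, hπ, hπ, hw'1, sub_self]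
    have hb02 : (monomial w 1 - monomial w' 1 : MvPolynomial σ k) ≠ 0 := by
      intro h0
      rw [h0, coeff_zero] at hb2
      exact zero_ne_one hb2.2
    obtain ⟨h, hh, a, b, ha, hb', hba⟩ := hG.basis _ hmem2 hb02
    have e4 : a = w := IsLM.unique ha hb2.1
    subst e4
    by_cases hhg : h = g
    · subst hhg
      have e5 : b = y' := IsLM.unique hb' hy'
      subst e5
      -- `b ≤ a` but `a` is smaller than `b`
      have h1 := hy'.2 a hw hwne
      have h2 : a = b + (a - b) := (add_tsub_cancel_of_le hba).symm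
      rcases h1 with h3 | ⟨h3, -⟩
      · rw [h2, map_add] at h3
        omega
      · rw [h2, map_add] at h3
        have h4 : (a - b).degree = 0 := by omega
        rw [Finsupp.degree_eq_zero_iff] at h4
        rw [h4, add_zero] at h2
        exact hwne h2
    · exact hG.reduced g hg h hh hhg b hb' a hw hba
  -- the difference
  have hdiff : g - (monomial y' 1 - monomial v 1) ∈ RingHom.ker π := by
    exact (RingHom.ker π).sub_mem (hG.sub g hg) hmem
  by_cases hz : g - (monomial y' 1 - monomial v 1 : MvPolynomial σ k) = 0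
  · rw [sub_eq_zero] at hz
    rw [← hz]
    exact hg
  · exfalso
    obtain ⟨w, hw⟩ := exists_isLM r _ hz
    apply not_std_of_isLM hπ hdiff hw
    have hw1 := hw.1
    rw [mem_support_iff, coeff_sub] at hw1
    by_cases hwy : w = y'
    · subst hwy
      rw [hc, hb.2, sub_self] at hw1
      exact absurd rfl hw1
    · by_cases hwg : w ∈ g.support
      · exact hstd w hwg hwy
      · rw [notMem_support_iff.1 hwg, zero_sub, neg_ne_zero] at hw1
        rcases support_binomial (mem_support_iff.2 hw1) with h | h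
        · exact absurd h hwy
        · rw [h]; exact hv2

end Toric

end Pool.Agent.R139.Toric
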