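import Mathlib
import Pool.Agent.R139.Toric

/-!
# The toric ideal of symmetric nonnegative integer matrices with line sums two
-/

set_option autoImplicit false

namespace Pool.Agent.R139.Sn

open MvPolynomial Pool.Agent.R139.Toric

/-- The lattice points of `S_n`: symmetric `n × n` matrices of nonnegative integers with all line
sums equal to `2`. -/
def LatticePoint (n : ℕ) : Type :=
  {M : Matrix (Fin n) (Fin n) ℕ // M.IsSymm ∧ ∀ i, ∑ j, M i j = 2}

/-- The number of entries equal to `2`. -/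
def numTwos {n : ℕ} (M : LatticePoint n) : ℕ :=
  (Finset.univ.filter fun p : Fin n × Fin n => M.1 p.1 p.2 = 2).card

/-- The map `π : T_{S_n} → k[x_ij, z]`, `t_M ↦ x^M z`; the variable `x_ij` is `X (some (i, j))`
and `z` is `X none`. -/
noncomputable def piMap (n : ℕ) (k : Type*) [CommRing k] :
    MvPolynomial (LatticePoint n) k →ₐ[k] MvPolynomial (Option (Fin n × Fin n)) k :=
  aeval fun M => (∏ i, ∏ j, X (some (i, j)) ^ M.1 i j) * X none

/-- The toric ideal `I_{S_n}`. -/
noncomputable def toricIdeal (n : ℕ) (k : Type*) [CommRing k] :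
    Ideal (MvPolynomial (LatticePoint n) k) :=
  RingHom.ker (piMap n k)

/-- The matrix `A` of the monomial `t^u`: the sum, with multiplicity, of the lattice points indexing
the variables of `t^u`. -/
def matrixOf {n : ℕ} (u : LatticePoint n →₀ ℕ) : Matrix (Fin n) (Fin n) ℕ :=
  fun i j => u.sum fun M c => c * M.1 i j

theorem entry_le {n : ℕ} (M : LatticePoint n) (i j : Fin n) : M.1 i j ≤ 2 := by
  have h := M.2.2 i
  refine le_trans ?_ h.le
  exact Finset.single_le_sum (f := fun j => M.1 i j) (fun _ _ => Nat.zero_le _) (Finset.mem_univ j)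

instance {n : ℕ} : Finite (LatticePoint n) := by
  have : Function.Injective (fun (M : LatticePoint n) (p : Fin n × Fin n) =>
      (⟨M.1 p.1 p.2, Nat.lt_succ_of_le (entry_le M p.1 p.2)⟩ : Fin 3)) := by
    intro M N h
    apply Subtype.ext
    ext i j
    have := congrFun h (i, j)
    exact congrArg Fin.val this
  exact Finite.of_injective _ this

/-- The exponent of `π (t^u)`. -/
noncomputable def expo {n : ℕ} (u : LatticePoint n →₀ ℕ) : Option (Fin n × Fin n) →₀ ℕ :=
  Finsupp.equivFunOnFinite.symm fun o => o.elim u.degree (fun p => matrixOf u p.1 p.2)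

theorem expo_add {n : ℕ} (u v : LatticePoint n →₀ ℕ) : expo (u + v) = expo u + expo v := by
  ext o
  rcases o with _ | p
  · simp [expo]
  · simp only [expo, Finsupp.equivFunOnFinite_symm_apply_apply, Finsupp.add_apply, Option.elim,
      matrixOf]
    exact Finsupp.sum_add_index' (by simp) (by intros; ring)

theorem expo_none {n : ℕ} (u : LatticePoint n →₀ ℕ) : expo u none = u.degree := rfl

theorem expo_some {n : ℕ} (u : LatticePoint n →₀ ℕ) (i j : Fin n) :
    expo u (some (i, j)) = matrixOf u i j := rfl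

theorem expo_deg {n : ℕ} (u v : LatticePoint n →₀ ℕ) (h : expo u = expo v) :
    u.degree = v.degree := by
  rw [← expo_none, ← expo_none, h]

theorem matrixOf_single {n : ℕ} (M : LatticePoint n) (c : ℕ) (i j : Fin n) :
    matrixOf (Finsupp.single M c) i j = c * M.1 i j := by
  simp [matrixOf]

theorem expo_zero {n : ℕ} : expo (0 : LatticePoint n →₀ ℕ) = 0 := by
  ext o
  rcases o with _ | p
  · rfl
  · rfl

theorem piMap_X {n : ℕ} (k : Type*) [CommRing k] (M : LatticePoint n) :
    piMap n k (X M) = monomial (expo (Finsupp.single M 1)) 1 := by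
  have h1 : (∏ i, ∏ j, X (some (i, j)) ^ M.1 i j) * X none =
      ∏ o : Option (Fin n × Fin n),
        (X o : MvPolynomial (Option (Fin n × Fin n)) k) ^ (expo (Finsupp.single M 1) o) := by
    rw [Fintype.prod_option, expo_none, mul_comm]
    congr 1
    · simp
    · rw [Fintype.prod_prod_type]
      refine Finset.prod_congr rfl fun i _ => Finset.prod_congr rfl fun j _ => ?_
      rw [expo_some, matrixOf_single, one_mul]
  unfold piMap
  rw [aeval_X, h1, MvPolynomial.monomial_eq, C_1, one_mul, Finsupp.prod_fintype]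
  intro i
  rw [pow_zero]

theorem piMap_monomial {n : ℕ} (k : Type*) [CommRing k] (u : LatticePoint n →₀ ℕ) (c : k) :
    piMap n k (monomial u c) = monomial (expo u) c := by
  have h1 : piMap n k (monomial u 1) = monomial (expo u) 1 := by
    induction u using Finsupp.induction with
    | zero => rw [expo_zero]; exact map_one _
    | single_add M b f hM hb ih =>
      rw [expo_add, ← one_mul (1 : k), ← MvPolynomial.monomial_mul, ← MvPolynomial.monomial_mul,
        map_mul, ih]
      congr 1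
      clear hb
      induction b with
      | zero => rw [Finsupp.single_zero, expo_zero]; exact map_one _
      | succ b ihb =>
        rw [Finsupp.single_add, expo_add, ← one_mul (1 : k), ← MvPolynomial.monomial_mul,
          ← MvPolynomial.monomial_mul, map_mul, ihb]
        congr 1
        exact piMap_X k M
  have h2 : ∀ (σ : Type) (w : σ →₀ ℕ), (monomial w c : MvPolynomial σ k) = c • monomial w 1 := by
    intro σ w
    rw [smul_monomial, smul_eq_mul, mul_one]
  rw [show (monomial u c : MvPolynomial (LatticePoint n) k) = c • monomial u 1 by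
    rw [smul_monomial, smul_eq_mul, mul_one], map_smul, h1, smul_monomial, smul_eq_mul, mul_one]

/-! ### Matrices supported on a `3 × 3` block -/

section Block

variable {m : ℕ}

/-- entries of the block matrices -/
def blk (a b c : ℕ) : ℕ → ℕ → ℕ
  | 0, 0 => 2 - a - b
  | 0, 1 => a
  | 0, 2 => b
  | 0, _ + 3 => 0
  | 1, 0 => a
  | 1, 1 => 2 - a - c
  | 1, 2 => c
  | 1, _ + 3 => 0
  | 2, 0 => b
  | 2, 1 => c
  | 2, 2 => 2 - b - c
  | 2, _ + 3 => 0
  | _ + 3, 0 => 0
  | _ + 3, 1 => 0
  | _ + 3, 2 => 0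
  | i + 3, j + 3 => if i = j then 2 else 0

theorem blk_symm (a b c : ℕ) : ∀ i j, blk a b c i j = blk a b c j i
  | 0, 0 => rfl
  | 0, 1 => rfl
  | 0, 2 => rfl
  | 0, _ + 3 => rfl
  | 1, 0 => rfl
  | 1, 1 => rfl
  | 1, 2 => rfl
  | 1, _ + 3 => rfl
  | 2, 0 => rfl
  | 2, 1 => rfl
  | 2, 2 => rfl
  | 2, _ + 3 => rfl
  | _ + 3, 0 => rfl
  | _ + 3, 1 => rfl
  | _ + 3, 2 => rfl
  | i + 3, j + 3 => by
    simp only [blk]
    by_cases h : i = j
    · subst h; rfl
    · rw [if_neg h, if_neg (Ne.symm h)]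

theorem blk_sum {a b c : ℕ} (h1 : a + b ≤ 2) (h2 : a + c ≤ 2) (h3 : b + c ≤ 2)
    (i : Fin (m + 4)) : ∑ j : Fin (m + 4), blk a b c i j = 2 := by
  rw [Fin.sum_univ_eq_sum_range (fun j => blk a b c i j) (m + 4), Finset.sum_range_succ',
    Finset.sum_range_succ', Finset.sum_range_succ']
  obtain ⟨i, hi⟩ := i
  match i, hi with
  | 0, _ => simp only [blk, Finset.sum_const_zero]; omega
  | 1, _ => simp only [blk, Finset.sum_const_zero]; omega
  | 2, _ => simp only [blk, Finset.sum_const_zero]; omega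
  | i + 3, hi =>
    simp only [blk]
    rw [Finset.sum_ite_eq, if_pos (Finset.mem_range.2 (by omega))]

/-- The lattice point with off-diagonal entries `a, b, c` in the positions `(0,1), (0,2), (1,2)`
and no other nonzero off-diagonal entries. -/
def pt (m a b c : ℕ) (h1 : a + b ≤ 2) (h2 : a + c ≤ 2) (h3 : b + c ≤ 2) : LatticePoint (m + 4) :=
  ⟨fun i j => blk a b c i j, by
    constructor
    · ext i j
      exact blk_symm a b c j i
    · exact blk_sum h1 h2 h3⟩

theorem pt_apply (m a b c : ℕ) (h1 : a + b ≤ 2) (h2 : a + c ≤ 2) (h3 : b + c ≤ 2)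
    (i j : Fin (m + 4)) : (pt m a b c h1 h2 h3).1 i j = blk a b c i j := rfl

theorem blk_off (a b c : ℕ) : ∀ i j, i ≠ j → 3 ≤ j → blk a b c i j = 0
  | _, 0 => fun _ h => by omega
  | _, 1 => fun _ h => by omega
  | _, 2 => fun _ h => by omega
  | 0, _ + 3 => fun _ _ => rfl
  | 1, _ + 3 => fun _ _ => rfl
  | 2, _ + 3 => fun _ _ => rfl
  | i + 3, j + 3 => fun h _ => by
    simp only [blk]
    rw [if_neg (by omega)]

theorem ext_offdiag {n : ℕ} {M N : LatticePoint n} (h : ∀ i j, i < j → M.1 i j = N.1 i j) :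
    M = N := by
  have h1 : ∀ i j, i ≠ j → M.1 i j = N.1 i j := by
    intro i j hij
    rcases lt_or_gt_of_ne hij with h2 | h2
    · exact h i j h2
    · rw [← M.2.1.apply i j, ← N.2.1.apply i j]
      exact h j i h2
  apply Subtype.ext
  ext i j
  by_cases hij : i = j
  · subst hij
    have e1 := M.2.2 i
    have e2 := N.2.2 i
    rw [← Finset.add_sum_erase _ _ (Finset.mem_univ i)] at e1 e2
    have e3 : ∑ j ∈ Finset.univ.erase i, M.1 i j = ∑ j ∈ Finset.univ.erase i, N.1 i j :=
      Finset.sum_congr rfl fun j hj => h1 i j (Ne.symm (Finset.ne_of_mem_erase hj))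
    omega
  · exact h1 i j hij

theorem row_le (M : LatticePoint (m + 4)) (i j l : Fin (m + 4)) (hjl : j ≠ l) :
    M.1 i j + M.1 i l ≤ 2 := by
  have h := M.2.2 i
  have h2 : ∑ x ∈ ({j, l} : Finset (Fin (m + 4))), M.1 i x ≤ ∑ x, M.1 i x :=
    Finset.sum_le_sum_of_subset (Finset.subset_univ _)
  rw [Finset.sum_pair hjl] at h2
  omega

/-- A lattice point without nonzero off-diagonal entries outside the block. -/
theorem eq_pt (M : LatticePoint (m + 4)) (h : ∀ i j : Fin (m + 4), i ≠ j → 3 ≤ j.1 → M.1 i j = 0) :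
    ∃ h1 h2 h3, M = pt m (M.1 0 1) (M.1 0 2) (M.1 1 2) h1 h2 h3 := by
  have v2 : (2 : Fin (m + 4)).val = 2 := Nat.mod_eq_of_lt (show 2 < m + 4 by omega)
  have v1 : (1 : Fin (m + 4)).val = 1 := Nat.mod_eq_of_lt (show 1 < m + 4 by omega)
  have n01 : (0 : Fin (m + 4)) ≠ 1 := by
    intro h; have := congrArg Fin.val h; rw [v1] at this; simp at this
  have n02 : (0 : Fin (m + 4)) ≠ 2 := by
    intro h; have := congrArg Fin.val h; rw [v2] at this; simp at this
  have n12 : (1 : Fin (m + 4)) ≠ 2 := by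
    intro h; have := congrArg Fin.val h; rw [v1, v2] at this; simp at this
  refine ⟨row_le M 0 1 2 n12, ?_, ?_, ?_⟩
  · have := row_le M 1 0 2 n02
    rwa [M.2.1.apply 0 1] at this
  · have := row_le M 2 0 1 n01
    rwa [M.2.1.apply 0 2, M.2.1.apply 1 2] at this
  · apply ext_offdiag
    intro i j hij
    rw [pt_apply]
    by_cases hj : 3 ≤ j.1
    · rw [h i j hij.ne hj, blk_off _ _ _ _ _ (fun h => hij.ne (Fin.ext h)) hj]
    · obtain ⟨i, hi⟩ := i
      obtain ⟨j, hj'⟩ := j
      rw [Fin.mk_lt_mk] at hij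
      have h3 : (i = 0 ∧ j = 1) ∨ (i = 0 ∧ j = 2) ∨ (i = 1 ∧ j = 2) := by
        simp only at hj; omega
      rcases h3 with ⟨rfl, rfl⟩ | ⟨rfl, rfl⟩ | ⟨rfl, rfl⟩
      · rfl
      · rfl
      · rfl

theorem exists_pair {n : ℕ} (v : LatticePoint n →₀ ℕ) (hv : v.degree = 2) :
    ∃ M N, v = Finsupp.single M 1 + Finsupp.single N 1 := by
  classical
  have h1 : (Finsupp.toMultiset v).card = 2 := by
    rw [Finsupp.card_toMultiset]
    exact hv
  rw [Multiset.card_eq_two] at h1
  obtain ⟨M, N, h⟩ := h1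
  refine ⟨M, N, ?_⟩
  rw [← Finsupp.toMultiset_toFinsupp v, h, Multiset.insert_eq_cons, ← Multiset.singleton_add,
    Multiset.toFinsupp_add, Multiset.toFinsupp_singleton, Multiset.toFinsupp_singleton]

theorem matrixOf_add {n : ℕ} (u v : LatticePoint n →₀ ℕ) (i j : Fin n) :
    matrixOf (u + v) i j = matrixOf u i j + matrixOf v i j := by
  have := congrArg (fun f => f (some (i, j))) (expo_add u v)
  exact this

theorem fiber_pair {p q s p' q' s' : ℕ} {h1 h2 h3 h1' h2' h3'} {v : LatticePoint (m + 4) →₀ ℕ}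
    (hv : expo v = expo (Finsupp.single (pt m p q s h1 h2 h3) 1 +
      Finsupp.single (pt m p' q' s' h1' h2' h3') 1)) :
    ∃ a b c g1 g2 g3 a' b' c' g1' g2' g3',
      v = Finsupp.single (pt m a b c g1 g2 g3) 1 + Finsupp.single (pt m a' b' c' g1' g2' g3') 1 ∧
      a + a' = p + p' ∧ b + b' = q + q' ∧ c + c' = s + s' := by
  have hd : v.degree = 2 := by
    rw [expo_deg _ _ hv]
    simp
  obtain ⟨M, N, rfl⟩ := exists_pair v hd
  have hMN : ∀ i j : Fin (m + 4), M.1 i j + N.1 i j = blk p q s i j + blk p' q' s' i j := by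
    intro i j
    have := congrArg (fun f => f (some (i, j))) hv
    simp only [expo_some, matrixOf_add, matrixOf_single, one_mul, pt_apply] at this
    exact this
  have hM : ∀ i j : Fin (m + 4), i ≠ j → 3 ≤ j.1 → M.1 i j = 0 := by
    intro i j hij hj
    have := hMN i j
    rw [blk_off _ _ _ _ _ (fun h => hij (Fin.ext h)) hj,
      blk_off _ _ _ _ _ (fun h => hij (Fin.ext h)) hj] at this
    omega
  have hN : ∀ i j : Fin (m + 4), i ≠ j → 3 ≤ j.1 → N.1 i j = 0 := by
    intro i j hij hj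
    have := hMN i j
    rw [blk_off _ _ _ _ _ (fun h => hij (Fin.ext h)) hj,
      blk_off _ _ _ _ _ (fun h => hij (Fin.ext h)) hj] at this
    omega
  obtain ⟨g1, g2, g3, e1⟩ := eq_pt M hM
  obtain ⟨g1', g2', g3', e2⟩ := eq_pt N hN
  refine ⟨M.1 0 1, M.1 0 2, M.1 1 2, g1, g2, g3, N.1 0 1, N.1 0 2, N.1 1 2, g1', g2', g3', ?_,
    ?_, ?_, ?_⟩
  · rw [← e1, ← e2]
  · exact hMN 0 1
  · exact hMN 0 2
  · exact hMN 1 2

theorem grevlex_of_forall {σ : Type*} {r : σ → σ → Prop} [IsStrictTotalOrder σ r]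
    {u v : σ →₀ ℕ} (h : u.degree = v.degree) (P : σ) (hP : u P ≠ 0)
    (hv : ∀ M, v M ≠ 0 → r P M) : GRevLex r u v := by
  rcases GRevLex.trichotomous (r := r) u v with h1 | h1 | h1
  · exact h1
  · subst h1
    exact absurd (hv P hP) (irrefl_of r P)
  · rcases h1 with h1 | ⟨-, s, h1, h2⟩
    · omega
    · have h3 : r P s := hv s (by omega)
      have h4 : v P ≠ 0 := by rw [h2 P h3]; exact hP
      exact absurd (hv P h4) (irrefl_of r P)

theorem numTwos_lt {a b c a' b' c' : ℕ} {h1 h2 h3 h1' h2' h3'} (e01 : a' = 2 → a = 2)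
    (e02 : b' = 2 → b = 2) (e12 : c' = 2 → c = 2) (e00 : 2 - a' - b' = 2 → 2 - a - b = 2)
    (e11 : 2 - a' - c' = 2 → 2 - a - c = 2) (e22 : 2 - b' - c' = 2 → 2 - b - c = 2)
    (hne : (a = 2 ∧ a' ≠ 2) ∨ (b = 2 ∧ b' ≠ 2) ∨ (c = 2 ∧ c' ≠ 2) ∨
      (2 - a - b = 2 ∧ 2 - a' - b' ≠ 2) ∨ (2 - a - c = 2 ∧ 2 - a' - c' ≠ 2)) :
    numTwos (pt m a' b' c' h1' h2' h3') < numTwos (pt m a b c h1 h2 h3) := by
  apply Finset.card_lt_card
  have hsub : ∀ i j, blk a' b' c' i j = 2 → blk a b c i j = 2 := by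
    intro i j
    match i, j with
    | 0, 0 => exact e00
    | 0, 1 => exact e01
    | 0, 2 => exact e02
    | 0, _ + 3 => exact id
    | 1, 0 => exact e01
    | 1, 1 => exact e11
    | 1, 2 => exact e12
    | 1, _ + 3 => exact id
    | 2, 0 => exact e02
    | 2, 1 => exact e12
    | 2, 2 => exact e22
    | 2, _ + 3 => exact id
    | _ + 3, 0 => exact id
    | _ + 3, 1 => exact id
    | _ + 3, 2 => exact id
    | _ + 3, _ + 3 => exact id
  rw [Finset.ssubset_iff_of_subset]
  · rcases hne with h | h | h | h | h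
    · refine ⟨(0, 1), ?_, ?_⟩
      · rw [Finset.mem_filter]; exact ⟨Finset.mem_univ _, h.1⟩
      · rw [Finset.mem_filter, not_and]; exact fun _ => h.2
    · refine ⟨(0, 2), ?_, ?_⟩
      · rw [Finset.mem_filter]; exact ⟨Finset.mem_univ _, h.1⟩
      · rw [Finset.mem_filter, not_and]; exact fun _ => h.2
    · refine ⟨(1, 2), ?_, ?_⟩
      · rw [Finset.mem_filter]; exact ⟨Finset.mem_univ _, h.1⟩
      · rw [Finset.mem_filter, not_and]; exact fun _ => h.2
    · refine ⟨(0, 0), ?_, ?_⟩
      · rw [Finset.mem_filter]; exact ⟨Finset.mem_univ _, h.1⟩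
      · rw [Finset.mem_filter, not_and]; exact fun _ => h.2
    · refine ⟨(1, 1), ?_, ?_⟩
      · rw [Finset.mem_filter]; exact ⟨Finset.mem_univ _, h.1⟩
      · rw [Finset.mem_filter, not_and]; exact fun _ => h.2
  · intro p hp
    rw [Finset.mem_filter] at hp ⊢
    exact ⟨Finset.mem_univ _, hsub _ _ hp.2⟩

/-- The total orders `<_{S_n}` on the lattice points: strict total orders `r` (`r M N` means
`M < N`) such that `M < N` whenever `M` has more entries equal to `2` than `N`. -/
structure IsSnOrder {n : ℕ} (r : LatticePoint n → LatticePoint n → Prop) : Prop where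
  /-- `r` is a strict total order -/
  total : IsStrictTotalOrder (LatticePoint n) r
  /-- points with more entries equal to `2` are smaller -/
  twos : ∀ M N, numTwos N < numTwos M → r M N

theorem exists_order (n : ℕ) : ∃ r : LatticePoint n → LatticePoint n → Prop, IsSnOrder r := by
  obtain ⟨N, ⟨e⟩⟩ := Finite.exists_equiv_fin (LatticePoint n)
  refine ⟨fun M M' => numTwos M' < numTwos M ∨ (numTwos M' = numTwos M ∧ e M < e M'), ?_, ?_⟩
  · refine { trichotomous := ?_, irrefl := ?_, trans := ?_ }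
    · intro a b h1 h2
      push Not at h1 h2
      have h3 : numTwos b = numTwos a := le_antisymm h2.1 h1.1
      exact e.injective (le_antisymm (h2.2 h3.symm) (h1.2 h3))
    · intro a h
      rcases h with h | h
      · exact lt_irrefl _ h
      · exact lt_irrefl _ h.2
    · intro a b c h1 h2
      rcases h1 with h1 | h1
      · rcases h2 with h2 | h2
        · exact Or.inl (h2.trans h1)
        · exact Or.inl (by rw [h2.1]; exact h1)
      · rcases h2 with h2 | h2
        · exact Or.inl (by rw [← h1.1]; exact h2)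
        · exact Or.inr ⟨h2.1.trans h1.1, h1.2.trans h2.2⟩
  · intro M M' h
    exact Or.inl h

theorem three_le {σ : Type*} {A B D : σ} {w : σ →₀ ℕ}
    (hw : w ≤ Finsupp.single A 1 + Finsupp.single B 1 + Finsupp.single D 1)
    (hne : w ≠ Finsupp.single A 1 + Finsupp.single B 1 + Finsupp.single D 1) :
    w ≤ Finsupp.single B 1 + Finsupp.single D 1 ∨ w ≤ Finsupp.single A 1 + Finsupp.single D 1 ∨
      w ≤ Finsupp.single A 1 + Finsupp.single B 1 := by
  classical
  set u := Finsupp.single A 1 + Finsupp.single B 1 + Finsupp.single D 1 with hu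
  have h1 : ∃ s, w s < u s := by
    by_contra h
    push Not at h
    exact hne (le_antisymm hw h)
  obtain ⟨s, hs⟩ := h1
  have h2 : w ≤ u - Finsupp.single s 1 := by
    intro t
    rw [Finsupp.tsub_apply, Finsupp.single_apply]
    by_cases h : s = t
    · subst h
      rw [if_pos rfl]
      omega
    · rw [if_neg h]
      exact hw t
  have h3 : s = A ∨ s = B ∨ s = D := by
    by_contra h
    push Not at h
    have : u s = 0 := by
      rw [hu, Finsupp.add_apply, Finsupp.add_apply, Finsupp.single_apply, Finsupp.single_apply,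
        Finsupp.single_apply, if_neg (Ne.symm h.1), if_neg (Ne.symm h.2.1),
        if_neg (Ne.symm h.2.2), add_zero, add_zero]
    omega
  rcases h3 with rfl | rfl | rfl
  · left
    rwa [hu, add_assoc, add_tsub_cancel_left] at h2
  · right; left
    rwa [hu, add_comm (Finsupp.single A 1), add_assoc, add_tsub_cancel_left] at h2
  · right; right
    rwa [hu, add_tsub_cancel_right] at h2

section Main

variable {r : LatticePoint (m + 4) → LatticePoint (m + 4) → Prop}

theorem pair_forall {σ : Type*} {A B : σ} {P : σ → Prop} (hA : P A) (hB : P B) :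
    ∀ M, (Finsupp.single A 1 + Finsupp.single B 1 : σ →₀ ℕ) M ≠ 0 → P M := by
  classical
  intro M hM
  rw [Finsupp.add_apply, Finsupp.single_apply, Finsupp.single_apply] at hM
  by_cases h1 : A = M
  · rwa [← h1]
  · by_cases h2 : B = M
    · rwa [← h2]
    · rw [if_neg h1, if_neg h2] at hM
      exact absurd rfl hM

theorem pair_ne {σ : Type*} {A B : σ} :
    (Finsupp.single A 1 + Finsupp.single B 1 : σ →₀ ℕ) A ≠ 0 := by
  classical
  rw [Finsupp.add_apply, Finsupp.single_apply, if_pos rfl]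
  omega

theorem arith_TT {p q s p' q' s' a b c a' b' c' : ℕ}
    (h : (p = 2 ∧ q = 0 ∧ s = 0 ∧ p' = 0 ∧ q' = 2 ∧ s' = 0) ∨
      (p = 2 ∧ q = 0 ∧ s = 0 ∧ p' = 0 ∧ q' = 0 ∧ s' = 2) ∨
      (p = 0 ∧ q = 2 ∧ s = 0 ∧ p' = 0 ∧ q' = 0 ∧ s' = 2))
    (g1 : a + b ≤ 2) (g2 : a + c ≤ 2) (g3 : b + c ≤ 2) (g1' : a' + b' ≤ 2) (g2' : a' + c' ≤ 2)
    (g3' : b' + c' ≤ 2) (e1 : a + a' = p + p') (e2 : b + b' = q + q') (e3 : c + c' = s + s') :
    (a = p ∧ b = q ∧ c = s ∧ a' = p' ∧ b' = q' ∧ c' = s') ∨
      (a = p' ∧ b = q' ∧ c = s' ∧ a' = p ∧ b' = q ∧ c' = s) ∨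
      (((a = 1 ∧ b = 1 ∧ c = 0) ∨ (a = 1 ∧ b = 0 ∧ c = 1) ∨ (a = 0 ∧ b = 1 ∧ c = 1)) ∧
      a' = a ∧ b' = b ∧ c' = c) := by
  rcases h with ⟨rfl, rfl, rfl, rfl, rfl, rfl⟩ | ⟨rfl, rfl, rfl, rfl, rfl, rfl⟩ |
    ⟨rfl, rfl, rfl, rfl, rfl, rfl⟩
  · obtain rfl : c = 0 := by omega
    obtain rfl : c' = 0 := by omega
    have : a = 0 ∨ a = 1 ∨ a = 2 := by omega
    rcases this with rfl | rfl | rfl
    · right; left
      refine ⟨rfl, ?_, rfl, ?_, ?_, rfl⟩ <;> omega
    · right; right
      refine ⟨Or.inl ⟨rfl, ?_, rfl⟩, ?_, ?_, rfl⟩ <;> omega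
    · left
      refine ⟨rfl, ?_, rfl, ?_, ?_, rfl⟩ <;> omega
  · obtain rfl : b = 0 := by omega
    obtain rfl : b' = 0 := by omega
    have : a = 0 ∨ a = 1 ∨ a = 2 := by omega
    rcases this with rfl | rfl | rfl
    · right; left
      refine ⟨rfl, rfl, ?_, ?_, rfl, ?_⟩ <;> omega
    · right; right
      refine ⟨Or.inr (Or.inl ⟨rfl, rfl, ?_⟩), ?_, rfl, ?_⟩ <;> omega
    · left
      refine ⟨rfl, rfl, ?_, ?_, rfl, ?_⟩ <;> omega
  · obtain rfl : a = 0 := by omega
    obtain rfl : a' = 0 := by omega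
    have : b = 0 ∨ b = 1 ∨ b = 2 := by omega
    rcases this with rfl | rfl | rfl
    · right; left
      refine ⟨rfl, rfl, ?_, rfl, ?_, ?_⟩ <;> omega
    · right; right
      refine ⟨Or.inr (Or.inr ⟨rfl, rfl, ?_⟩), rfl, ?_, ?_⟩ <;> omega
    · left
      refine ⟨rfl, rfl, ?_, rfl, ?_, ?_⟩ <;> omega

/-- `T_a T_b` is standard. -/
theorem std_TT (hr : IsSnOrder r) {p q s p' q' s' : ℕ} {h1 h2 h3 h1' h2' h3'}
    (h : (p = 2 ∧ q = 0 ∧ s = 0 ∧ p' = 0 ∧ q' = 2 ∧ s' = 0) ∨
      (p = 2 ∧ q = 0 ∧ s = 0 ∧ p' = 0 ∧ q' = 0 ∧ s' = 2) ∨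
      (p = 0 ∧ q = 2 ∧ s = 0 ∧ p' = 0 ∧ q' = 0 ∧ s' = 2)) :
    Std r expo (Finsupp.single (pt m p q s h1 h2 h3) 1 +
      Finsupp.single (pt m p' q' s' h1' h2' h3') 1) := by
  have := hr.total
  intro v hv hne
  obtain ⟨a, b, c, g1, g2, g3, a', b', c', g1', g2', g3', hv', e1, e2, e3⟩ := fiber_pair hv
  have hdeg := (expo_deg _ _ hv).symm
  rcases arith_TT h g1 g2 g3 g1' g2' g3' e1 e2 e3 with h4 | h4 | h4
  · obtain ⟨rfl, rfl, rfl, rfl, rfl, rfl⟩ := h4
    exact absurd hv' hne
  · obtain ⟨rfl, rfl, rfl, rfl, rfl, rfl⟩ := h4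
    exact absurd (hv'.trans (add_comm _ _)) hne
  obtain ⟨h4, rfl, rfl, rfl⟩ := h4
  rw [hv']
  rw [hv'] at hdeg
  have key : r (pt m p q s h1 h2 h3) (pt m a' b' c' g1 g2 g3) := by
    apply hr.twos
    clear hdeg hv' hne hv
    apply numTwos_lt <;> omega
  exact grevlex_of_forall hdeg _ pair_ne (pair_forall key key)

/-- `(2I) C` is standard. -/
theorem std_IC (hr : IsSnOrder r) :
    Std r expo (Finsupp.single (pt m 0 0 0 (by omega) (by omega) (by omega)) 1 +
      Finsupp.single (pt m 1 1 1 (by omega) (by omega) (by omega)) 1) := by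
  have := hr.total
  intro v hv hne
  obtain ⟨a, b, c, g1, g2, g3, a', b', c', g1', g2', g3', hv', e1, e2, e3⟩ := fiber_pair hv
  have hdeg := (expo_deg _ _ hv).symm
  have h0 : ¬ ((a = 0 ∧ b = 0 ∧ c = 0 ∧ a' = 1 ∧ b' = 1 ∧ c' = 1) ∨
      (a = 1 ∧ b = 1 ∧ c = 1 ∧ a' = 0 ∧ b' = 0 ∧ c' = 0)) := by
    rintro (⟨rfl, rfl, rfl, rfl, rfl, rfl⟩ | ⟨rfl, rfl, rfl, rfl, rfl, rfl⟩)
    · exact hne hv'
    · exact hne (hv'.trans (add_comm _ _))
  rw [hv']
  rw [hv'] at hdeg
  have key : r (pt m 0 0 0 (by omega) (by omega) (by omega)) (pt m a b c g1 g2 g3) := by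
    apply hr.twos
    clear hdeg hv' hne hv
    apply numTwos_lt <;> omega
  have key' : r (pt m 0 0 0 (by omega) (by omega) (by omega)) (pt m a' b' c' g1' g2' g3') := by
    apply hr.twos
    clear hdeg hv' hne hv
    apply numTwos_lt <;> omega
  exact grevlex_of_forall hdeg _ pair_ne (pair_forall key key')

/-- `C C` is standard. -/
theorem std_CC (hr : IsSnOrder r) :
    Std r expo (Finsupp.single (pt m 1 1 1 (by omega) (by omega) (by omega)) 1 +
      Finsupp.single (pt m 1 1 1 (by omega) (by omega) (by omega)) 1) := by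
  have := hr.total
  intro v hv hne
  obtain ⟨a, b, c, g1, g2, g3, a', b', c', g1', g2', g3', hv', e1, e2, e3⟩ := fiber_pair hv
  exfalso
  have h0 : a = 1 ∧ b = 1 ∧ c = 1 ∧ a' = 1 ∧ b' = 1 ∧ c' = 1 := by omega
  obtain ⟨rfl, rfl, rfl, rfl, rfl, rfl⟩ := h0
  exact hne hv'

theorem blk_cubic : ∀ i j, blk 0 0 2 i j + blk 0 2 0 i j + blk 2 0 0 i j =
    blk 0 0 0 i j + blk 1 1 1 i j + blk 1 1 1 i j
  | 0, 0 => rfl
  | 0, 1 => rfl
  | 0, 2 => rfl
  | 0, _ + 3 => rfl
  | 1, 0 => rfl
  | 1, 1 => rfl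
  | 1, 2 => rfl
  | 1, _ + 3 => rfl
  | 2, 0 => rfl
  | 2, 1 => rfl
  | 2, 2 => rfl
  | 2, _ + 3 => rfl
  | _ + 3, 0 => rfl
  | _ + 3, 1 => rfl
  | _ + 3, 2 => rfl
  | i + 3, j + 3 => by simp only [blk]

/-- `T_0 T_1 T_2` -/
noncomputable def monT (m : ℕ) : LatticePoint (m + 4) →₀ ℕ :=
  Finsupp.single (pt m 0 0 2 (by omega) (by omega) (by omega)) 1 +
    Finsupp.single (pt m 0 2 0 (by omega) (by omega) (by omega)) 1 +
    Finsupp.single (pt m 2 0 0 (by omega) (by omega) (by omega)) 1

/-- `(2I) C C` -/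
noncomputable def monC (m : ℕ) : LatticePoint (m + 4) →₀ ℕ :=
  Finsupp.single (pt m 0 0 0 (by omega) (by omega) (by omega)) 1 +
    Finsupp.single (pt m 1 1 1 (by omega) (by omega) (by omega)) 1 +
    Finsupp.single (pt m 1 1 1 (by omega) (by omega) (by omega)) 1

theorem matrixOf_monT (i j : Fin (m + 4)) : matrixOf (monT m) i j =
    blk 0 0 2 i j + blk 0 2 0 i j + blk 2 0 0 i j := by
  simp only [monT, matrixOf_add, matrixOf_single, pt_apply, one_mul]

theorem matrixOf_monC (i j : Fin (m + 4)) : matrixOf (monC m) i j =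
    blk 0 0 2 i j + blk 0 2 0 i j + blk 2 0 0 i j := by
  rw [blk_cubic]
  simp only [monC, matrixOf_add, matrixOf_single, pt_apply, one_mul]

theorem expo_monT_eq : expo (monT m) = expo (monC m) := by
  ext o
  rcases o with _ | ⟨i, j⟩
  · simp [expo_none, monT, monC]
  · rw [expo_some, expo_some, matrixOf_monT, matrixOf_monC]

theorem three_forall {σ : Type*} {A B D : σ} {P : σ → Prop} (hA : P A) (hB : P B) (hD : P D) :
    ∀ M, (Finsupp.single A 1 + Finsupp.single B 1 + Finsupp.single D 1 : σ →₀ ℕ) M ≠ 0 →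
      P M := by
  classical
  intro M hM
  rw [Finsupp.add_apply, Finsupp.add_apply, Finsupp.single_apply, Finsupp.single_apply,
    Finsupp.single_apply] at hM
  by_cases h1 : A = M
  · rwa [← h1]
  · by_cases h2 : B = M
    · rwa [← h2]
    · by_cases h3 : D = M
      · rwa [← h3]
      · rw [if_neg h1, if_neg h2, if_neg h3] at hM
        exact absurd rfl hM

/-- A cubic minimal generator of the initial ideal. -/
theorem exists_cubic (hr : IsSnOrder r) : ∃ u : LatticePoint (m + 4) →₀ ℕ, u.degree = 3 ∧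
    (∀ i j, matrixOf u i j = blk 0 0 2 i j + blk 0 2 0 i j + blk 2 0 0 i j) ∧
    ¬ Std r expo u ∧ ∀ w, w ≤ u → w ≠ u → Std r expo w := by
  have := hr.total
  by_cases hcase : r (pt m 0 0 0 (by omega) (by omega) (by omega))
      (pt m 0 0 2 (by omega) (by omega) (by omega)) ∧
    r (pt m 0 0 0 (by omega) (by omega) (by omega))
      (pt m 0 2 0 (by omega) (by omega) (by omega)) ∧
    r (pt m 0 0 0 (by omega) (by omega) (by omega))
      (pt m 2 0 0 (by omega) (by omega) (by omega))
  · refine ⟨monT m, by simp [monT], matrixOf_monT, ?_, ?_⟩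
    · rw [not_std_iff]
      refine ⟨monC m, expo_monT_eq.symm, ?_⟩
      refine grevlex_of_forall (expo_deg _ _ expo_monT_eq.symm)
        (pt m 0 0 0 (by omega) (by omega) (by omega)) ?_
        (three_forall hcase.1 hcase.2.1 hcase.2.2)
      classical
      rw [monC, Finsupp.add_apply, Finsupp.add_apply, Finsupp.single_apply, if_pos rfl]
      omega
    · intro w hw hne
      rcases three_le hw hne with h | h | h
      · exact (std_TT hr (by omega)).of_le expo_add (h.trans (add_comm _ _).le)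
      · exact (std_TT hr (by omega)).of_le expo_add (h.trans (add_comm _ _).le)
      · exact (std_TT hr (by omega)).of_le expo_add (h.trans (add_comm _ _).le)
  · refine ⟨monC m, by simp [monC], matrixOf_monC, ?_, ?_⟩
    · rw [not_std_iff]
      refine ⟨monT m, expo_monT_eq, ?_⟩
      have hdeg := expo_deg _ _ (expo_monT_eq (m := m))
      have aux : ∀ P : LatticePoint (m + 4), monT m P ≠ 0 →
          P ≠ pt m 0 0 0 (by omega) (by omega) (by omega) →
          ¬ r (pt m 0 0 0 (by omega) (by omega) (by omega)) P →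
          r P (pt m 1 1 1 (by omega) (by omega) (by omega)) → GRevLex r (monT m) (monC m) := by
        intro P hP hne hnr hPC
        have h1 : r P (pt m 0 0 0 (by omega) (by omega) (by omega)) := by
          rcases trichotomous_of r P (pt m 0 0 0 (by omega) (by omega) (by omega)) with h | h | h
          · exact h
          · exact absurd h hne
          · exact absurd h hnr
        exact grevlex_of_forall hdeg P hP (three_forall h1 hPC hPC)
      have hne : ∀ {a b c : ℕ} {h1 h2 h3}, (a ≠ 0 ∨ b ≠ 0 ∨ c ≠ 0) →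
          pt m a b c h1 h2 h3 ≠ pt m 0 0 0 (by omega) (by omega) (by omega) := by
        intro a b c h1 h2 h3 h h0
        have e1 : a = 0 := congrArg (fun M => M.1 0 1) h0
        have e2 : b = 0 := congrArg (fun M => M.1 0 2) h0
        have e3 : c = 0 := congrArg (fun M => M.1 1 2) h0
        omega
      rw [not_and_or, not_and_or] at hcase
      classical
      rcases hcase with h | h | h
      · refine aux _ ?_ (hne (by omega)) h ?_
        · rw [monT, Finsupp.add_apply, Finsupp.add_apply, Finsupp.single_apply, if_pos rfl]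
          omega
        · apply hr.twos
          apply numTwos_lt <;> omega
      · refine aux _ ?_ (hne (by omega)) h ?_
        · rw [monT, Finsupp.add_apply, Finsupp.add_apply, Finsupp.single_eq_same]
          omega
        · apply hr.twos
          apply numTwos_lt <;> omega
      · refine aux _ ?_ (hne (by omega)) h ?_
        · rw [monT, Finsupp.add_apply, Finsupp.single_eq_same]
          omega
        · apply hr.twos
          apply numTwos_lt <;> omega
    · intro w hw hne
      rcases three_le hw hne with h | h | h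
      · exact (std_CC hr).of_le expo_add h
      · exact (std_IC hr).of_le expo_add h
      · exact (std_IC hr).of_le expo_add h

/-- The cubic element of every reduced Groebner basis, and the existence of one. -/
theorem main (k : Type*) [CommRing k] [Nontrivial k] (hr : IsSnOrder r) :
    (∃ G, IsReducedGB (GRevLex r) (toricIdeal (m + 4) k) G) ∧
    ∀ G, IsReducedGB (GRevLex r) (toricIdeal (m + 4) k) G →
      ∃ g ∈ G, g.totalDegree = 3 ∧ ∃ u v : LatticePoint (m + 4) →₀ ℕ,
        g = monomial u 1 - monomial v 1 ∧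
        ∀ i j, matrixOf u i j = blk 0 0 2 i j + blk 0 2 0 i j + blk 2 0 0 i j := by
  have := hr.total
  refine ⟨⟨_, isReducedGB expo_add expo_deg (piMap_monomial k)⟩, ?_⟩
  intro G hG
  obtain ⟨u, hd, hA, hns, hmin⟩ := exists_cubic hr
  obtain ⟨v, hv1, hv2, hmem⟩ := mem_of_isReducedGB expo_add expo_deg (piMap_monomial k) hG hns hmin
  refine ⟨_, hmem, ?_, u, v, rfl, hA⟩
  have hne : u ≠ v := by rintro rfl; exact hns hv2
  apply le_antisymm
  · refine (totalDegree_sub _ _).trans (max_le ?_ ?_)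
    · rw [totalDegree_monomial _ one_ne_zero]
      exact hd.le
    · rw [totalDegree_monomial _ one_ne_zero]
      exact (expo_deg _ _ hv1).le.trans hd.le
  · have hlm := (isLM_binomial (k := k) (hv2 u hv1.symm hne)).1
    have := le_totalDegree hlm.1
    exact hd.ge.trans this

end Main

end Block

end Pool.Agent.R139.Sn
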