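import Mathlib
import Pool.Agent.R139.GrQuot

/-!
# Monomial-plus-linear algebras: decompositions, colon ideals and Koszul filtrations
-/

set_option autoImplicit false

namespace Pool.Agent.R139.VDec

open MvPolynomial Pool.Agent.R139.KoszulFilt Pool.Agent.R139.GrQuot

/-! ### Computable part -/

/-- coefficientwise sum -/
def addL : List ℕ → List ℕ → List ℕ
  | [], l => l
  | a :: l, [] => a :: l
  | a :: l, b :: m => (a + b) :: addL l m

theorem getD_addL : ∀ (l m : List ℕ) (n : ℕ), (addL l m).getD n 0 = l.getD n 0 + m.getD n 0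
  | [], m, n => by simp [addL]
  | a :: l, [], n => by simp [addL]
  | a :: l, b :: m, 0 => by simp [addL]
  | a :: l, b :: m, n + 1 => by
    simp only [addL, List.getD_cons_succ]
    exact getD_addL l m n

theorem sum_getD : ∀ (l : List ℕ), ∑ n ∈ Finset.range l.length, l.getD n 0 = l.sum
  | [] => rfl
  | a :: l => by
    rw [List.length_cons, Finset.sum_range_succ', List.sum_cons]
    simp only [List.getD_cons_succ, List.getD_cons_zero]
    rw [sum_getD l, add_comm]

/-- triangularity of the linear relations on the support `W` -/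
def tri (b : ℕ → ℕ) (ground N W : ℕ) : Bool :=
  (List.range N).all fun i => !W.testBit i || (List.range ground).any fun a =>
    (b i).testBit a && (List.range i).all fun j => !(W.testBit j && (b j).testBit a)

/-- lookup -/
def look : List (ℕ × ℕ × List ℕ) → ℕ → Option (List ℕ)
  | [], _ => none
  | (W, _, h) :: t, k => bif Nat.beq W k then some h else look t k

/-- check of the decomposition table -/
def chkT (b nb : ℕ → ℕ) (ground N : ℕ) : List (ℕ × ℕ × List ℕ) → Bool
  | [] => true
  | (W, w, h) :: t => chkT b nb ground N t &&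
      bif Nat.ble N w then tri b ground N W && h == [1] else
        W.testBit w && match look t (W ^^^ 2 ^ w), look t (W &&& nb w) with
          | some h1, some h2 => h == addL h1 (0 :: h2)
          | _, _ => false

/-- check of one chain -/
def chkC (nb : ℕ → ℕ) (N : ℕ) (T : List (ℕ × ℕ × List ℕ)) (FL : List ℕ) :
    ℕ → List ℕ → ℕ → Bool
  | W, [], F => Nat.beq W F
  | W, v :: vs, F => Nat.blt v N && W.testBit v &&
      (match look T W, look T (W ^^^ 2 ^ v), look T (W &&& nb v) with
        | some h, some h1, some h2 => Nat.beq h.sum (h1.sum + h2.sum)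
        | _, _, _ => false) &&
      FL.elem (W &&& nb v) && chkC nb N T FL (W ^^^ 2 ^ v) vs F

/-! ### Algebra -/

variable {V : Type*} {I : Ideal (MvPolynomial V ℚ)}

/-- The situation: generators `x i`, `i < N`, of degree one with zero products for non-neighbours
and linear relations. -/
structure Sit (I : Ideal (MvPolynomial V ℚ)) (x : ℕ → MvPolynomial V ℚ ⧸ I) (b nb : ℕ → ℕ)
    (ground N : ℕ) : Prop where
  hom : IsHom I
  deg : ∀ i, i < N → x i ∈ gr I 1
  zero : ∀ v w, v < N → w < N → (nb w).testBit v = false → x v * x w = 0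
  lin : ∀ a, a < ground → ∑ i ∈ Finset.range N, (if (b i).testBit a then x i else 0) = 0
  gen : irr I = Ideal.span {y | ∃ i < N, y = x i}

variable {x : ℕ → MvPolynomial V ℚ ⧸ I} {b nb : ℕ → ℕ} {ground N : ℕ}

/-- the ideals -/
noncomputable def JJ (x : ℕ → MvPolynomial V ℚ ⧸ I) (N W : ℕ) : Ideal (MvPolynomial V ℚ ⧸ I) :=
  Ideal.span {y | ∃ i < N, W.testBit i = false ∧ y = x i}

theorem mem_JJ {W i : ℕ} (hi : i < N) (h : W.testBit i = false) : x i ∈ JJ x N W :=
  Ideal.subset_span ⟨i, hi, h, rfl⟩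

theorem JJ_erase {W w : ℕ} (hw : w < N) (h : W.testBit w = true) :
    JJ x N (W ^^^ 2 ^ w) = JJ x N W ⊔ Ideal.span {x w} := by
  apply le_antisymm
  · rw [JJ, Ideal.span_le]
    rintro _ ⟨i, hi, hb, rfl⟩
    by_cases hiw : i = w
    · subst hiw
      exact Ideal.mem_sup_right (Ideal.mem_span_singleton_self _)
    · apply Ideal.mem_sup_left
      apply mem_JJ hi
      rw [Nat.testBit_xor, Nat.testBit_two_pow, decide_eq_false (fun h => hiw h.symm),
        Bool.xor_false] at hb
      exact hb
  · rw [sup_le_iff]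
    constructor
    · rw [JJ, Ideal.span_le]
      rintro _ ⟨i, hi, hb, rfl⟩
      apply mem_JJ hi
      have hiw : w ≠ i := by
        rintro rfl
        rw [h] at hb
        exact absurd hb (by decide)
      rw [Nat.testBit_xor, Nat.testBit_two_pow, decide_eq_false hiw, Bool.xor_false]
      exact hb
    · rw [Ideal.span_le, Set.singleton_subset_iff]
      apply mem_JJ hw
      rw [Nat.testBit_xor, Nat.testBit_two_pow, decide_eq_true rfl, h]
      rfl

theorem JJ_colon (S : Sit I x b nb ground N) {W w : ℕ} (hw : w < N)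
    {a : MvPolynomial V ℚ ⧸ I} (ha : a ∈ JJ x N (W &&& nb w)) : a * x w ∈ JJ x N W := by
  have h1 : JJ x N (W &&& nb w) ≤ Submodule.comap (LinearMap.mulRight
      (MvPolynomial V ℚ ⧸ I) (x w)) (JJ x N W) := by
    rw [JJ, Ideal.span_le]
    rintro _ ⟨i, hi, hb, rfl⟩
    rw [Nat.testBit_and, Bool.and_eq_false_iff] at hb
    change x i * x w ∈ JJ x N W
    rcases hb with hb | hb
    · exact Ideal.mul_mem_right _ _ (mem_JJ hi hb)
    · rw [S.zero i w hi hw hb]
      exact Ideal.zero_mem _
  exact h1 ha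

theorem JJ_tri (S : Sit I x b nb ground N) {W : ℕ} (h : tri b ground N W = true) :
    JJ x N W = irr I := by
  rw [tri, List.all_eq_true] at h
  have key : ∀ k i, i < N → N - i ≤ k → x i ∈ JJ x N W := by
    intro k
    induction k with
    | zero =>
      intro i hi hk
      omega
    | succ k ih =>
      intro i hi hk
      have h1 := h i (List.mem_range.2 hi)
      rw [Bool.or_eq_true, Bool.not_eq_true', List.any_eq_true] at h1
      rcases h1 with h1 | ⟨a, ha, h1⟩
      · exact mem_JJ hi h1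
      · rw [Bool.and_eq_true, List.all_eq_true] at h1
        have h2 := S.lin a (List.mem_range.1 ha)
        rw [← Finset.add_sum_erase _ _ (Finset.mem_range.2 hi), if_pos h1.1] at h2
        rw [eq_neg_of_add_eq_zero_left h2]
        apply Submodule.neg_mem
        refine Submodule.sum_mem _ fun j hj => ?_
        rw [Finset.mem_erase, Finset.mem_range] at hj
        split_ifs with hja
        · rcases lt_or_gt_of_ne hj.1 with hlt | hgt
          · have h3 := h1.2 j (List.mem_range.2 hlt)
            rw [hja, Bool.and_true, Bool.not_eq_true'] at h3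
            exact mem_JJ hj.2 h3
          · exact ih j hj.2 (by omega)
        · exact Submodule.zero_mem _
  apply le_antisymm
  · rw [S.gen, JJ, Ideal.span_le]
    rintro _ ⟨i, hi, -, rfl⟩
    exact Ideal.subset_span ⟨i, hi, rfl⟩
  · rw [S.gen, Ideal.span_le]
    rintro _ ⟨i, hi, rfl⟩
    exact key _ i hi le_rfl

theorem pr_JJ (S : Sit I x b nb ground N) {W : ℕ} (n : ℕ) {a : MvPolynomial V ℚ ⧸ I}
    (ha : a ∈ JJ x N W) : pr S.hom n a ∈ JJ x N W := by
  rw [JJ, Ideal.span] at ha
  induction ha using Submodule.closure_induction with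
  | zero =>
    rw [map_zero]
    exact Ideal.zero_mem _
  | add y z _ _ hy hz =>
    rw [map_add]
    exact Ideal.add_mem _ hy hz
  | smul_mem r y hy =>
    obtain ⟨i, hi, hb, rfl⟩ := hy
    rw [smul_eq_mul, mul_comm]
    cases n with
    | zero =>
      rw [pr_zero_mul S.hom (S.deg i hi)]
      exact Ideal.zero_mem _
    | succ n =>
      rw [pr_mul S.hom (S.deg i hi)]
      exact Ideal.mul_mem_right _ _ (mem_JJ hi hb)

/-- Degreewise spanning modulo `J_W`. -/
def SB (x : ℕ → MvPolynomial V ℚ ⧸ I) (N W : ℕ) (h : List ℕ) : Prop :=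
  ∀ n, ∃ T : Finset (MvPolynomial V ℚ ⧸ I), T.card ≤ h.getD n 0 ∧ (∀ t ∈ T, t ∈ gr I n) ∧
    gr I n ≤ Submodule.span ℚ (T : Set (MvPolynomial V ℚ ⧸ I)) ⊔ (JJ x N W).restrictScalars ℚ

theorem SB_leaf (S : Sit I x b nb ground N) {W : ℕ} (h : tri b ground N W = true) :
    SB x N W [1] := by
  intro n
  cases n with
  | zero =>
    refine ⟨{1}, by simp, ?_, ?_⟩
    · intro t ht
      rw [Finset.mem_singleton] at ht
      rw [ht]
      exact one_mem_gr
    · intro a ha
      obtain ⟨c, rfl⟩ := gr_zero ha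
      apply Submodule.mem_sup_left
      apply Submodule.smul_mem
      exact Submodule.subset_span (by simp)
  | succ n =>
    refine ⟨∅, by simp, by simp, ?_⟩
    intro a ha
    apply Submodule.mem_sup_right
    rw [JJ_tri S h]
    exact gr_succ ha

theorem SB_node (S : Sit I x b nb ground N) {W w : ℕ} (hw : w < N) (hW : W.testBit w = true)
    {h1 h2 : List ℕ} (H1 : SB x N (W ^^^ 2 ^ w) h1) (H2 : SB x N (W &&& nb w) h2) :
    SB x N W (addL h1 (0 :: h2)) := by
  classical
  intro n
  rw [getD_addL]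
  obtain ⟨T1, hc1, hT1, hs1⟩ := H1 n
  -- the second family
  have H2' : ∃ T : Finset (MvPolynomial V ℚ ⧸ I), T.card ≤ (0 :: h2).getD n 0 ∧
      (∀ t ∈ T, t ∈ gr I n) ∧ ∀ a, pr S.hom n (a * x w) ∈
        Submodule.span ℚ (T : Set (MvPolynomial V ℚ ⧸ I)) ⊔ (JJ x N W).restrictScalars ℚ := by
    cases n with
    | zero =>
      refine ⟨∅, by simp, by simp, fun a => ?_⟩
      rw [mul_comm, pr_zero_mul S.hom (S.deg w hw)]
      exact Submodule.zero_mem _
    | succ n =>
      obtain ⟨T2, hc2, hT2, hs2⟩ := H2 n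
      refine ⟨T2.image (fun t => t * x w), ?_, ?_, fun a => ?_⟩
      · rw [List.getD_cons_succ]
        exact Finset.card_image_le.trans hc2
      · intro t ht
        rw [Finset.mem_image] at ht
        obtain ⟨t, ht, rfl⟩ := ht
        obtain ⟨f, hf, hf'⟩ := mem_gr.1 (hT2 t ht)
        obtain ⟨g, hg, hg'⟩ := mem_gr.1 (S.deg w hw)
        rw [← hf', ← hg', ← map_mul]
        exact mem_gr.2 ⟨f * g, hf.mul hg, rfl⟩
      · rw [mul_comm, pr_mul S.hom (S.deg w hw), mul_comm]
        have h3 := hs2 (pr_mem S.hom n a)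
        rw [Submodule.mem_sup] at h3
        obtain ⟨y, hy, z, hz, hyz⟩ := h3
        rw [← hyz, add_mul]
        refine Submodule.add_mem _ (Submodule.mem_sup_left ?_) (Submodule.mem_sup_right ?_)
        · have h4 := Submodule.mem_map_of_mem (f := LinearMap.mulRight ℚ (x w)) hy
          rw [Submodule.map_span] at h4
          rw [Finset.coe_image]
          exact h4
        · exact JJ_colon S hw hz
  obtain ⟨T2, hc2, hT2, hs2⟩ := H2'
  refine ⟨T1 ∪ T2, (Finset.card_union_le _ _).trans (Nat.add_le_add hc1 hc2), ?_, ?_⟩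
  · intro t ht
    rcases Finset.mem_union.1 ht with ht | ht
    · exact hT1 t ht
    · exact hT2 t ht
  · intro f hf
    have h3 := hs1 hf
    rw [Submodule.mem_sup] at h3
    obtain ⟨y, hy, z, hz, hyz⟩ := h3
    have hz' : z ∈ JJ x N W ⊔ Ideal.span {x w} := by
      rw [← JJ_erase hw hW]
      exact hz
    rw [Submodule.mem_sup] at hz'
    obtain ⟨j, hj, c, hc, hjc⟩ := hz'
    rw [Ideal.mem_span_singleton'] at hc
    obtain ⟨a, rfl⟩ := hc
    have hyn : y ∈ gr I n := by
      refine (Submodule.span_le.2 ?_) hy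
      intro t ht
      exact hT1 t ht
    have h4 : f = y + pr S.hom n j + pr S.hom n (a * x w) := by
      have h5 := congrArg (pr S.hom n) hyz
      rw [pr_self S.hom hf, ← hjc, map_add, map_add, pr_self S.hom hyn] at h5
      rw [← h5]
      abel
    rw [h4]
    refine Submodule.add_mem _ (Submodule.add_mem _ ?_ ?_) ?_
    · apply Submodule.mem_sup_left
      exact Submodule.span_mono (by simp) hy
    · apply Submodule.mem_sup_right
      exact pr_JJ S n hj
    · have h6 : Submodule.span ℚ (T2 : Set (MvPolynomial V ℚ ⧸ I)) ≤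
          Submodule.span ℚ ((T1 ∪ T2 : Finset (MvPolynomial V ℚ ⧸ I)) :
            Set (MvPolynomial V ℚ ⧸ I)) := Submodule.span_mono (by simp)
      exact sup_le_sup_right h6 ((JJ x N W).restrictScalars ℚ) (hs2 a)

theorem look_sound (S : Sit I x b nb ground N) :
    ∀ (T : List (ℕ × ℕ × List ℕ)), chkT b nb ground N T = true →
      ∀ W h, look T W = some h → SB x N W h
  | [], _, W, h, hl => by
    rw [look] at hl
    exact absurd hl (by simp)
  | (W0, w, h0) :: t, hT, W, h, hl => by
    rw [chkT, Bool.and_eq_true] at hT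
    obtain ⟨hT1, hT2⟩ := hT
    rw [look] at hl
    cases hb : Nat.beq W0 W with
    | false =>
      rw [hb, cond_false] at hl
      exact look_sound S t hT1 W h hl
    | true =>
      rw [hb, cond_true] at hl
      rw [← Nat.eq_of_beq_eq_true hb, ← Option.some.inj hl]
      cases hw : Nat.ble N w with
      | true =>
        rw [hw, cond_true, Bool.and_eq_true] at hT2
        rw [eq_of_beq hT2.2]
        exact SB_leaf S hT2.1
      | false =>
        rw [hw, cond_false, Bool.and_eq_true] at hT2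
        obtain ⟨h3, h4⟩ := hT2
        have hwN : w < N := by
          by_contra hcon
          rw [Nat.ble_eq_true_of_le (not_lt.1 hcon)] at hw
          exact absurd hw (by simp)
        cases hl1 : look t (W0 ^^^ 2 ^ w) with
        | none =>
          rw [hl1] at h4
          exact absurd h4 (by simp)
        | some h1 =>
          cases hl2 : look t (W0 &&& nb w) with
          | none =>
            rw [hl1, hl2] at h4
            exact absurd h4 (by simp)
          | some h2 =>
            rw [hl1, hl2] at h4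
            rw [eq_of_beq h4]
            exact SB_node S hwN h3 (look_sound S t hT1 _ _ hl1) (look_sound S t hT1 _ _ hl2)

theorem TB (S : Sit I x b nb ground N) {W : ℕ} {h : List ℕ} (H : SB x N W h) :
    ∃ T : Finset (MvPolynomial V ℚ ⧸ I), T.card ≤ h.sum ∧
      Submodule.span ℚ (T : Set (MvPolynomial V ℚ ⧸ I)) ⊔ (JJ x N W).restrictScalars ℚ = ⊤ := by
  classical
  choose T hc hT hs using H
  refine ⟨(Finset.range h.length).biUnion T, ?_, ?_⟩
  · refine Finset.card_biUnion_le.trans ?_
    rw [← sum_getD]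
    exact Finset.sum_le_sum fun n _ => hc n
  · rw [eq_top_iff]
    intro a _
    obtain ⟨M, hM⟩ := sum_pr S.hom a
    rw [hM M le_rfl]
    refine Submodule.sum_mem _ fun n _ => ?_
    have h1 := hs n (pr_mem S.hom n a)
    have h6 : Submodule.span ℚ (T n : Set (MvPolynomial V ℚ ⧸ I)) ≤
        Submodule.span ℚ (((Finset.range h.length).biUnion T :
          Finset (MvPolynomial V ℚ ⧸ I)) : Set (MvPolynomial V ℚ ⧸ I)) := ?_
    · exact sup_le_sup_right h6 ((JJ x N W).restrictScalars ℚ) h1
    apply Submodule.span_mono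
    intro t ht
    by_cases hn : n < h.length
    · rw [Finset.mem_coe, Finset.mem_biUnion]
      exact ⟨n, Finset.mem_range.2 hn, ht⟩
    · have h2 := hc n
      rw [List.getD_eq_default _ _ (not_lt.1 hn), Nat.le_zero, Finset.card_eq_zero] at h2
      rw [h2] at ht
      exact absurd ht (by simp)

/-- dimension of an ideal -/
noncomputable def cJ (J : Ideal (MvPolynomial V ℚ ⧸ I)) : ℕ :=
  Module.finrank ℚ (J.restrictScalars ℚ)

theorem le_of_SB (S : Sit I x b nb ground N) [Module.Finite ℚ (MvPolynomial V ℚ ⧸ I)]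
    {W : ℕ} {h : List ℕ} (H : SB x N W h) :
    Module.finrank ℚ (MvPolynomial V ℚ ⧸ I) ≤ h.sum + cJ (JJ x N W) := by
  obtain ⟨T, hc, hT⟩ := TB S H
  rw [← finrank_top ℚ (MvPolynomial V ℚ ⧸ I), ← hT]
  refine (Submodule.finrank_add_le_finrank_add_finrank _ _).trans ?_
  exact Nat.add_le_add_right ((finrank_span_finset_le_card T).trans hc) _

theorem finrank_comap_add {E : Type*} [AddCommGroup E] [Module ℚ E] [Module.Finite ℚ E]
    (f : E →ₗ[ℚ] E) (U : Submodule ℚ E) :
    Module.finrank ℚ ↥(U ⊔ LinearMap.range f) + Module.finrank ℚ ↥(U.comap f) =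
      Module.finrank ℚ E + Module.finrank ℚ U := by
  let g : (E × U) →ₗ[ℚ] E := f.coprod U.subtype
  have h1 := LinearMap.finrank_range_add_finrank_ker g
  have h2 : LinearMap.range g = U ⊔ LinearMap.range f := by
    rw [LinearMap.range_coprod, Submodule.range_subtype, sup_comm]
  have h3 : Module.finrank ℚ (LinearMap.ker g) = Module.finrank ℚ ↥(U.comap f) := by
    apply LinearEquiv.finrank_eq
    refine LinearEquiv.ofBijective
      (((LinearMap.fst ℚ E U).restrict (p := LinearMap.ker g) (q := U.comap f)) ?_) ⟨?_, ?_⟩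
    · rintro ⟨a, s⟩ h
      rw [LinearMap.mem_ker, LinearMap.coprod_apply] at h
      have h4 : f a = -(s : E) := eq_neg_of_add_eq_zero_left h
      change f a ∈ U
      rw [h4]
      exact U.neg_mem s.2
    · rw [← LinearMap.ker_eq_bot, LinearMap.ker_eq_bot']
      rintro ⟨⟨a, s⟩, h⟩ h0
      have ha : a = 0 := congrArg Subtype.val h0
      subst ha
      rw [LinearMap.mem_ker, LinearMap.coprod_apply, map_zero, zero_add] at h
      have hs : s = 0 := Subtype.ext h
      subst hs
      rfl
    · rintro ⟨a, ha⟩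
      refine ⟨⟨(a, -⟨f a, ha⟩), ?_⟩, rfl⟩
      rw [LinearMap.mem_ker, LinearMap.coprod_apply]
      change f a + -(f a) = 0
      exact add_neg_cancel _
  rw [h2, h3] at h1
  rw [h1, Module.finrank_prod]

/-- the colon ideal -/
noncomputable def colon (J : Ideal (MvPolynomial V ℚ ⧸ I)) (y : MvPolynomial V ℚ ⧸ I) :
    Ideal (MvPolynomial V ℚ ⧸ I) :=
  Submodule.comap (LinearMap.mulRight (MvPolynomial V ℚ ⧸ I) y) J

theorem mem_colon {J : Ideal (MvPolynomial V ℚ ⧸ I)} {y a : MvPolynomial V ℚ ⧸ I} :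
    a ∈ colon J y ↔ a * y ∈ J := Iff.rfl

theorem cJ_colon [Module.Finite ℚ (MvPolynomial V ℚ ⧸ I)]
    (J : Ideal (MvPolynomial V ℚ ⧸ I)) (y : MvPolynomial V ℚ ⧸ I) :
    cJ (J ⊔ Ideal.span {y}) + cJ (colon J y) =
      Module.finrank ℚ (MvPolynomial V ℚ ⧸ I) + cJ J := by
  have h := finrank_comap_add (LinearMap.mulRight ℚ y) (J.restrictScalars ℚ)
  have h1 : J.restrictScalars ℚ ⊔ LinearMap.range (LinearMap.mulRight ℚ y) =
      (J ⊔ Ideal.span {y}).restrictScalars ℚ := by
    apply le_antisymm
    · rw [sup_le_iff]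
      constructor
      · intro a ha
        exact (le_sup_left : J ≤ J ⊔ Ideal.span {y}) ha
      · rintro _ ⟨a, rfl⟩
        exact (le_sup_right : Ideal.span {y} ≤ J ⊔ Ideal.span {y})
          (Ideal.mul_mem_left _ _ (Ideal.mem_span_singleton_self y))
    · intro a ha
      have ha' : a ∈ J ⊔ Ideal.span {y} := ha
      rw [Submodule.mem_sup] at ha'
      obtain ⟨j, hj, c, hc, rfl⟩ := ha'
      rw [Ideal.mem_span_singleton'] at hc
      obtain ⟨a, rfl⟩ := hc
      exact Submodule.add_mem _ (Submodule.mem_sup_left hj) (Submodule.mem_sup_right ⟨a, rfl⟩)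
  rw [h1] at h
  exact h

theorem eq_of_cJ_le [Module.Finite ℚ (MvPolynomial V ℚ ⧸ I)]
    {J J' : Ideal (MvPolynomial V ℚ ⧸ I)} (h : J ≤ J') (h' : cJ J' ≤ cJ J) : J = J' := by
  have h1 : J.restrictScalars ℚ = J'.restrictScalars ℚ :=
    Submodule.eq_of_le_of_finrank_le (fun a ha => h ha) h'
  exact Submodule.restrictScalars_injective ℚ _ _ h1

/-! ### The filtration -/

/-- the condition on a single ideal -/
def KFok (𝓕 : Set (Ideal (MvPolynomial V ℚ ⧸ I))) (J : Ideal (MvPolynomial V ℚ ⧸ I)) : Prop :=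
  ∃ (r : ℕ) (l : Fin r → MvPolynomial V ℚ ⧸ I), (∀ s, l s ∈ (gr I 1 : Set _)) ∧
    J = Ideal.span (Set.range l) ∧
    ∀ s, ∃ C ∈ 𝓕, ∀ a, a ∈ C ↔ a * l s ∈ Ideal.span (l '' Set.Iio s)

theorem KFok_bot (𝓕 : Set (Ideal (MvPolynomial V ℚ ⧸ I))) : KFok 𝓕 ⊥ :=
  ⟨0, Fin.elim0, fun s => s.elim0, by simp [Set.range_eq_empty], fun s => s.elim0⟩

theorem KFok_snoc {𝓕 : Set (Ideal (MvPolynomial V ℚ ⧸ I))} {J : Ideal (MvPolynomial V ℚ ⧸ I)}
    (h : KFok 𝓕 J) {y : MvPolynomial V ℚ ⧸ I} (hy : y ∈ gr I 1)
    {C : Ideal (MvPolynomial V ℚ ⧸ I)} (hC : C ∈ 𝓕) (hCc : C = colon J y) :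
    KFok 𝓕 (J ⊔ Ideal.span {y}) := by
  obtain ⟨r, l, hl, hspan, hcol⟩ := h
  refine ⟨r + 1, Fin.snoc (α := fun _ => MvPolynomial V ℚ ⧸ I) l y, ?_, ?_, ?_⟩
  · intro s
    refine Fin.lastCases ?_ (fun s => ?_) s
    · rw [Fin.snoc_last]
      exact hy
    · rw [Fin.snoc_castSucc]
      exact hl s
  · rw [hspan, ← Ideal.span_union]
    congr 1
    ext a
    constructor
    · rintro (⟨s, rfl⟩ | h)
      · exact ⟨s.castSucc, by rw [Fin.snoc_castSucc]⟩
      · rw [Set.mem_singleton_iff] at h
        rw [h]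
        exact ⟨Fin.last r, by rw [Fin.snoc_last]⟩
    · rintro ⟨s, rfl⟩
      refine Fin.lastCases ?_ (fun s => ?_) s
      · rw [Fin.snoc_last]
        exact Or.inr rfl
      · rw [Fin.snoc_castSucc]
        exact Or.inl ⟨s, rfl⟩
  · intro s
    refine Fin.lastCases ?_ (fun s => ?_) s
    · refine ⟨C, hC, fun a => ?_⟩
      rw [Fin.snoc_last, hCc, mem_colon, hspan]
      have h1 : (Fin.snoc (α := fun _ => MvPolynomial V ℚ ⧸ I) l y) '' Set.Iio (Fin.last r) =
          Set.range l := by
        ext a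
        constructor
        · rintro ⟨s, hs, rfl⟩
          revert hs
          refine Fin.lastCases ?_ (fun s => ?_) s
          · intro hs
            exact absurd (Set.mem_Iio.1 hs) (lt_irrefl _)
          · intro _
            rw [Fin.snoc_castSucc]
            exact ⟨s, rfl⟩
        · rintro ⟨s, rfl⟩
          exact ⟨s.castSucc, Fin.castSucc_lt_last s, by rw [Fin.snoc_castSucc]⟩
      rw [h1]
    · obtain ⟨C', hC', hmem⟩ := hcol s
      refine ⟨C', hC', fun a => ?_⟩
      rw [hmem, Fin.snoc_castSucc]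
      have h1 : (Fin.snoc (α := fun _ => MvPolynomial V ℚ ⧸ I) l y) '' Set.Iio s.castSucc =
          l '' Set.Iio s := by
        ext a
        constructor
        · rintro ⟨u, hu, rfl⟩
          revert hu
          refine Fin.lastCases ?_ (fun u => ?_) u
          · intro hu
            exact absurd (lt_trans hu (Fin.castSucc_lt_last s)) (lt_irrefl _)
          · intro hu
            rw [Fin.snoc_castSucc]
            exact ⟨u, Fin.castSucc_lt_castSucc_iff.1 hu, rfl⟩
        · rintro ⟨u, hu, rfl⟩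
          exact ⟨u.castSucc, Fin.castSucc_lt_castSucc_iff.2 hu, by rw [Fin.snoc_castSucc]⟩
      rw [h1]

/-- the family of ideals -/
def FM (x : ℕ → MvPolynomial V ℚ ⧸ I) (N : ℕ) (FL : List ℕ) :
    Set (Ideal (MvPolynomial V ℚ ⧸ I)) := {J | ∃ W ∈ FL, J = JJ x N W}

theorem chain_sound (S : Sit I x b nb ground N) [Module.Finite ℚ (MvPolynomial V ℚ ⧸ I)]
    {T : List (ℕ × ℕ × List ℕ)} (hT : chkT b nb ground N T = true) {FL : List ℕ} :
    ∀ (vs : List ℕ) (W F : ℕ), chkC nb N T FL W vs F = true →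
      KFok (FM x N FL) (JJ x N W) →
      (∀ h, look T W = some h →
        cJ (JJ x N W) + h.sum = Module.finrank ℚ (MvPolynomial V ℚ ⧸ I)) →
      KFok (FM x N FL) (JJ x N F)
  | [], W, F, hc, hk, _ => by
    rw [chkC] at hc
    rw [← Nat.eq_of_beq_eq_true hc]
    exact hk
  | v :: vs, W, F, hc, hk, hd => by
    rw [chkC, Bool.and_eq_true, Bool.and_eq_true, Bool.and_eq_true, Bool.and_eq_true] at hc
    obtain ⟨⟨⟨⟨hv, hWv⟩, hlook⟩, hel⟩, hrest⟩ := hc
    have hvN : v < N := by
      rw [Nat.blt_eq] at hv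
      exact hv
    cases hl : look T W with
    | none =>
      rw [hl] at hlook
      exact absurd hlook (by simp)
    | some h =>
      cases hl1 : look T (W ^^^ 2 ^ v) with
      | none =>
        rw [hl, hl1] at hlook
        exact absurd hlook (by simp)
      | some h1 =>
        cases hl2 : look T (W &&& nb v) with
        | none =>
          rw [hl, hl1, hl2] at hlook
          exact absurd hlook (by simp)
        | some h2 =>
          rw [hl, hl1, hl2] at hlook
          have hsum : h.sum = h1.sum + h2.sum := Nat.eq_of_beq_eq_true hlook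
          have e0 := hd h hl
          have e1 := le_of_SB S (look_sound S T hT _ _ hl1)
          have e2 := le_of_SB S (look_sound S T hT _ _ hl2)
          have hle : JJ x N (W &&& nb v) ≤ colon (JJ x N W) (x v) :=
            fun a ha => JJ_colon S hvN ha
          have e3 : cJ (JJ x N (W &&& nb v)) ≤ cJ (colon (JJ x N W) (x v)) :=
            Submodule.finrank_mono (fun a ha => hle ha)
          have e4 := cJ_colon (JJ x N W) (x v)
          rw [JJ_erase hvN hWv] at e1
          have hcol : JJ x N (W &&& nb v) = colon (JJ x N W) (x v) :=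
            eq_of_cJ_le hle (by omega)
          apply chain_sound S hT vs _ F hrest
          · rw [JJ_erase hvN hWv]
            refine KFok_snoc hk (S.deg v hvN) ?_ hcol
            exact ⟨_, List.elem_iff.1 hel, rfl⟩
          · intro h' hl'
            rw [hl1] at hl'
            rw [← Option.some.inj hl', JJ_erase hvN hWv]
            omega

theorem JJ_full {W : ℕ} (hW : ∀ i, i < N → W.testBit i = true) : JJ x N W = ⊥ := by
  rw [JJ, Ideal.span_eq_bot]
  rintro _ ⟨i, hi, hb, rfl⟩
  rw [hW i hi] at hb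
  exact absurd hb (by decide)

theorem sum_getD_le (l : List ℕ) (e : ℕ) : ∑ n ∈ Finset.range e, l.getD n 0 ≤ l.sum := by
  rw [← sum_getD]
  by_cases h : e ≤ l.length
  · exact Finset.sum_le_sum_of_subset (Finset.range_mono h)
  · apply le_of_eq
    symm
    apply Finset.sum_subset (Finset.range_mono (by omega))
    intro n _ hn
    rw [Finset.mem_range, not_lt] at hn
    exact List.getD_eq_default _ _ hn

/-- The main computation: a certificate gives a linear resolution and the Hilbert function. -/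
theorem main {V : Type*} {s : Set (MvPolynomial V ℚ)}
    {x : ℕ → MvPolynomial V ℚ ⧸ (Ideal.span s)} {b nb : ℕ → ℕ} {ground N : ℕ}
    (S : Sit (Ideal.span s) x b nb ground N) {P : Type*} [Fintype P] {pt : P → V → ℚ}
    (hinj : Function.Injective pt) (hs : GenOK pt s) {T : List (ℕ × ℕ × List ℕ)}
    (hT : chkT b nb ground N T = true) {full : ℕ} (hfull : ∀ i, i < N → full.testBit i = true)
    {H0 : List ℕ} (hl : look T full = some H0) (hsum : H0.sum = Fintype.card P)
    {CH : List (ℕ × List ℕ)}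
    (hCH : CH.all (fun c => chkC nb N T (CH.map Prod.fst) full c.2 c.1) = true)
    {facet : ℕ} (hfac : facet ∈ CH.map Prod.fst) (htri : tri b ground N facet = true) :
    (∃ (β : ℕ → ℕ) (d : ∀ i, Matrix (Fin (β i)) (Fin (β (i + 1)))
        (MvPolynomial V ℚ ⧸ (Ideal.span s))), β 0 = 1 ∧
      (∀ i a b, d i a b ∈ gr (Ideal.span s) 1) ∧
      (∀ x : Fin (β 0) → MvPolynomial V ℚ ⧸ (Ideal.span s),
        (∃ y, (d 0).mulVec y = x) ↔ ∀ a, x a ∈ irr (Ideal.span s)) ∧
      ∀ i x, (d i).mulVec x = 0 ↔ ∃ y, (d (i + 1)).mulVec y = x) ∧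
    Module.Finite ℚ (MvPolynomial V ℚ ⧸ (Ideal.span s)) ∧
    ∀ n, Module.finrank ℚ (gr (Ideal.span s) n) = H0.getD n 0 := by
  classical
  have hbot : JJ x N full = ⊥ := JJ_full hfull
  have hSB := look_sound S T hT full H0 hl
  have hfin : Module.Finite ℚ (MvPolynomial V ℚ ⧸ (Ideal.span s)) := by
    obtain ⟨T', -, hT'⟩ := TB S hSB
    rw [hbot] at hT'
    have h1 : (⊥ : Ideal (MvPolynomial V ℚ ⧸ (Ideal.span s))).restrictScalars ℚ = ⊥ := rfl
    rw [h1, sup_bot_eq] at hT'
    exact ⟨⟨T', hT'⟩⟩
  have hgr : ∀ n, Module.finrank ℚ (gr (Ideal.span s) n) ≤ H0.getD n 0 := by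
    intro n
    obtain ⟨T', hc, -, hs'⟩ := hSB n
    rw [hbot] at hs'
    have h1 : (⊥ : Ideal (MvPolynomial V ℚ ⧸ (Ideal.span s))).restrictScalars ℚ = ⊥ := rfl
    rw [h1, sup_bot_eq] at hs'
    exact (Submodule.finrank_mono hs').trans ((finrank_span_finset_le_card T').trans hc)
  obtain ⟨e, he⟩ := card_le hinj hs
  have heq : ∀ n, Module.finrank ℚ (gr (Ideal.span s) n) = H0.getD n 0 := by
    intro n
    have h1 := he (max e (n + 1)) (le_max_left _ _)
    have h2 : ∑ n ∈ Finset.range (max e (n + 1)), Module.finrank ℚ (gr (Ideal.span s) n) ≤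
        ∑ n ∈ Finset.range (max e (n + 1)), H0.getD n 0 := Finset.sum_le_sum fun n _ => hgr n
    have h3 := sum_getD_le H0 (max e (n + 1))
    have h4 : ∑ n ∈ Finset.range (max e (n + 1)), Module.finrank ℚ (gr (Ideal.span s) n) =
        ∑ n ∈ Finset.range (max e (n + 1)), H0.getD n 0 := by omega
    exact (Finset.sum_eq_sum_iff_of_le fun n _ => hgr n).1 h4 n
      (Finset.mem_range.2 (lt_of_lt_of_le (Nat.lt_succ_self n) (le_max_right _ _)))
  have hdim : Module.finrank ℚ (MvPolynomial V ℚ ⧸ (Ideal.span s)) = H0.sum := by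
    apply le_antisymm
    · have h1 := le_of_SB S hSB
      have h2 : cJ (JJ x N full) = 0 := by
        rw [hbot, cJ]
        exact finrank_bot ℚ _
      rw [h2] at h1
      exact h1
    · have h1 := sum_finrank_le S.hom H0.length
      simp only [heq, sum_getD] at h1
      exact h1
  refine ⟨?_, hfin, heq⟩
  have hKF : IsKF (gr (Ideal.span s) 1 : Set _) (FM x N (CH.map Prod.fst)) := by
    rintro J ⟨W, hW, rfl⟩
    rw [List.mem_map] at hW
    obtain ⟨c, hc, rfl⟩ := hW
    have h1 := (List.all_eq_true.1 hCH) c hc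
    apply chain_sound S hT c.2 full c.1 h1
    · rw [hbot]
      exact KFok_bot _
    · intro h hl'
      rw [hl] at hl'
      rw [← Option.some.inj hl', hdim, hbot]
      have h2 : cJ (⊥ : Ideal (MvPolynomial V ℚ ⧸ (Ideal.span s))) = 0 := finrank_bot ℚ _
      rw [h2, zero_add]
  exact exists_resolution (theGr S.hom) hKF ⟨facet, hfac, (JJ_tri S htri).symm⟩

end Pool.Agent.R139.VDec
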