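import Mathlib

/-!
# Valuated Delta-matroids from Hermitian forms: common definitions and the main lemma
-/

set_option autoImplicit false

namespace Pool.Agent.R139.ValDelta

open Matrix Finset

/-- A cell of the regular subdivision of (part of) the cube `{0,1}^n` induced by
`p : {0,1}^n → ℝ ∪ {∞}`, given by its set of vertices (a vertex of the cube is written as a subset
of `Fin n`): the set of points where some affine function `x ↦ c + ∑ i, w i * x i`, lying below `p`
everywhere, is equal to `p`. -/
def IsCell {n : ℕ} (p : Finset (Fin n) → WithTop ℝ) (C : Set (Finset (Fin n))) : Prop :=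
  ∃ (w : Fin n → ℝ) (c : ℝ), (∀ U, ((c + ∑ i ∈ U, w i : ℝ) : WithTop ℝ) ≤ p U) ∧
    C = {U | p U = ((c + ∑ i ∈ U, w i : ℝ) : WithTop ℝ)}

/-- `p : {0,1}^n → ℝ ∪ {∞}` is a valuated `Δ`-matroid: every edge (cell with exactly two
vertices `S ≠ T`) of the subdivision induced by `p` has one of the directions `± e_i`,
`± e_i ± e_j`, that is, `S` and `T` differ in at most two elements. -/
def IsValuatedDeltaMatroid {n : ℕ} (p : Finset (Fin n) → WithTop ℝ) : Prop :=
  ∀ S T : Finset (Fin n), S ≠ T → IsCell p {S, T} → (symmDiff S T).card ≤ 2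

/-- The `n × n` matrix whose `i`-th column is the `i`-th column of `X` if `i ∈ S` and the `i`-th
column of `Y` if `i ∉ S`. -/
def colMix {n : ℕ} {K : Type*} (X Y : Matrix (Fin n) (Fin n) K) (S : Finset (Fin n)) :
    Matrix (Fin n) (Fin n) K :=
  Matrix.of fun k i => if i ∈ S then X k i else Y k i

section

variable {K : Type*} [Field K] {n : ℕ} (ν : AddValuation K (WithTop ℝ))

theorem lt_mul {x y : K} {r s : ℝ} (hx : (r : WithTop ℝ) < ν x) (hy : (s : WithTop ℝ) < ν y) :
    ((r + s : ℝ) : WithTop ℝ) < ν (x * y) := by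
  rw [AddValuation.map_mul]
  generalize ν x = a at *
  generalize ν y = b at *
  induction a using WithTop.recTopCoe with
  | top => simp
  | coe a =>
    induction b using WithTop.recTopCoe with
    | top => simp
    | coe b =>
      rw [← WithTop.coe_add, WithTop.coe_lt_coe]
      rw [WithTop.coe_lt_coe] at hx hy
      linarith

theorem half_lt {m : WithTop ℝ} {W : ℝ} (h : ((W : ℝ) : WithTop ℝ) < m + m) :
    ((W / 2 : ℝ) : WithTop ℝ) < m := by
  induction m using WithTop.recTopCoe with
  | top => simp
  | coe a =>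
    rw [← WithTop.coe_add, WithTop.coe_lt_coe] at h
    rw [WithTop.coe_lt_coe]
    linarith

theorem both_lt {s t : K} {W : ℝ} (h1 : ((W : ℝ) : WithTop ℝ) < ν (s * t))
    (h2 : ((W / 2 : ℝ) : WithTop ℝ) < ν (s + t)) : ((W / 2 : ℝ) : WithTop ℝ) < ν s := by
  by_contra hs
  rw [not_lt] at hs
  have ht : ((W / 2 : ℝ) : WithTop ℝ) < ν t := by
    rw [AddValuation.map_mul] at h1
    generalize ν s = a at *
    generalize ν t = b at *
    induction b using WithTop.recTopCoe with
    | top => simp
    | coe b =>
      induction a using WithTop.recTopCoe with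
      | top => simp at hs
      | coe a =>
        rw [← WithTop.coe_add, WithTop.coe_lt_coe] at h1
        rw [WithTop.coe_le_coe] at hs
        rw [WithTop.coe_lt_coe]
        linarith
  have h3 : ((W / 2 : ℝ) : WithTop ℝ) < ν (s + t + -t) :=
    ν.map_lt_add h2 (by rwa [AddValuation.map_neg])
  rw [add_neg_cancel_right] at h3
  exact absurd h3 (not_lt.2 hs)

theorem lt_prod {ι : Type*} (V : Finset ι) (hV : V.Nonempty) (f : ι → K) (r : ι → ℝ)
    (h : ∀ i ∈ V, ((r i : ℝ) : WithTop ℝ) < ν (f i)) :
    ((∑ i ∈ V, r i : ℝ) : WithTop ℝ) < ν (∏ i ∈ V, f i) := by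
  induction hV using Finset.Nonempty.cons_induction with
  | singleton a => simpa using h a (by simp)
  | cons a s ha hs ih =>
    rw [Finset.sum_cons, Finset.prod_cons]
    exact lt_mul ν (h a (by simp)) (ih fun i hi => h i (by simp [hi]))

/-- The determinant of the mixed matrix is a principal minor. -/
theorem det_colMix_one (A : Matrix (Fin n) (Fin n) K) (S : Finset (Fin n)) :
    (colMix A 1 S).det = (A.submatrix (fun i : S => (i : Fin n)) (fun i : S => (i : Fin n))).det := by
  rw [Matrix.twoBlockTriangular_det (colMix A 1 S) (fun i => i ∉ S)]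
  · have h1 : Matrix.toSquareBlockProp (colMix A 1 S) (fun i => i ∉ S) = 1 := by
      ext i j
      change (if (j : Fin n) ∈ S then A i j else (1 : Matrix (Fin n) (Fin n) K) i j) = _
      rw [if_neg j.2, Matrix.one_apply, Matrix.one_apply]
      simp [Subtype.ext_iff]
    rw [h1, det_one, one_mul]
    rw [← Matrix.det_submatrix_equiv_self
      (Equiv.subtypeEquivRight (fun x => (not_not.symm : x ∈ S ↔ ¬ x ∉ S)) )]
    congr 1
    ext i j
    change (if (j : Fin n) ∈ S then A i j else (1 : Matrix (Fin n) (Fin n) K) i j) = A i j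
    rw [if_pos j.2]
  · intro i hi j hj
    rw [not_not] at hi
    simp only [colMix, Matrix.of_apply]
    rw [if_neg hj, Matrix.one_apply, if_neg]
    rintro rfl
    exact hj hi

theorem det_colMix_single (A : Matrix (Fin n) (Fin n) K) (i : Fin n) :
    (colMix A 1 {i}).det = A i i := by
  rw [det_colMix_one]
  rw [Matrix.det_unique]
  have hd : ((default : ↥({i} : Finset (Fin n))) : Fin n) = i :=
    Finset.mem_singleton.1 (default : ↥({i} : Finset (Fin n))).2
  change A ((default : ↥({i} : Finset (Fin n))) : Fin n)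
    ((default : ↥({i} : Finset (Fin n))) : Fin n) = A i i
  rw [hd]

theorem det_colMix_pair (A : Matrix (Fin n) (Fin n) K) {i j : Fin n} (hij : i ≠ j) :
    (colMix A 1 {i, j}).det = A i i * A j j - A i j * A j i := by
  rw [det_colMix_one]
  let e : Fin 2 ≃ ↥({i, j} : Finset (Fin n)) := Equiv.ofBijective
    (![⟨i, by simp⟩, ⟨j, by simp⟩]) (by
      constructor
      · intro a b
        fin_cases a <;> fin_cases b <;> simp [hij, hij.symm]
      · rintro ⟨x, hx⟩
        rcases Finset.mem_insert.1 hx with h | h
        · exact ⟨0, by simp [h]⟩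
        · exact ⟨1, by simp [Finset.mem_singleton.1 h]⟩)
  rw [← Matrix.det_submatrix_equiv_self e, Matrix.det_fin_two]
  rfl

/-- The local statement: if `A + A* + α z z* = 0` then `∅, V` with `|V| ≥ 3` is not an edge. -/
theorem local_lemma [StarRing K] (hν : ∀ a, ν (star a) = ν a) (A : Matrix (Fin n) (Fin n) K)
    (z : Fin n → K) (α : K) (hA : ∀ i j, A i j + star (A j i) + α * (z i * star (z j)) = 0)
    (w : Fin n → ℝ) (V : Finset (Fin n)) (hV : 3 ≤ V.card)
    (h : ∀ U : Finset (Fin n), U.Nonempty → U.card ≤ 2 →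
      ((∑ i ∈ U, w i : ℝ) : WithTop ℝ) < ν (colMix A 1 U).det) :
    ((∑ i ∈ V, w i : ℝ) : WithTop ℝ) < ν (colMix A 1 V).det := by
  have h1 : ∀ i, ((w i : ℝ) : WithTop ℝ) < ν (A i i) := by
    intro i
    have := h {i} (by simp) (by simp)
    rwa [det_colMix_single, Finset.sum_singleton] at this
  have h2 : ∀ i j, ((w i + w j : ℝ) : WithTop ℝ) < ν (A i j * A j i) := by
    intro i j
    by_cases hij : i = j
    · subst hij
      exact lt_mul ν (h1 i) (h1 i)
    have := h {i, j} (by simp) (by rw [Finset.card_pair hij])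
    rw [det_colMix_pair A hij, Finset.sum_pair hij] at this
    have h4 := ν.map_lt_add (lt_mul ν (h1 i) (h1 j))
      (show ((w i + w j : ℝ) : WithTop ℝ) < ν (-(A i i * A j j - A i j * A j i)) by
        rwa [AddValuation.map_neg])
    rwa [show A i i * A j j + -(A i i * A j j - A i j * A j i) = A i j * A j i by ring] at h4
  have h3 : ∀ i, ((w i : ℝ) : WithTop ℝ) < ν (α * (z i * star (z i))) := by
    intro i
    have h4 : α * (z i * star (z i)) = -(A i i + star (A i i)) := by
      linear_combination hA i i
    rw [h4, AddValuation.map_neg]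
    exact ν.map_lt_add (h1 i) (by rw [hν]; exact h1 i)
  have h4 : ∀ i j, (((w i + w j) / 2 : ℝ) : WithTop ℝ) < ν (α * (z i * star (z j))) := by
    intro i j
    apply half_lt
    have h5 := lt_mul ν (h3 i) (h3 j)
    have h6 : ν (α * (z i * star (z i)) * (α * (z j * star (z j)))) =
        ν (α * (z i * star (z j))) + ν (α * (z i * star (z j))) := by
      have h7 : ν (α * (z i * star (z j))) = ν (α * (z j * star (z i))) := by
        simp only [AddValuation.map_mul, hν]
        rw [add_comm (ν (z i))]
      nth_rewrite 2 [h7]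
      rw [← AddValuation.map_mul]
      congr 1
      ring
    rwa [h6] at h5
  have h5 : ∀ i j, (((w i + w j) / 2 : ℝ) : WithTop ℝ) < ν (A i j) := by
    intro i j
    refine both_lt ν (t := star (A j i)) ?_ ?_
    · rw [AddValuation.map_mul, hν, ← AddValuation.map_mul]
      exact h2 i j
    · have : A i j + star (A j i) = -(α * (z i * star (z j))) := by
        linear_combination hA i j
      rw [this, AddValuation.map_neg]
      exact h4 i j
  rw [det_apply']
  refine ν.map_lt_sum WithTop.coe_ne_top ?_
  intro σ _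
  have hsign : ν ((((Equiv.Perm.sign σ : ℤˣ) : ℤ) : K)) = 0 := by
    rcases Int.units_eq_one_or (Equiv.Perm.sign σ) with h | h <;> rw [h] <;> simp
  rw [AddValuation.map_mul, hsign, zero_add]
  by_cases hσ : ∀ i, i ∉ V → σ i = i
  · have e1 : ∏ i, colMix A 1 V (σ i) i = ∏ i ∈ V, A (σ i) i := by
      rw [← Finset.prod_subset (Finset.subset_univ V)]
      · refine Finset.prod_congr rfl fun i hi => ?_
        simp only [colMix, Matrix.of_apply]
        rw [if_pos hi]
      · intro i _ hi
        simp only [colMix, Matrix.of_apply]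
        rw [if_neg hi, hσ i hi, Matrix.one_apply_eq]
    rw [e1]
    have e2 : ∑ i ∈ V, w i = ∑ i ∈ V, (w (σ i) + w i) / 2 := by
      rw [← Finset.sum_div, Finset.sum_add_distrib]
      have e3 : ∑ i ∈ V, w (σ i) = ∑ i ∈ V, w i := by
        refine Finset.sum_bij (fun i _ => σ i) ?_ ?_ ?_ ?_
        · intro i hi
          by_contra h0
          have := hσ _ h0
          exact h0 (by rw [σ.injective this]; exact hi)
        · intro i _ j _ h0
          exact σ.injective h0
        · intro j hj
          refine ⟨σ.symm j, ?_, by simp⟩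
          by_contra h0
          have := hσ _ h0
          rw [Equiv.apply_symm_apply] at this
          exact h0 (this ▸ hj)
        · intro i _
          rfl
      rw [e3]
      ring
    rw [e2]
    exact lt_prod ν V (Finset.card_pos.1 (by omega)) _ _ fun i _ => h5 (σ i) i
  · push Not at hσ
    obtain ⟨i, hi, hi2⟩ := hσ
    rw [Finset.prod_eq_zero (Finset.mem_univ i)]
    · simp
    · simp only [colMix, Matrix.of_apply]
      rw [if_neg hi, Matrix.one_apply_ne hi2]

theorem sum_symmDiff_eq (S U : Finset (Fin n)) (w : Fin n → ℝ) :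
    ∑ i ∈ symmDiff S U, w i = ∑ i ∈ S, w i + ∑ i ∈ U, (if i ∈ S then -w i else w i) := by
  have e : ∀ (V : Finset (Fin n)) (g : Fin n → ℝ), ∑ i ∈ V, g i = ∑ i, if i ∈ V then g i else 0 :=
    fun V g => by simp
  rw [e, e S, e U, ← Finset.sum_add_distrib]
  refine Finset.sum_congr rfl fun i _ => ?_
  by_cases h1 : i ∈ S <;> by_cases h2 : i ∈ U <;> simp [h1, h2, Finset.mem_symmDiff]

/-- The minors of a matrix `[X | Y | z]` with isotropic rows form a valuated `Δ`-matroid. -/
theorem main [StarRing K] (hν : ∀ a, ν (star a) = ν a) (X Y : Matrix (Fin n) (Fin n) K)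
    (z : Fin n → K) (α : K)
    (hXY : ∀ k l, ∑ i, (X k i * star (Y l i) + Y k i * star (X l i)) +
      α * (z k * star (z l)) = 0) :
    IsValuatedDeltaMatroid fun S => ν (colMix X Y S).det := by
  intro S T hST ⟨w, c, hle, hC⟩
  by_contra hcard
  rw [not_le] at hcard
  have hS : ν (colMix X Y S).det = ((c + ∑ i ∈ S, w i : ℝ) : WithTop ℝ) := by
    have : S ∈ ({S, T} : Set (Finset (Fin n))) := by simp
    rw [hC] at this
    exact this
  have hT : ν (colMix X Y T).det = ((c + ∑ i ∈ T, w i : ℝ) : WithTop ℝ) := by
    have : T ∈ ({S, T} : Set (Finset (Fin n))) := by simp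
    rw [hC] at this
    exact this
  have hlt : ∀ U, U ≠ S → U ≠ T →
      ((c + ∑ i ∈ U, w i : ℝ) : WithTop ℝ) < ν (colMix X Y U).det := by
    intro U h1 h2
    refine lt_of_le_of_ne (hle U) fun h3 => ?_
    have : U ∈ ({S, T} : Set (Finset (Fin n))) := by
      rw [hC]
      exact h3.symm
    rcases this with h | h
    · exact h1 h
    · exact h2 h
  set M := colMix X Y S with hM
  have hdet : M.det ≠ 0 := by
    intro h0
    rw [h0, AddValuation.map_zero] at hS
    exact WithTop.top_ne_coe hS
  set N := M⁻¹ with hN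
  have hNM : N * M = 1 := Matrix.nonsing_inv_mul _ (isUnit_iff_ne_zero.2 hdet)
  have hνN : ν N.det = ((-(c + ∑ i ∈ S, w i) : ℝ) : WithTop ℝ) := by
    have h1 : ν (N.det * M.det) = 0 := by
      rw [← Matrix.det_mul, hNM, Matrix.det_one, AddValuation.map_one]
    rw [AddValuation.map_mul, hS] at h1
    generalize ν N.det = a at *
    induction a using WithTop.recTopCoe with
    | top => simp at h1
    | coe a =>
      rw [← WithTop.coe_add, ← WithTop.coe_zero, WithTop.coe_inj] at h1
      rw [WithTop.coe_inj]
      linarith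
  set P := colMix Y X S with hP
  set A := N * P with hA
  have hcol : ∀ U, colMix A 1 U = N * colMix X Y (symmDiff S U) := by
    intro U
    ext k i
    rw [← hNM]
    simp only [colMix, Matrix.of_apply]
    by_cases h2 : i ∈ U
    · rw [if_pos h2, hA, Matrix.mul_apply, Matrix.mul_apply]
      refine Finset.sum_congr rfl fun j _ => ?_
      simp only [hP, colMix, Matrix.of_apply, Finset.mem_symmDiff]
      by_cases h1 : i ∈ S <;> simp [h1, h2]
    · rw [if_neg h2, Matrix.mul_apply, Matrix.mul_apply]
      refine Finset.sum_congr rfl fun j _ => ?_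
      simp only [hM, colMix, Matrix.of_apply, Finset.mem_symmDiff]
      by_cases h1 : i ∈ S <;> simp [h1, h2]
  have hdetU : ∀ U, ν (colMix A 1 U).det =
      ((-(c + ∑ i ∈ S, w i) : ℝ) : WithTop ℝ) + ν (colMix X Y (symmDiff S U)).det := by
    intro U
    rw [hcol, Matrix.det_mul, AddValuation.map_mul, hνN]
  have key := local_lemma ν hν A (N.mulVec z) α ?_ (fun i => if i ∈ S then -w i else w i)
    (symmDiff S T) hcard ?_
  · rw [hdetU, symmDiff_symmDiff_cancel_left, hT, ← WithTop.coe_add, WithTop.coe_lt_coe] at key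
    have := sum_symmDiff_eq S (symmDiff S T) w
    rw [symmDiff_symmDiff_cancel_left] at this
    linarith
  · -- the relation
    have h1 : X * Yᴴ + Y * Xᴴ + α • Matrix.vecMulVec z (star z) = 0 := by
      ext k l
      rw [Matrix.add_apply, Matrix.add_apply, Matrix.mul_apply, Matrix.mul_apply,
        Matrix.smul_apply, Matrix.vecMulVec_apply, ← Finset.sum_add_distrib]
      exact hXY k l
    have h2 : X * Yᴴ + Y * Xᴴ = P * Mᴴ + M * Pᴴ := by
      ext k l
      rw [Matrix.add_apply, Matrix.add_apply, Matrix.mul_apply, Matrix.mul_apply,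
        Matrix.mul_apply, Matrix.mul_apply, ← Finset.sum_add_distrib, ← Finset.sum_add_distrib]
      refine Finset.sum_congr rfl fun i _ => ?_
      simp only [Matrix.conjTranspose_apply, hP, hM, colMix, Matrix.of_apply]
      by_cases h : i ∈ S
      · simp only [h, if_true]
        ring
      · simp only [h, if_false]
    have h3 : A + Aᴴ + α • Matrix.vecMulVec (N.mulVec z) (star (N.mulVec z)) = 0 := by
      have h4 : N * (X * Yᴴ + Y * Xᴴ + α • Matrix.vecMulVec z (star z)) * Nᴴ = 0 := by
        rw [h1]; simp
      rw [h2] at h4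
      have h5 : N * (P * Mᴴ) * Nᴴ = A := by
        rw [← Matrix.mul_assoc, Matrix.mul_assoc, ← Matrix.conjTranspose_mul, hNM]
        simp [hA]
      have h6 : N * (M * Pᴴ) * Nᴴ = Aᴴ := by
        rw [← Matrix.mul_assoc, hNM, Matrix.one_mul, ← Matrix.conjTranspose_mul]
      have h7 : N * (α • Matrix.vecMulVec z (star z)) * Nᴴ =
          α • Matrix.vecMulVec (N.mulVec z) (star (N.mulVec z)) := by
        rw [Matrix.mul_smul, Matrix.smul_mul, Matrix.mul_vecMulVec, Matrix.vecMulVec_mul,
          Matrix.star_mulVec]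
      rw [Matrix.mul_add, Matrix.mul_add, Matrix.add_mul, Matrix.add_mul, h5, h6, h7] at h4
      exact h4
    intro i j
    have := congrFun (congrFun h3 i) j
    simpa [Matrix.add_apply, Matrix.conjTranspose_apply, Matrix.smul_apply,
      Matrix.vecMulVec_apply] using this
  · intro U hU1 hU2
    have h1 : symmDiff S U ≠ S := by
      intro h
      rw [symmDiff_eq_left] at h
      subst h
      exact Finset.not_nonempty_empty hU1
    have h2 : symmDiff S U ≠ T := by
      intro h
      rw [← h, symmDiff_symmDiff_cancel_left] at hcard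
      omega
    have h3 := hlt _ h1 h2
    rw [hdetU]
    rw [sum_symmDiff_eq] at h3
    generalize ν (colMix X Y (symmDiff S U)).det = a at *
    induction a using WithTop.recTopCoe with
    | top => simp
    | coe a =>
      rw [WithTop.coe_lt_coe] at h3
      rw [← WithTop.coe_add, WithTop.coe_lt_coe]
      linarith

end

end Pool.Agent.R139.ValDelta
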